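import Pool.Agent.N520.T.ExistTM

set_option autoImplicit false
set_option linter.unusedSectionVars false

open Filter Topology Set Metric MeasureTheory

namespace Pool.Agent.N520.T

open Pool.Agent.H789R2.AN Pool.Agent.Y330.G Pool.Agent.H721R2 Pool.Agent.Y321.PJ

variable {X Y : Type*} [MetricSpace X] [CompactSpace X] [MetricSpace Y] [CompactSpace Y]

/-- Transfer of transverse measures from a power of a conjugate map. -/
theorem transfer_back [MeasurableSpace X] [BorelSpace X] [MeasurableSpace Y] [BorelSpace Y]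
    {h : X ≃ₜ Y} {f : X ≃ₜ X} {f' : Y ≃ₜ Y} (hf : ∀ x, h (f x) = f' (h x)) {N : ℕ}
    (hN : 1 ≤ N) {φ : X → ℝ} {r C : ℝ} {ν : Y → Measure Y} (hr : 0 < r)
    (hT : TM (iterHomeo f' N) (fun y => birkhoffSum f φ N (h.symm y)) r C ν) :
    ∃ ε > 0, TM f φ ε C (fun x => (ν (h x)).map h.symm) := by
  obtain ⟨ε, hε, h1⟩ := one_uc h hr
  have hmap : ∀ (x : X) (S : Set X), (ν (h x)).map h.symm S = ν (h x) (h.symm ⁻¹' S) :=
    fun x S => h.symm.toMeasurableEquiv.map_apply S
  have hsub : ∀ x, h.symm ⁻¹' Wu f ε x ⊆ Wu (iterHomeo f' N) r (h x) := by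
    intro x y hy n
    have h2 := h1 _ _ (hy (N * n))
    rw [conj_iter (conj_symm hf), conj_iter (conj_symm hf), h.apply_symm_apply] at h2
    rw [ith_symm_iter, ith_symm_iter]
    exact h2
  have hsup : ∀ x, ∀ ρ > 0, ∃ ρ' > 0, Wu (iterHomeo f' N) ρ' (h x) ⊆ h.symm ⁻¹' Wu f ρ x := by
    intro x ρ hρ
    obtain ⟨ρ', hρ', h2⟩ := all_times (conj_symm hf) hN hρ
    refine ⟨ρ', hρ', fun y hy n => ?_⟩
    have h3 := h2 (h x) y n (by
      rw [← ith_symm]
      exact hy (n / N))
    rwa [h.symm_apply_apply] at h3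
  refine ⟨ε, hε, ?_, ?_, ?_⟩
  · intro x
    rw [hmap]
    exact ((measure_mono (hsub x)).trans_lt (lt_top_iff_ne_top.mpr (hT.fin _))).ne
  · intro x ρ hρ h0
    rw [hmap] at h0
    obtain ⟨ρ', hρ', h2⟩ := hsup x ρ hρ
    exact hT.pos _ ρ' hρ' (measure_mono_null h2 h0)
  · intro x x' K θ t hK hKs hθs hθc hθi hasym hsum
    rw [hmap, hmap]
    set θ' : Y → Y := fun y => h (θ (h.symm y)) with hθ'
    have himg : h.symm ⁻¹' (θ '' K) = θ' '' (h.symm ⁻¹' K) := by
      ext y
      constructor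
      · rintro ⟨k, hk, hky⟩
        refine ⟨h k, ?_, ?_⟩
        · rw [mem_preimage, h.symm_apply_apply]
          exact hk
        · simp only [hθ', h.symm_apply_apply, hky, h.apply_symm_apply]
      · rintro ⟨y', hy', rfl⟩
        exact ⟨h.symm y', hy', by simp only [hθ', h.symm_apply_apply]⟩
    rw [himg]
    refine hT.hol _ _ _ θ' t ?_ ?_ ?_ ?_ ?_ ?_ ?_
    · exact (h.symm.isCompact_preimage).mpr hK
    · exact (preimage_mono hKs).trans (hsub x)
    · rw [← himg]
      exact (preimage_mono hθs).trans (hsub x')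
    · exact h.continuous.comp_continuousOn
        (hθc.comp h.symm.continuous.continuousOn (mapsTo_preimage _ _))
    · intro a ha b hb hab
      exact h.symm.injective (hθi ha hb (h.injective hab))
    · intro δ hδ
      obtain ⟨δ', hδ', h2⟩ := one_uc h hδ
      obtain ⟨n₀, hn₀⟩ := eventually_atTop.mp (hasym δ' hδ')
      filter_upwards [eventually_ge_atTop n₀] with n hn y hy
      have h3 := h2 _ _ (hn₀ (N * n) (hn.trans (Nat.le_mul_of_pos_left n hN)) (h.symm y) hy)
      rw [conj_iter hf, conj_iter hf, h.apply_symm_apply] at h3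
      rw [ith_iter, ith_iter]
      exact h3
    · obtain ⟨n₀, hn₀⟩ := eventually_atTop.mp hsum
      filter_upwards [eventually_ge_atTop n₀] with n hn y hy
      have h3 := hn₀ (N * n) (hn.trans (Nat.le_mul_of_pos_left n hN)) (h.symm y) hy
      rw [bsum_pow hf, bsum_pow hf]
      simp only [hθ', h.symm_apply_apply]
      exact h3

end Pool.Agent.N520.T
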