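import Pool.Agent.N520.T.Meas

set_option autoImplicit false
set_option linter.unusedSectionVars false

open Filter Topology Set Metric MeasureTheory

namespace Pool.Agent.N520.T

open Pool.Agent.H789R2.AN Pool.Agent.Y330.G

variable {X : Type*} [MetricSpace X]

/-- The Bowen ball in a local unstable set. -/
def BB (g : X ≃ₜ X) (s : ℝ) (p b : X) (n : ℕ) : Set X :=
  {y | SR g.symm (s / 2) p y ∧ ∀ k ≤ n, dist (g^[k] y) (g^[k] b) ≤ s}

theorem isCompact_bb [CompactSpace X] (g : X ≃ₜ X) (s : ℝ) (p b : X) (n : ℕ) :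
    IsCompact (BB g s p b n) :=
  ((isClosed_sr g.symm (s / 2) p).inter (isClosed_near g n s b)).isCompact

theorem wu_map {g : X ≃ₜ X} {p : X} (hp : g p = p) {δ δ' : ℝ} {a : ℕ} (hle : δ' ≤ δ)
    (hu : ∀ k ≤ a, ∀ x y, dist x y ≤ δ' → dist (g^[k] x) (g^[k] y) ≤ δ) {y : X}
    (hy : SR g.symm δ' p y) : SR g.symm δ p (g^[a] y) := by
  have hps := fixed_symm hp
  intro k
  rw [fixed_iter hps]
  rcases le_total k a with hk | hk
  · rw [bk g hk]
    have h1 := hy 0
    simp only [Function.iterate_zero, id] at h1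
    have := hu (a - k) (by omega) p y h1
    rwa [fixed_iter hp] at this
  · rw [bk' g hk]
    have := hy (k - a)
    rw [fixed_iter hps] at this
    exact this.trans hle

theorem lemU [CompactSpace X] [MeasurableSpace X] [BorelSpace X] {g : X ≃ₜ X} {φ : X → ℝ}
    {r C c e V B : ℝ} {ν : X → Measure X} (h : LP g c) (hT : TM g φ r C ν) (hC : 0 < C)
    (hB : Bow g φ e V) (hφ : ∀ x, |φ x| ≤ B) {p : X} (hp : g p = p) {s : ℝ} (hs0 : 0 < s)
    (hsc : 16 * s ≤ c) (hse : s ≤ e) (hsr : s ≤ r) {δ : ℝ} (hδ0 : 0 < δ) (hδr : δ ≤ r)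
    (hδe : δ ≤ e) (a : ℕ) : ∃ C₁ > 0, ∀ (n : ℕ) (b : X), SR g.symm (s / 2) p b →
      ν p (BB g s p b n) ≤ ENNReal.ofReal (C₁ * Real.exp (birkhoffSum g φ n b - n * φ p)) *
        ν p (g.symm^[n + a] '' Wu g δ p) := by
  classical
  have hps := fixed_symm hp
  obtain ⟨δh, hδh, hloc⟩ := loc_hol h hs0 (by linarith : 2 * s ≤ c)
  obtain ⟨δ₀, hδ₀, hu0⟩ := uc g g.continuous a hδ0
  obtain ⟨δ', hδ'0, hδ'1, hδ'2⟩ : ∃ δ' > 0, δ' ≤ δ ∧ δ' < δ₀ :=
    ⟨min δ δ₀ / 2, by positivity, by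
      have := min_le_left δ δ₀
      have : 0 < min δ δ₀ := lt_min hδ0 hδ₀
      linarith, by
      have := min_le_right δ δ₀
      have : 0 < min δ δ₀ := lt_min hδ0 hδ₀
      linarith⟩
  have hu : ∀ k ≤ a, ∀ x y, dist x y ≤ δ' → dist (g^[k] x) (g^[k] y) ≤ δ := fun k hk x y hxy =>
    (hu0 k hk x y (hxy.trans_lt hδ'2)).le
  obtain ⟨N₀, hN₀⟩ := spread h hp (half_pos hδ'0) (half_pos hδh)
  obtain ⟨j, hj⟩ := pw (c := c) (half_pos hδ'0)
  obtain ⟨N, hNN₀, hNj⟩ : ∃ N : ℕ, N₀ ≤ N ∧ j ≤ N := ⟨max N₀ j, le_max_left _ _, le_max_right _ _⟩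
  obtain ⟨K, hK⟩ := sep_bdd g hs0 N
  refine ⟨(K + 1) * (C * Real.exp (3 * V + 2 * N * B)), by positivity, fun n b hb => ?_⟩
  -- the pieces
  obtain ⟨F, hF1, hF2, hF3⟩ := exists_cov g s hs0 N (g^[n] b)
  set L : X → Set X := fun v => (g^[n] '' BB g s p b n) ∩ {u | ∀ k ≤ N, dist (g^[k] u) (g^[k] v) ≤ s}
    with hL
  have hLc : ∀ v, IsCompact (L v) := fun v =>
    ((isCompact_bb g s p b n).image (g.continuous.iterate n)).inter_right (isClosed_near g N s v)
  have hbn : ∀ y ∈ BB g s p b n, SR g.symm s (g^[n] b) (g^[n] y) := by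
    intro y hy
    refine sr_of g (fun i hi => ?_) ?_
    · rw [dist_comm]
      exact hy.2 i hi
    · exact (sr_tr hb.symm' hy.1).mono (by linarith)
  have hcov : BB g s p b n ⊆ ⋃ v ∈ F, g.symm^[n] '' L v := by
    intro y hy
    obtain ⟨v, hv, h1⟩ := hF3 (g^[n] y) (hbn y hy)
    refine mem_iUnion₂.mpr ⟨v, hv, g^[n] y, ⟨⟨y, hy, rfl⟩, h1⟩, iterL g n y⟩
  have hpb : WS g.symm p b := WS.of_SR (h.cU _ _ (hb.mono (by linarith)))
  have hpiece : ∀ v ∈ F, ν p (g.symm^[n] '' L v) ≤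
      ENNReal.ofReal (C * Real.exp (birkhoffSum g φ n b - n * φ p + 3 * V + 2 * N * B)) *
        ν p (g.symm^[n + a] '' Wu g δ p) := by
    intro v hv
    have hpv : WS g.symm p v := by
      have h1 : WS g.symm (g^[n] b) v := WS.of_SR (h.cU _ _ ((hF1 v hv).mono (by linarith)))
      have h2 : WS g.symm p (g^[n] b) := by
        rw [← WS.iter n, iterL, fixed_iter hps]
        exact hpb
      exact h2.trans h1
    obtain ⟨z, hz1, hz2⟩ := hN₀ N hNN₀ v hpv
    have hd : dist (g^[N] v) (g^[N] z) < δh := by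
      have := hz2 0
      simp only [Function.iterate_zero, id] at this
      linarith
    obtain ⟨θ, hθ1, hθ2, hθ3⟩ := hloc (2 * s) (by linarith) _ _ hd
    have hLN : ∀ u ∈ L v, SR g.symm (2 * s) (g^[N] v) (g^[N] u) := by
      rintro u ⟨⟨y, hy, rfl⟩, h1⟩
      refine sr_of g (fun i hi => ?_) ?_
      · rw [dist_comm]
        exact (h1 i hi).trans (by linarith)
      · exact (sr_tr (hF1 v hv).symm' (hbn y hy)).mono (by linarith)
    -- the image
    have hw : ∀ u ∈ L v, SR g.symm δ' p (g.symm^[N] (θ (g^[N] u))) := by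
      intro u hu k
      rw [fixed_iter hps]
      have h1 := hz1 k
      rw [fixed_iter hps] at h1
      have h2 := h.cU _ _ ((hθ1 _ (hLN u hu)).2.mono (by linarith)) (k + N)
      rw [Function.iterate_add_apply, Function.iterate_add_apply, iterL] at h2
      have h3 := (pw_anti h.c_pos (show j ≤ k + N by omega)).trans hj
      have := dist_triangle p (g.symm^[k] z) (g.symm^[k] (g.symm^[N] (θ (g^[N] u))))
      linarith
    have hLe : g.symm^[n] '' L v = g.symm^[n + N] '' (g^[N] '' L v) := by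
      rw [image_image]
      refine image_congr fun u _ => ?_
      rw [Function.iterate_add_apply, iterL]
    have hsub : g^[N] '' L v ⊆ Wu g (2 * s) (g^[N] v) := by
      rintro _ ⟨u, hu, rfl⟩
      exact hLN u hu
    rw [hLe]
    have key := hT.pull hB h (ρ := s) hse (by linarith) (x := p) (x' := p)
      (L := g^[N] '' L v) ((hLc v).image (g.continuous.iterate N)) (θ := θ) (hθ2.mono hsub)
      (hθ3.mono hsub) (by
        rintro _ ⟨u, hu, rfl⟩
        exact (hθ1 _ (hLN u hu)).1) (n + N) (by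
        rintro _ ⟨u, hu, rfl⟩
        rw [Function.iterate_add_apply, iterL]
        obtain ⟨⟨y, hy, rfl⟩, -⟩ := hu
        rw [iterL]
        exact hy.1.mono (by linarith)) (by
        rintro _ ⟨u, hu, rfl⟩
        intro k
        rw [Function.iterate_add_apply, ← Function.iterate_add_apply g.symm k n]
        have h1 := hw u hu (k + n)
        rw [fixed_iter hps] at h1 ⊢
        linarith)
      (t := birkhoffSum g φ n b - n * φ p + 2 * V + 2 * N * B) (by
        rintro _ ⟨u, hu, rfl⟩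
        rw [Function.iterate_add_apply, iterL, Function.iterate_add_apply]
        obtain ⟨⟨y, hy, rfl⟩, -⟩ := id hu
        rw [iterL, birkhoffSum_add, birkhoffSum_add, iterR]
        have h1 := (abs_le.mp (hB n y b fun k hk => (hy.2 k hk.le).trans hse)).2
        have h2 : |birkhoffSum g φ n p -
            birkhoffSum g φ n (g.symm^[n] (g.symm^[N] (θ (g^[N] (g^[n] y)))))| ≤ V := by
          apply hB
          intro k hk
          rw [fixed_iter hp, fw g hk.le]
          have h3 := hw _ hu (n - k)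
          rw [fixed_iter hps] at h3
          linarith
        have h2' := (abs_le.mp h2).2
        rw [bsum_fixed _ _ _ hp] at h2'
        have h4 := (abs_le.mp (bsum_bound g hφ N (g^[n] y))).2
        have h5 := (abs_le.mp (bsum_bound g hφ N (g.symm^[N] (θ (g^[N] (g^[n] y)))))).1
        linarith)
    refine key.trans ?_
    rw [show birkhoffSum g φ n b - n * φ p + 2 * V + 2 * N * B + V =
      birkhoffSum g φ n b - n * φ p + 3 * V + 2 * N * B by ring]
    refine mul_le_mul_right (measure_mono ?_) _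
    rintro _ ⟨_, ⟨_, ⟨u, hu', rfl⟩, rfl⟩, rfl⟩
    refine ⟨g^[a] (g.symm^[N] (θ (g^[N] u))), wu_map hp hδ'1 hu (hw u hu'), ?_⟩
    rw [Function.iterate_add_apply, iterL, Function.iterate_add_apply]
  calc ν p (BB g s p b n) ≤ ν p (⋃ v ∈ F, g.symm^[n] '' L v) := measure_mono hcov
    _ ≤ ∑ v ∈ F, ν p (g.symm^[n] '' L v) := measure_biUnion_finset_le _ _
    _ ≤ ∑ v ∈ F, ENNReal.ofReal (C * Real.exp (birkhoffSum g φ n b - n * φ p + 3 * V +
          2 * N * B)) * ν p (g.symm^[n + a] '' Wu g δ p) := Finset.sum_le_sum hpiece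
    _ = (F.card : ENNReal) * (ENNReal.ofReal (C * Real.exp (birkhoffSum g φ n b - n * φ p + 3 * V +
          2 * N * B)) * ν p (g.symm^[n + a] '' Wu g δ p)) := by
        rw [Finset.sum_const, nsmul_eq_mul]
    _ ≤ ENNReal.ofReal ((K + 1) * (C * Real.exp (3 * V + 2 * N * B)) *
          Real.exp (birkhoffSum g φ n b - n * φ p)) * ν p (g.symm^[n + a] '' Wu g δ p) := by
        rw [← mul_assoc]
        refine mul_le_mul_left ?_ _
        have e1 : (F.card : ENNReal) = ENNReal.ofReal (F.card : ℝ) := by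
          rw [ENNReal.ofReal_natCast]
        rw [e1, ← ENNReal.ofReal_mul (by positivity)]
        apply ENNReal.ofReal_le_ofReal
        have e2 : Real.exp (birkhoffSum g φ n b - n * φ p + 3 * V + 2 * N * B) =
            Real.exp (3 * V + 2 * N * B) * Real.exp (birkhoffSum g φ n b - n * φ p) := by
          rw [← Real.exp_add]
          congr 1
          ring
        rw [e2]
        have e3 : (F.card : ℝ) ≤ K + 1 := by
          have : F.card ≤ K := hK F hF2
          have : (F.card : ℝ) ≤ K := by exact_mod_cast this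
          linarith
        have e4 : 0 ≤ C * (Real.exp (3 * V + 2 * N * B) *
            Real.exp (birkhoffSum g φ n b - n * φ p)) := by positivity
        calc (F.card : ℝ) * (C * (Real.exp (3 * V + 2 * N * B) *
              Real.exp (birkhoffSum g φ n b - n * φ p)))
            ≤ (K + 1) * (C * (Real.exp (3 * V + 2 * N * B) *
              Real.exp (birkhoffSum g φ n b - n * φ p))) := mul_le_mul_of_nonneg_right e3 e4
          _ = _ := by ring

/-- The normalised measure of the pulled back local unstable set of a fixed point. -/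
noncomputable def XX [MeasurableSpace X] (g : X ≃ₜ X) (φ : X → ℝ) (ν : X → Measure X) (δ : ℝ)
    (p : X) (n : ℕ) : ℝ :=
  Real.exp (-(n * φ p)) * (ν p (g.symm^[n] '' Wu g δ p)).toReal

theorem wu_back {g : X ≃ₜ X} {p : X} (hp : g p = p) {δ : ℝ} (n : ℕ) :
    g.symm^[n] '' Wu g δ p ⊆ Wu g δ p := by
  have hps := fixed_symm hp
  rintro _ ⟨y, hy, rfl⟩ k
  have h1 := hy (k + n)
  rw [fixed_iter hps] at h1 ⊢
  rwa [← Function.iterate_add_apply]

theorem corU [CompactSpace X] [MeasurableSpace X] [BorelSpace X] {g : X ≃ₜ X} {φ : X → ℝ}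
    {r C c e V B : ℝ} {ν : X → Measure X} (h : LP g c) (hT : TM g φ r C ν) (hC : 0 < C)
    (hB : Bow g φ e V) (hφ : ∀ x, |φ x| ≤ B) {p : X} (hp : g p = p) {s : ℝ} (hs0 : 0 < s)
    (hsc : 16 * s ≤ c) (hse : s ≤ e) (hsr : s ≤ r) {δ : ℝ} (hδ0 : 0 < δ) (hδr : δ ≤ r)
    (hδe : δ ≤ e) (a : ℕ) : ∃ κ > 0, ∀ n : ℕ, ∃ F : Finset X, (∀ b ∈ F, SR g.symm (s / 2) p b) ∧
      Sep g s n F ∧ κ ≤ XX g φ ν δ p (n + a) * ∑ b ∈ F, Real.exp (birkhoffSum g φ n b) := by
  obtain ⟨C₁, hC₁, h1⟩ := lemU h hT hC hB hφ hp hs0 hsc hse hsr hδ0 hδr hδe a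
  have hfin : ∀ S, S ⊆ Wu g r p → ν p S ≠ ⊤ := fun S hS =>
    ((measure_mono hS).trans_lt (lt_top_iff_ne_top.mpr (hT.fin p))).ne
  have hsub : Wu g (s / 2) p ⊆ Wu g r p := fun y hy => SR.mono hy (by linarith)
  set m₁ := (ν p (Wu g (s / 2) p)).toReal with hm₁
  have hm₁0 : 0 < m₁ := ENNReal.toReal_pos (hT.pos p _ (by linarith)) (hfin _ hsub)
  refine ⟨m₁ / (C₁ * Real.exp (a * B)), by positivity, fun n => ?_⟩
  obtain ⟨F, hF1, hF2, hF3⟩ := exists_cov g (s / 2) hs0 n p
  refine ⟨F, hF1, hF2, ?_⟩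
  set μ := ν p (g.symm^[n + a] '' Wu g δ p) with hμ
  have hμf : μ ≠ ⊤ := hfin _ ((wu_back hp _).trans fun y hy => SR.mono hy hδr)
  have h2 : ν p (Wu g (s / 2) p) ≤
      ∑ b ∈ F, ENNReal.ofReal (C₁ * Real.exp (birkhoffSum g φ n b - n * φ p)) * μ := by
    calc ν p (Wu g (s / 2) p) ≤ ν p (⋃ b ∈ F, BB g s p b n) := by
          refine measure_mono fun y hy => ?_
          obtain ⟨b, hb, h3⟩ := hF3 y hy
          exact mem_iUnion₂.mpr ⟨b, hb, hy, h3⟩
      _ ≤ ∑ b ∈ F, ν p (BB g s p b n) := measure_biUnion_finset_le _ _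
      _ ≤ _ := Finset.sum_le_sum fun b hb => h1 n b (hF1 b hb)
  have h3 : m₁ ≤ ∑ b ∈ F, C₁ * Real.exp (birkhoffSum g φ n b - n * φ p) * μ.toReal := by
    have h4 := ENNReal.toReal_mono (by
      refine ENNReal.sum_ne_top.mpr fun b _ => ENNReal.mul_ne_top ENNReal.ofReal_ne_top hμf) h2
    rw [ENNReal.toReal_sum fun b _ => ENNReal.mul_ne_top ENNReal.ofReal_ne_top hμf] at h4
    refine h4.trans (le_of_eq (Finset.sum_congr rfl fun b _ => ?_))
    rw [ENNReal.toReal_mul, ENNReal.toReal_ofReal (by positivity)]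
  have h4 : ∑ b ∈ F, C₁ * Real.exp (birkhoffSum g φ n b - n * φ p) * μ.toReal =
      (C₁ * Real.exp (a * φ p)) * (XX g φ ν δ p (n + a) *
        ∑ b ∈ F, Real.exp (birkhoffSum g φ n b)) := by
    unfold XX
    rw [← hμ, Finset.mul_sum, Finset.mul_sum]
    refine Finset.sum_congr rfl fun b _ => ?_
    have e1 : Real.exp (birkhoffSum g φ n b - n * φ p) =
        Real.exp (a * φ p) * (Real.exp (-((n + a : ℕ) * φ p)) *
          Real.exp (birkhoffSum g φ n b)) := by
      rw [← Real.exp_add, ← Real.exp_add]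
      congr 1
      push_cast
      ring
    rw [e1]
    ring
  rw [h4] at h3
  have h5 : 0 ≤ XX g φ ν δ p (n + a) * ∑ b ∈ F, Real.exp (birkhoffSum g φ n b) := by
    unfold XX
    positivity
  have h6 : Real.exp (a * φ p) ≤ Real.exp (a * B) := by
    apply Real.exp_le_exp.mpr
    have := (abs_le.mp (hφ p)).2
    gcongr
  rw [div_le_iff₀ (by positivity)]
  calc m₁ ≤ (C₁ * Real.exp (a * φ p)) * (XX g φ ν δ p (n + a) *
        ∑ b ∈ F, Real.exp (birkhoffSum g φ n b)) := h3
    _ ≤ (C₁ * Real.exp (a * B)) * (XX g φ ν δ p (n + a) *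
        ∑ b ∈ F, Real.exp (birkhoffSum g φ n b)) := by gcongr
    _ = _ := by ring

end Pool.Agent.N520.T
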