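import Pool.Agent.N520.T.Cover

set_option autoImplicit false
set_option linter.unusedSectionVars false

open Filter Topology Set Metric MeasureTheory

namespace Pool.Agent.N520.T

open Pool.Agent.H789R2.AN Pool.Agent.Y330.G

variable {X : Type*} [MetricSpace X]

/-- The pieces of the local unstable set of `q` which follow the repeller, leave it along a
heteroclinic orbit and come to `p`. -/
theorem piece [CompactSpace X] [MeasurableSpace X] [BorelSpace X] {g : X ≃ₜ X} {φ : X → ℝ}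
    {r C c e V B : ℝ} {ν : X → Measure X} (h : LP g c) (hT : TM g φ r C ν) (hC : 0 < C)
    (hB : Bow g φ e V) (hφ : ∀ x, |φ x| ≤ B) {p q : X} (hp : g p = p) (hq : g q = q) {R : Set X}
    (hR : MinAtt g.symm R) (hqR : q ∈ R) {x₀ : X} (hx1 : WS g p x₀) (hx2 : WS g.symm q x₀)
    (hx3 : x₀ ∉ R) {u : ℝ} (hu0 : 0 < u) (huc : 256 * u ≤ c) (hue : 16 * u ≤ e)
    (hur : 16 * u ≤ r) : ∃ (α T : ℕ) (w : X) (ρ₀ C₂ : ℝ) (N : ℕ), 0 < ρ₀ ∧ 0 < C₂ ∧
      (∀ v ∈ R, ρ₀ ≤ dist w v) ∧
      ∀ (n : ℕ) (b : X), SR g (8 * u) q b → ∃ D : Set X, IsCompact D ∧ D ⊆ Wu g r q ∧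
        XX g φ ν u p (n + α) * Real.exp (birkhoffSum g.symm φ n b) ≤ C₂ * (ν q D).toReal ∧
        ∃ z ∈ R, (∀ k ≤ n, dist (g.symm^[k] b) (g^[N + (n - k)] z) ≤ u) ∧
          (∀ v ∈ D, ∀ k ≤ n + (N + T), dist (g^[k] v) (g^[k] z) ≤ 4 * u ∧
            dist (g^[k] v) (g^[k] z) ≤ 2 * (c * (1 / 2) ^ (n + (N + T) - k))) ∧
          ∀ v ∈ D, dist w (g^[n + (N + T)] v) ≤ ρ₀ / 4 := by
  have hc0 := h.c_pos
  have hps := fixed_symm hp
  have hqs := fixed_symm hq
  have hgR : ∀ k y, g^[k] y ∈ R ↔ y ∈ R := fun k y =>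
    inv_iter (fun x => by rw [← hR.1.inv (g x), g.symm_apply_apply]) k y
  -- the exit point
  obtain ⟨k₀, hk₀⟩ := hx2.eventually_lt hu0
  set w := g.symm^[k₀] x₀ with hw
  have hw1 : SR g.symm u q w := by
    intro k
    have h1 := hk₀ (k + k₀) (by omega)
    rw [Function.iterate_add_apply, Function.iterate_add_apply, fixed_iter hqs k₀] at h1
    exact h1.le
  have hw2 : WS g p w := by
    rw [← WS.iter k₀, hw, iterR, fixed_iter hp]
    exact hx1
  have hw3 : w ∉ R := by
    rw [hw, inv_iter hR.1.inv]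
    exact hx3
  obtain ⟨ρ₀, hρ₀, hball⟩ := Metric.isOpen_iff.mp hR.1.closed.isOpen_compl w hw3
  have hρ₀R : ∀ v ∈ R, ρ₀ ≤ dist w v := by
    intro v hv
    by_contra hcon
    push Not at hcon
    rw [dist_comm] at hcon
    exact hball hcon hv
  -- scales
  obtain ⟨ρ, hρ0, hρu, hρρ⟩ : ∃ ρ > 0, ρ ≤ u ∧ ρ ≤ ρ₀ / 8 :=
    ⟨min u (ρ₀ / 8), lt_min hu0 (by linarith), min_le_left _ _, min_le_right _ _⟩
  obtain ⟨δh, hδh, hhol⟩ := hol h hρ0
  obtain ⟨δl, hδl, hloc⟩ := loc_hol h hρ0 (by linarith : 2 * ρ ≤ c)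
  obtain ⟨N, hN⟩ := reach h hR hq hqR hu0 hu0
  obtain ⟨T, hTT⟩ := pw (c := c) (half_pos hδh)
  obtain ⟨J₁, hJ₁⟩ := hw2.eventually_lt (half_pos hδl)
  obtain ⟨j₂, hj₂⟩ := pw (c := c) (show 0 < min (δl / 4) (ρ₀ / 8) from
    lt_min (by linarith) (by linarith))
  obtain ⟨J, hJJ₁, hJj₂⟩ : ∃ J : ℕ, J₁ ≤ J ∧ j₂ ≤ J :=
    ⟨max J₁ j₂, le_max_left _ _, le_max_right _ _⟩
  have hcJ : c * (1 / 2) ^ J ≤ min (δl / 4) (ρ₀ / 8) := (pw_anti hc0 hJj₂).trans hj₂
  have hcJ1 := hcJ.trans (min_le_left _ _)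
  have hcJ2 := hcJ.trans (min_le_right _ _)
  refine ⟨N + T + J, T, w, ρ₀, C * Real.exp (3 * V + (N + T + J + 2) * B), N, hρ₀, by positivity,
    hρ₀R, fun n b hb => ?_⟩
  have hbR : b ∈ R := hR.1.sat q hqR b (WS.of_SR (h.cS _ _ (hb.mono (by linarith))))
  obtain ⟨z, hz1, hz2⟩ := hN (g.symm^[n] b) ((inv_iter hR.1.inv n b).mpr hbR)
  have hzR : z ∈ R := by
    rw [← hgR N]
    exact hR.1.sat _ ((inv_iter hR.1.inv n b).mpr hbR) _
      (WS.of_SR (h.cS _ _ (hz2.mono (by linarith))))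
  have hz3 : SR g u b (g^[n + N] z) := by
    intro k
    have h1 := hz2 (k + n)
    rw [Function.iterate_add_apply, iterR, Function.iterate_add_apply g k n,
      ← Function.iterate_add_apply g n N] at h1
    exact h1
  have hz4 : dist q (g^[n + (N + T)] z) < δh := by
    have h1 := h.cS _ _ ((sr_tr hb hz3).mono (by linarith : 8 * u + u ≤ c)) T
    rw [fixed_iter hq, ← Function.iterate_add_apply] at h1
    have e : T + (n + N) = n + (N + T) := by omega
    rw [e] at h1
    linarith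
  obtain ⟨w', hw'1, hw'2⟩ := hhol u (by linarith) q _ w hz4 hw1
  have hd : dist p (g^[J] w') < δl := by
    have h1 := hJ₁ J hJJ₁
    rw [fixed_iter hp] at h1
    have h2 := h.cS _ _ (hw'1.mono (by linarith)) J
    have := dist_triangle p (g^[J] w) (g^[J] w')
    linarith
  obtain ⟨θ, hθ1, hθ2, hθ3⟩ := hloc u (by linarith) p (g^[J] w') hd
  set t := n + (N + T) with ht
  have hm : n + (N + T + J) = t + J := by omega
  rw [hm]
  set D : Set X := g.symm^[t + J] '' (θ '' Wu g u p) with hD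
  have hDc : IsCompact D :=
    (((isCompact_wu g u p).image_of_continuousOn hθ2).image (g.symm.continuous.iterate _))
  -- orbits of the points of the piece
  have f1 : ∀ y ∈ Wu g u p, ∀ k ≤ t, g^[k] (g.symm^[t + J] (θ y)) = g.symm^[t + J - k] (θ y) := by
    intro y _ k hk
    rw [fw g (by omega)]
  have f2 : ∀ k ≤ t, g.symm^[t + J - k] (g^[J] w') = g.symm^[t - k] w' := by
    intro k hk
    have e1 : t + J - k - J = t - k := by omega
    rw [bk' g (show J ≤ t + J - k by omega), e1]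
  have f3 : ∀ k ≤ t, g.symm^[t - k] (g^[t] z) = g^[k] z := by
    intro k hk
    have e1 : t - (t - k) = k := by omega
    rw [bk g (show t - k ≤ t by omega), e1]
  have o1 : ∀ v ∈ D, ∀ k ≤ t, dist (g^[k] v) (g^[k] z) ≤ 4 * u := by
    rintro _ ⟨_, ⟨y, hy, rfl⟩, rfl⟩ k hk
    rw [f1 y hy k hk]
    have h1 := (hθ1 y hy).2 (t + J - k)
    rw [f2 k hk] at h1
    have h2 := hw'2 (t - k)
    rw [f3 k hk] at h2
    have := dist_triangle_left (g.symm^[t + J - k] (θ y)) (g^[k] z) (g.symm^[t - k] w')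
    rw [dist_comm (g.symm^[t - k] w') (g^[k] z)] at this
    linarith
  have o2 : ∀ v ∈ D, ∀ k ≤ t, dist (g^[k] v) (g^[k] z) ≤ 2 * (c * (1 / 2) ^ (t - k)) := by
    rintro _ ⟨_, ⟨y, hy, rfl⟩, rfl⟩ k hk
    rw [f1 y hy k hk]
    have h1 := h.cU _ _ ((hθ1 y hy).2.mono (by linarith)) (t + J - k)
    rw [f2 k hk] at h1
    have h2 := h.cU _ _ (hw'2.mono (by linarith)) (t - k)
    rw [f3 k hk] at h2
    have h3 := pw_anti hc0 (show t - k ≤ t + J - k by omega)
    have := dist_triangle_left (g.symm^[t + J - k] (θ y)) (g^[k] z) (g.symm^[t - k] w')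
    rw [dist_comm (g.symm^[t - k] w') (g^[k] z)] at this
    linarith
  have o3 : ∀ v ∈ D, dist w (g^[t] v) ≤ ρ₀ / 4 := by
    rintro _ ⟨_, ⟨y, hy, rfl⟩, rfl⟩
    rw [f1 y hy t le_rfl]
    have h1 := h.cU _ _ ((hθ1 y hy).2.mono (by linarith)) (t + J - t)
    rw [f2 t le_rfl] at h1
    have e : t + J - t = J := by omega
    rw [Nat.sub_self, e] at h1
    simp only [Function.iterate_zero, id] at h1
    rw [e]
    have h2 := hw'1 0
    simp only [Function.iterate_zero, id] at h2
    have := dist_triangle w w' (g.symm^[J] (θ y))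
    linarith
  have o4 : ∀ y ∈ Wu g u p, SR g.symm (5 * u) q (g.symm^[t + J] (θ y)) := by
    intro y hy k
    rw [← Function.iterate_add_apply]
    have h1 := (hθ1 y hy).2 (k + (t + J))
    have h2 := hw'2 (k + t)
    rw [bk' g (by omega)] at h1 h2
    have e1 : k + (t + J) - J = k + t := by omega
    have e2 : k + t - t = k := by omega
    rw [e1] at h1
    rw [e2] at h2
    have h3 := hz1 k
    have := dist_triangle4 (g.symm^[k] q) (g.symm^[k] z) (g.symm^[k + t] w')
      (g.symm^[k + (t + J)] (θ y))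
    linarith
  refine ⟨D, hDc, ?_, ?_, z, hzR, ?_, fun v hv k hk => ⟨o1 v hv k hk, o2 v hv k hk⟩, o3⟩
  · rintro _ ⟨_, ⟨y, hy, rfl⟩, rfl⟩
    exact (o4 y hy).mono (by linarith)
  · -- the measure
    have key := hT.pull hB h (ρ := ρ) (by linarith) (by linarith) (x := p) (x' := q)
      (isCompact_wu g u p) hθ2 hθ3 (fun y hy => (hθ1 y hy).1) (t + J) (by
        intro y hy
        exact SR.mono (wu_back hp (t + J) ⟨y, hy, rfl⟩) (by linarith))
      (fun y hy => (o4 y hy).mono (by linarith))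
      (t := (t + J : ℕ) * φ p + 2 * V + (N + T + J + 2) * B - birkhoffSum g.symm φ n b) (by
        intro y hy
        have h1 : |birkhoffSum g φ (t + J) p - birkhoffSum g φ (t + J) (g.symm^[t + J] y)| ≤ V := by
          apply hB
          intro k hk
          rw [fw g hk.le]
          have h2 := hy (t + J - k)
          rw [fixed_iter hps] at h2
          rw [fixed_iter hp]
          linarith
        have h1' := (abs_le.mp h1).1
        rw [bsum_fixed _ _ _ hp] at h1'
        have h2 : birkhoffSum g φ (t + J) (g.symm^[t + J] (θ y)) =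
            birkhoffSum g φ N (g.symm^[t + J] (θ y)) +
            (birkhoffSum g φ n (g^[N] (g.symm^[t + J] (θ y))) +
              birkhoffSum g φ (T + J) (g^[n] (g^[N] (g.symm^[t + J] (θ y))))) := by
          rw [← birkhoffSum_add, ← birkhoffSum_add]
          congr 1
          omega
        have h3 := (abs_le.mp (bsum_bound g hφ N (g.symm^[t + J] (θ y)))).1
        have h4 := (abs_le.mp (bsum_bound g hφ (T + J) (g^[n] (g^[N] (g.symm^[t + J] (θ y)))))).1
        have h5 : |birkhoffSum g φ n (g^[N] (g.symm^[t + J] (θ y))) -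
            birkhoffSum g φ n (g.symm^[n] b)| ≤ V := by
          apply hB
          intro k hk
          have h6 := o1 _ ⟨_, ⟨y, hy, rfl⟩, rfl⟩ (k + N) (by omega)
          rw [Function.iterate_add_apply g k N, Function.iterate_add_apply g k N] at h6
          have h7 := hz2 k
          have := dist_triangle_right (g^[k] (g^[N] (g.symm^[t + J] (θ y))))
            (g^[k] (g.symm^[n] b)) (g^[k] (g^[N] z))
          linarith
        have h5' := (abs_le.mp h5).1
        have h8 := bsum_back g hφ n b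
        rw [h2]
        push_cast at h1' h4 ⊢
        linarith)
    have hfin : ∀ x, ∀ S, S ⊆ Wu g r x → ν x S ≠ ⊤ := fun x S hS =>
      ((measure_mono hS).trans_lt (lt_top_iff_ne_top.mpr (hT.fin x))).ne
    have hDfin : ν q D ≠ ⊤ := hfin q D (by
      rintro _ ⟨_, ⟨y, hy, rfl⟩, rfl⟩
      exact (o4 y hy).mono (by linarith))
    have h9 := ENNReal.toReal_mono (ENNReal.mul_ne_top ENNReal.ofReal_ne_top hDfin) key
    rw [ENNReal.toReal_mul, ENNReal.toReal_ofReal (by positivity)] at h9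
    unfold XX
    set μ := (ν p (g.symm^[t + J] '' Wu g u p)).toReal with hμ
    have e1 : C * Real.exp ((t + J : ℕ) * φ p + 2 * V + (N + T + J + 2) * B -
        birkhoffSum g.symm φ n b + V) = (C * Real.exp (3 * V + (N + T + J + 2) * B)) *
        Real.exp ((t + J : ℕ) * φ p - birkhoffSum g.symm φ n b) := by
      rw [mul_assoc, ← Real.exp_add]
      congr 2
      ring
    rw [e1] at h9
    have e2 : Real.exp (-((t + J : ℕ) * φ p)) * μ * Real.exp (birkhoffSum g.symm φ n b) =
        μ * Real.exp (-((t + J : ℕ) * φ p - birkhoffSum g.symm φ n b)) := by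
      rw [show -((t + J : ℕ) * φ p - birkhoffSum g.symm φ n b) =
        -((t + J : ℕ) * φ p) + birkhoffSum g.symm φ n b by ring, Real.exp_add]
      ring
    rw [e2]
    calc μ * Real.exp (-((t + J : ℕ) * φ p - birkhoffSum g.symm φ n b))
        ≤ ((C * Real.exp (3 * V + (N + T + J + 2) * B)) *
          Real.exp ((t + J : ℕ) * φ p - birkhoffSum g.symm φ n b) * (ν q D).toReal) *
          Real.exp (-((t + J : ℕ) * φ p - birkhoffSum g.symm φ n b)) :=
          mul_le_mul_of_nonneg_right h9 (Real.exp_pos _).le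
      _ = C * Real.exp (3 * V + (N + T + J + 2) * B) * (ν q D).toReal *
          (Real.exp ((t + J : ℕ) * φ p - birkhoffSum g.symm φ n b) *
            Real.exp (-((t + J : ℕ) * φ p - birkhoffSum g.symm φ n b))) := by ring
      _ = _ := by rw [← Real.exp_add, add_neg_cancel, Real.exp_zero, mul_one]
  · intro k hk
    have h1 := hz2 (n - k)
    rw [fw g (by omega), ← Function.iterate_add_apply] at h1
    have e1 : n - (n - k) = k := by omega
    rw [e1] at h1
    rwa [Nat.add_comm N (n - k)]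

end Pool.Agent.N520.T
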