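import Pool.Agent.N520.T.Grow

set_option autoImplicit false
set_option linter.unusedSectionVars false

open Filter Topology Set Metric MeasureTheory TopologicalSpace

namespace Pool.Agent.N520.T

open Pool.Agent.H789R2.AN Pool.Agent.Y330.G

variable {X : Type*} [MetricSpace X]

/-- Measures from asymptotically additive set functions. -/
theorem exists_meas [CompactSpace X] [MeasurableSpace X] [BorelSpace X] (Λ : ℕ → Set X → ℝ)
    (M : ℝ) (h0 : ∀ n L, 0 ≤ Λ n L) (hM : ∀ n L, Λ n L ≤ M)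
    (hmono : ∀ n L L', L ⊆ L' → Λ n L ≤ Λ n L')
    (hsub : ∀ n L L', Λ n (L ∪ L') ≤ Λ n L + Λ n L')
    (hadd : ∀ K K', IsCompact K → IsCompact K' → Disjoint K K' →
      ∀ᶠ n in atTop, Λ n K + Λ n K' ≤ Λ n (K ∪ K')) (u : Ultrafilter ℕ) (hu : (u : Filter ℕ) ≤ atTop) :
    ∃ (l : Set X → ℝ) (μ : Measure X), (∀ L, Tendsto (fun n => Λ n L) u (𝓝 (l L))) ∧
      (∀ K, IsCompact K → ENNReal.ofReal (l K) ≤ μ K) ∧
      ∀ U K, IsOpen U → IsCompact K → U ⊆ K → μ U ≤ ENNReal.ofReal (l K) := by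
  have hl : ∀ L, ∃ l, Tendsto (fun n => Λ n L) u (𝓝 l) := by
    intro L
    obtain ⟨l, -, hl⟩ := (isCompact_Icc (a := (0 : ℝ)) (b := M)).ultrafilter_le_nhds
      (u.map fun n => Λ n L) (le_principal_iff.mpr
        (show (fun n => Λ n L) ⁻¹' Icc 0 M ∈ (u : Filter ℕ) from
          Filter.univ_mem' fun n => ⟨h0 n L, hM n L⟩))
    exact ⟨l, hl⟩
  choose l hl using hl
  have hl0 : ∀ L, 0 ≤ l L := fun L => ge_of_tendsto' (hl L) fun n => h0 n L
  let κ : Content X :=
    { toFun := fun K => ⟨l K, hl0 K⟩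
      mono' := fun K₁ K₂ h => by
        rw [← NNReal.coe_le_coe]
        exact le_of_tendsto_of_tendsto' (hl _) (hl _) fun n => hmono n _ _ h
      sup_disjoint' := fun K₁ K₂ h _ _ => by
        apply le_antisymm
        · rw [← NNReal.coe_le_coe]
          exact le_of_tendsto_of_tendsto' (hl _) ((hl _).add (hl _)) fun n => hsub n _ _
        · rw [← NNReal.coe_le_coe]
          exact le_of_tendsto_of_tendsto ((hl _).add (hl _)) (hl _)
            (hu (hadd _ _ K₁.isCompact K₂.isCompact h))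
      sup_le' := fun K₁ K₂ => by
        rw [← NNReal.coe_le_coe]
        exact le_of_tendsto_of_tendsto' (hl _) ((hl _).add (hl _)) fun n => hsub n _ _ }
  have hκ : ∀ K : Compacts X, κ K = ENNReal.ofReal (l K) := by
    intro K
    have e1 : κ K = ((κ.toFun K : NNReal) : ENNReal) := rfl
    have e2 : κ.toFun K = (l K).toNNReal := by
      ext
      exact (Real.coe_toNNReal _ (hl0 K)).symm
    rw [e1, e2]
    rfl
  refine ⟨l, κ.measure, hl, fun K hK => ?_, fun U K hU hK hUK => ?_⟩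
  · rw [κ.measure_apply hK.measurableSet]
    have := κ.le_outerMeasure_compacts ⟨K, hK⟩
    rwa [hκ] at this
  · rw [κ.measure_apply hU.measurableSet]
    have := κ.outerMeasure_le ⟨U, hU⟩ ⟨K, hK⟩ hUK
    rwa [hκ] at this

theorem continuous_bsum {g : X ≃ₜ X} {φ : X → ℝ} (hφ : Continuous φ) (n : ℕ) :
    Continuous (birkhoffSum g φ n) := by
  unfold birkhoffSum
  exact continuous_finsetSum _ fun i _ => hφ.comp (g.continuous.iterate i)

/-- Comparison of partition sums near a compact set and near its image under a holonomy. -/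
theorem hol_step [CompactSpace X] {g : X ≃ₜ X} {c : ℝ} (h : LP g c) {φ : X → ℝ}
    (hφc : Continuous φ) {B e V : ℝ} (hφ : ∀ x, |φ x| ≤ B) (he : 0 < e) (hB : Bow g φ e V)
    {s : ℝ} (hs : 0 < s) (hse : s ≤ e) (hsc : 16 * s ≤ c) {r' : ℝ} (hr'0 : 0 < r')
    (hr'c : 16 * r' ≤ c) : ∃ K₁ > 0, ∀ (x x' : X) (K : Set X) (θ : X → X) (t : ℝ), IsCompact K →
      K ⊆ Wu g (r' / 2) x → θ '' K ⊆ Wu g (r' / 2) x' → ContinuousOn θ K → InjOn θ K →
      (∀ ε > 0, ∀ᶠ n in atTop, ∀ y ∈ K, dist (g^[n] y) (g^[n] (θ y)) ≤ ε) →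
      (∀ᶠ n in atTop, ∀ y ∈ K, birkhoffSum g φ n y - birkhoffSum g φ n (θ y) ≤ t) →
      ∀ η' > 0, ∃ η > 0, ∀ᶠ n in atTop, Lam g φ s n (cthickening η K ∩ Wu g r' x) ≤
        K₁ * Real.exp t * Lam g φ s n (cthickening η' (θ '' K) ∩ Wu g r' x') := by
  have hc := h.c_pos
  obtain ⟨K₁, hK₁, htr⟩ := transport h hφ hB hs hse (s' := s / 2) (by linarith)
    (by linarith : 2 * s ≤ c) 0
  refine ⟨K₁ * Real.exp (2 + V), by positivity,
    fun x x' K θ t hK hKs hθs hθc hθi hasym hsum η' hη' => ?_⟩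
  -- small constants
  obtain ⟨τ, hτ0, hτs, hτe, hτr, hτc⟩ : ∃ τ > 0, 8 * τ ≤ s ∧ τ ≤ e ∧ 8 * τ ≤ r' ∧ 16 * τ ≤ c := by
    refine ⟨min (min s e) r' / 16, by positivity, ?_, ?_, ?_, ?_⟩
    · have := (min_le_left (min s e) r').trans (min_le_left _ _)
      linarith
    · have := (min_le_left (min s e) r').trans (min_le_right _ _)
      linarith
    · have := min_le_right (min s e) r'
      linarith
    · have := min_le_right (min s e) r'
      linarith
  obtain ⟨δh, hδh, hhol⟩ := hol h hτ0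
  obtain ⟨m₁, hm₁⟩ := eventually_atTop.mp (hasym (min (δh / 3) τ) (lt_min (by linarith) hτ0))
  obtain ⟨m₂, hm₂⟩ := eventually_atTop.mp hsum
  obtain ⟨m, hmm₁, hmm₂⟩ : ∃ m : ℕ, m₁ ≤ m ∧ m₂ ≤ m :=
    ⟨max m₁ m₂, le_max_left _ _, le_max_right _ _⟩
  have hθSR : ∀ y ∈ K, SR g τ (g^[m] y) (g^[m] (θ y)) := by
    intro y hy k
    rw [← Function.iterate_add_apply, ← Function.iterate_add_apply]
    exact (hm₁ (k + m) (by omega) y hy).trans (min_le_right _ _)
  have hθd : ∀ y ∈ K, dist (g^[m] y) (g^[m] (θ y)) < δh / 2 := by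
    intro y hy
    have := (hm₁ m hmm₁ y hy).trans (min_le_left _ _)
    linarith
  -- separation at the times before `m`
  obtain ⟨η₀, hη₀, hu₀⟩ := uc g g.continuous m hs
  obtain ⟨d₀, hd₀, hd⟩ : ∃ d₀ > 0, ∀ a ∈ K, ∀ b ∈ K, η₀ / 2 ≤ dist a b → d₀ ≤ dist (θ a) (θ b) := by
    set P : Set (X × X) := (K ×ˢ K) ∩ {p | η₀ / 2 ≤ dist p.1 p.2} with hP
    have hPc : IsCompact P := (hK.prod hK).inter_right
      (isClosed_le continuous_const continuous_dist)
    rcases P.eq_empty_or_nonempty with hPe | hPn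
    · refine ⟨1, one_pos, fun a ha b hb hab => ?_⟩
      have : (a, b) ∈ P := ⟨⟨ha, hb⟩, hab⟩
      rw [hPe] at this
      exact absurd this (notMem_empty _)
    · have hcont : ContinuousOn (fun p : X × X => dist (θ p.1) (θ p.2)) P := by
        exact continuous_dist.comp_continuousOn
          ((hθc.comp continuous_fst.continuousOn fun p hp => hp.1.1).prodMk
            (hθc.comp continuous_snd.continuousOn fun p hp => hp.1.2))
      obtain ⟨p, hp, hmin⟩ := hPc.exists_isMinOn hPn hcont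
      refine ⟨dist (θ p.1) (θ p.2), ?_, fun a ha b hb hab => hmin (show (a, b) ∈ P from
        ⟨⟨ha, hb⟩, hab⟩)⟩
      rw [gt_iff_lt, dist_pos]
      intro he
      have h1 := hθi hp.1.1 hp.1.2 he
      have h2 : η₀ / 2 ≤ dist p.1 p.2 := hp.2
      rw [h1, dist_self] at h2
      linarith
  -- continuity of the sums
  have huS : UniformContinuous (birkhoffSum g φ m) :=
    CompactSpace.uniformContinuous_of_continuous (continuous_bsum hφc m)
  obtain ⟨σ₃, hσ₃, hS⟩ := Metric.uniformContinuous_iff.mp huS 1 one_pos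
  -- closeness of the images
  obtain ⟨κ, hκ0, hκη, hκd, hκσ⟩ : ∃ κ > 0, κ ≤ η' ∧ 4 * κ ≤ d₀ ∧ κ < σ₃ := by
    refine ⟨min (min η' d₀) σ₃ / 4, by positivity, ?_, ?_, ?_⟩
    · have := (min_le_left (min η' d₀) σ₃).trans (min_le_left _ _)
      linarith
    · have := (min_le_left (min η' d₀) σ₃).trans (min_le_right _ _)
      linarith
    · have := min_le_right (min η' d₀) σ₃
      linarith
  obtain ⟨τ₂, hτ₂, huκ⟩ := uc g.symm g.symm.continuous m hκ0
  obtain ⟨σ₂, hσ₂, hclose⟩ := hol_close h hτ0 (by linarith : 3 * τ ≤ c) (half_pos hτ₂)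
  obtain ⟨r₂, hr₂, hsmall⟩ := small h hτ0
  obtain ⟨σ₁, hσ₁, hu₁⟩ := uc g g.continuous m
    (show 0 < min (min τ (δh / 2)) σ₂ from lt_min (lt_min hτ0 (by linarith)) hσ₂)
  obtain ⟨η, hη0, hη1, hη2, hη3, hη4⟩ : ∃ η > 0, η < σ₁ ∧ η < r₂ ∧ η < σ₃ ∧ 4 * η ≤ η₀ := by
    refine ⟨min (min σ₁ r₂) (min σ₃ η₀) / 4, by positivity, ?_, ?_, ?_, ?_⟩
    · have := (min_le_left (min σ₁ r₂) (min σ₃ η₀)).trans (min_le_left _ _)
      linarith
    · have := (min_le_left (min σ₁ r₂) (min σ₃ η₀)).trans (min_le_right _ _)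
      linarith
    · have := (min_le_right (min σ₁ r₂) (min σ₃ η₀)).trans (min_le_left _ _)
      linarith
    · have := (min_le_right (min σ₁ r₂) (min σ₃ η₀)).trans (min_le_right _ _)
      linarith
  -- the map
  have hmap : ∀ y, ∃ (y₀ w : X), y ∈ cthickening η K ∩ Wu g r' x → y₀ ∈ K ∧ dist y y₀ ≤ η ∧
      SR g τ (g^[m] y) w ∧ SR g.symm (2 * τ) (θ y₀) (g.symm^[m] w) ∧
      dist (θ y₀) (g.symm^[m] w) ≤ κ := by
    intro y
    by_cases hy : y ∈ cthickening η K ∩ Wu g r' x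
    · obtain ⟨hy1, hy2⟩ := id hy
      rw [hK.cthickening_eq_biUnion_closedBall hη0.le] at hy1
      obtain ⟨y₀, hy₀, hd0⟩ := mem_iUnion₂.mp hy1
      rw [mem_closedBall] at hd0
      have hy2' : SR g.symm r' x y := hy2
      have h1 : SR g.symm τ y₀ y := hsmall y₀ y
        ((sr_tr (SR.symm' (hKs hy₀)) hy2').mono (by linarith))
        (by rw [dist_comm]; exact hd0.trans_lt hη2)
      have h2 : ∀ k ≤ m, dist (g^[k] y₀) (g^[k] y) < min (min τ (δh / 2)) σ₂ := fun k hk =>
        hu₁ k hk y₀ y (by rw [dist_comm]; exact hd0.trans_lt hη1)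
      have h3 : SR g.symm τ (g^[m] y₀) (g^[m] y) :=
        sr_of g (fun i hi => ((h2 i hi).trans_le ((min_le_left _ _).trans (min_le_left _ _))).le) h1
      have h4 : dist (g^[m] y₀) (g^[m] (θ y₀)) < δh := by
        have := hθd y₀ hy₀
        linarith
      obtain ⟨w, hw1, hw2⟩ := hhol τ (by linarith) _ _ _ h4 h3
      refine ⟨y₀, w, fun _ => ⟨hy₀, hd0, hw1, ?_, ?_⟩⟩
      · intro k
        have h5 := hw2 (k + m)
        rw [Function.iterate_add_apply, Function.iterate_add_apply, iterL] at h5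
        linarith
      · have h5 : dist (g^[m] (θ y₀)) w ≤ τ₂ / 2 :=
          hclose (g^[m] y₀) (g^[m] (θ y₀)) (g^[m] y) w
            ((h2 m le_rfl).trans_le (min_le_right _ _)) (hθSR y₀ hy₀) hw1
            (hw2.mono (by linarith))
        have h6 := huκ m le_rfl (g^[m] (θ y₀)) w (by linarith)
        rw [iterL] at h6
        exact h6.le
    · exact ⟨y, y, fun h => absurd h hy⟩
  choose y₀ w hw using hmap
  obtain ⟨j, hj⟩ := pw (c := c) (show 0 < d₀ / 4 by linarith)
  refine ⟨η, hη0, ?_⟩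
  filter_upwards [eventually_ge_atTop (m + j)] with n hn
  have e0 : K₁ * Real.exp (2 + V) * Real.exp t = K₁ * Real.exp (t + 2 + V) := by
    rw [mul_assoc, ← Real.exp_add]
    congr 2
    ring
  rw [e0]
  have hin : ∀ y ∈ cthickening η K ∩ Wu g r' x, g.symm^[m] (w y) ∈ Wu g r' x' := by
    intro y hy
    have h1 := hw y hy
    have h2 : SR g.symm (r' / 2) x' (θ (y₀ y)) := hθs ⟨_, h1.1, rfl⟩
    exact (sr_tr h2 h1.2.2.2.1).mono (by linarith)
  refine htr n _ _ (fun y => g.symm^[m] (w y)) _ ?_ ?_ ?_ ?_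
  · intro a ha b hb
    exact (sr_tr (SR.symm' ha.2) hb.2).mono (by linarith)
  · intro y hy
    refine ⟨?_, hin y hy⟩
    have h1 := hw y hy
    apply mem_cthickening_of_dist_le _ (θ (y₀ y)) η' _ (mem_image_of_mem θ h1.1)
    rw [dist_comm]
    exact h1.2.2.2.2.trans hκη
  · rintro y hy y' hy' ⟨k, hk, hks⟩
    have h1 := hw y hy
    have h2 := hw y' hy'
    rcases le_total m k with hmk | hmk
    · refine ⟨k, by omega, ?_⟩
      rw [fw' g hmk, fw' g hmk]
      have h3 := h1.2.2.1 (k - m)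
      have h4 := h2.2.2.1 (k - m)
      have e1 : k - m + m = k := by omega
      rw [← Function.iterate_add_apply, e1] at h3 h4
      have := dist_triangle4_right (g^[k] y) (g^[k] y') (g^[k - m] (w y)) (g^[k - m] (w y'))
      linarith
    · by_contra hcon
      push Not at hcon
      have h3 : η₀ ≤ dist y y' := by
        by_contra h4
        push Not at h4
        have := hu₀ k hmk y y' h4
        linarith
      have h4 : η₀ / 2 ≤ dist (y₀ y) (y₀ y') := by
        have := dist_triangle4_right y y' (y₀ y) (y₀ y')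
        have h5 := h1.2.1
        have h6 := h2.2.1
        linarith
      have h5 := hd _ h1.1 _ h2.1 h4
      have h6 : SR g.symm c (g^[n] (g.symm^[m] (w y))) (g^[n] (g.symm^[m] (w y'))) := by
        refine sr_of g (fun i hi => ?_) ?_
        · exact (hcon i (by omega)).trans (by linarith)
        · exact (sr_tr (SR.symm' (hin y hy)) (hin y' hy')).mono (by linarith)
      have h7 := h.cU _ _ h6 n
      rw [iterL, iterL] at h7
      have h8 := (pw_anti hc (show j ≤ n by omega)).trans hj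
      have h9 := dist_triangle4_right (θ (y₀ y)) (θ (y₀ y')) (g.symm^[m] (w y)) (g.symm^[m] (w y'))
      have h10 := h1.2.2.2.2
      have h11 := h2.2.2.2.2
      linarith
  · intro y hy
    have h1 := hw y hy
    obtain ⟨k, rfl⟩ := Nat.exists_eq_add_of_le (show m ≤ n by omega)
    rw [birkhoffSum_add, birkhoffSum_add, iterR]
    have h2 := (abs_le.mp (hB k (g^[m] y) (w y) fun i _ => (h1.2.2.1 i).trans hτe)).2
    have h3 := hS (h1.2.1.trans_lt hη3)
    have h4 := hS (h1.2.2.2.2.trans_lt hκσ)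
    rw [Real.dist_eq] at h3 h4
    have h5 := (abs_lt.mp h3).2
    have h6 := (abs_lt.mp h4).2
    have h7 := hm₂ m hmm₂ _ h1.1
    linarith

end Pool.Agent.N520.T
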