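import Pool.Agent.N520.T.Exist

set_option autoImplicit false
set_option linter.unusedSectionVars false

open Filter Topology Set Metric MeasureTheory TopologicalSpace

namespace Pool.Agent.N520.T

open Pool.Agent.H789R2.AN Pool.Agent.Y330.G

variable {X : Type*} [MetricSpace X]

theorem pos_dist {K K' : Set X} (hK : IsCompact K) (hK' : IsCompact K') (h : Disjoint K K') :
    ∃ d > 0, ∀ a ∈ K, ∀ b ∈ K', d < dist a b := by
  obtain ⟨ρ, hρ, h1⟩ := exists_pos_forall_lt_edist hK hK'.isClosed h
  refine ⟨ρ, hρ, fun a ha r hr => ?_⟩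
  have h2 := h1 a ha r hr
  rw [edist_dist, ← ENNReal.ofReal_coe_nnreal] at h2
  exact (ENNReal.ofReal_lt_ofReal_iff_of_nonneg ρ.coe_nonneg).mp h2

/-- Without proper repellers there are quasi-invariant transverse measures for every potential. -/
theorem exists_TM [CompactSpace X] [Nonempty X] [MeasurableSpace X] [BorelSpace X] {g : X ≃ₜ X}
    {c : ℝ} (h : LP g c) (hmin : ∀ S, IsAtt g.symm S → S = univ) {φ : X → ℝ}
    (hφc : Continuous φ) {B e V : ℝ} (hφ : ∀ x, |φ x| ≤ B) (he : 0 < e) (hB : Bow g φ e V) :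
    ∃ (ν : X → Measure X) (r C : ℝ), 0 < r ∧ 0 < C ∧ TM g φ r C ν := by
  classical
  have hc := h.c_pos
  obtain ⟨s, hs, hse, hsc⟩ : ∃ s > 0, s ≤ e ∧ 16 * s ≤ c :=
    ⟨min e (c / 16), lt_min he (by linarith), min_le_left _ _, by
      have := min_le_right e (c / 16)
      linarith⟩
  set r' := c / 16 with hr'
  have hr'0 : 0 < r' := by positivity
  have hr'c : 16 * r' ≤ c := by rw [hr']; linarith
  let x₀ : X := Classical.arbitrary X
  have hself : ∀ ρ > 0, ∀ x : X, x ∈ Wu g ρ x := fun ρ hρ x => sr_refl _ hρ.le x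
  set Z : ℕ → ℝ := fun n => Lam g φ s n (Wu g r' x₀) with hZ
  have hZ0 : ∀ n, 0 < Z n := fun n => lam_pos hφ hs (hself r' hr'0 x₀)
  obtain ⟨C₁, hC₁, hgr⟩ := growth h hmin hφ he hB hs hse (by linarith) (r' := r') (by linarith)
    hr'0
  obtain ⟨K₁, hK₁, hstep⟩ := hol_step h hφc hφ he hB hs hse hsc hr'0 hr'c
  set Λ : X → ℕ → Set X → ℝ := fun x n L => Lam g φ s n (L ∩ Wu g r' x) / Z n with hΛ
  have hex : ∀ x, ∃ (l : Set X → ℝ) (μ : Measure X),
      (∀ L, Tendsto (fun n => Λ x n L) (Filter.hyperfilter ℕ : Filter ℕ) (𝓝 (l L))) ∧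
      (∀ K, IsCompact K → ENNReal.ofReal (l K) ≤ μ K) ∧
      ∀ U K, IsOpen U → IsCompact K → U ⊆ K → μ U ≤ ENNReal.ofReal (l K) := by
    intro x
    refine exists_meas (Λ x) C₁ ?_ ?_ ?_ ?_ ?_ (Filter.hyperfilter ℕ) Nat.hyperfilter_le_atTop
    · intro n L
      exact div_nonneg (lam_nonneg hφ hs _ _) (hZ0 n).le
    · intro n L
      rw [hΛ]
      simp only
      rw [div_le_iff₀ (hZ0 n)]
      exact (lam_mono hφ hs inter_subset_right).trans (hgr n x x₀)
    · intro n L L' hLL
      exact div_le_div_of_nonneg_right (lam_mono hφ hs (inter_subset_inter_left _ hLL)) (hZ0 n).le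
    · intro n L L'
      rw [hΛ]
      simp only
      rw [← add_div, union_inter_distrib_right]
      exact div_le_div_of_nonneg_right (lam_union_le hφ hs _ _ _) (hZ0 n).le
    · intro K K' hK hK' hdisj
      obtain ⟨d, hd, hdist⟩ := pos_dist hK hK' hdisj
      obtain ⟨j, hj⟩ := pw (c := c) hd
      filter_upwards [eventually_ge_atTop j] with n hn
      rw [hΛ]
      simp only
      rw [← add_div, union_inter_distrib_right]
      refine div_le_div_of_nonneg_right (lam_union_ge hφ hs fun y hy y' hy' => ?_) (hZ0 n).le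
      by_contra hcon
      push Not at hcon
      have h1 : SR g.symm c (g^[n] y) (g^[n] y') :=
        sr_of g (fun i hi => (hcon i hi).trans (by linarith))
          ((sr_tr (SR.symm' hy.2) hy'.2).mono (by linarith))
      have h2 := h.cU _ _ h1 n
      rw [iterL, iterL] at h2
      have h3 := (pw_anti hc hn).trans hj
      have h4 := hdist y hy.1 y' hy'.1
      linarith
  choose l ν hl h1 h2 using hex
  have hfin : ∀ x, IsFiniteMeasure (ν x) := fun x =>
    ⟨(h2 x univ univ isOpen_univ isCompact_univ (subset_refl _)).trans_lt ENNReal.ofReal_lt_top⟩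
  refine ⟨ν, r' / 2, K₁, by positivity, hK₁, ?_, ?_, ?_⟩
  · intro x
    have := hfin x
    exact measure_ne_top _ _
  · intro x ρ hρ h0
    obtain ⟨C₂, hC₂, hgr₂⟩ := growth h hmin hφ he hB hs hse (by linarith) (r' := r') (by linarith)
      (ρ := min ρ r') (lt_min hρ hr'0)
    have h3 : 1 / C₂ ≤ l x (Wu g ρ x) := by
      refine ge_of_tendsto' (hl x (Wu g ρ x)) fun n => ?_
      rw [hΛ]
      simp only
      rw [div_le_div_iff₀ hC₂ (hZ0 n), one_mul, mul_comm]
      refine (hgr₂ n x₀ x).trans (mul_le_mul_of_nonneg_left (lam_mono hφ hs ?_) hC₂.le)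
      intro y hy
      exact ⟨SR.mono hy (min_le_left _ _), SR.mono hy (min_le_right _ _)⟩
    have h4 := h1 x (Wu g ρ x) (isCompact_wu g ρ x)
    rw [h0] at h4
    have h5 : l x (Wu g ρ x) ≤ 0 := by
      rw [← ENNReal.ofReal_eq_zero]
      exact le_antisymm h4 zero_le
    have : 0 < 1 / C₂ := by positivity
    linarith
  · intro x x' K θ t hK hKs hθs hθc hθi hasym hsum
    have := hfin x'
    have hθK : IsCompact (θ '' K) := hK.image_of_continuousOn hθc
    have key : ∀ η' > 0, ν x K ≤ ENNReal.ofReal (K₁ * Real.exp t) *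
        ν x' (cthickening η' (θ '' K)) := by
      intro η' hη'
      obtain ⟨η, hη, hev⟩ := hstep x x' K θ t hK hKs hθs hθc hθi hasym hsum η' hη'
      have h3 : l x (cthickening η K) ≤ K₁ * Real.exp t * l x' (cthickening η' (θ '' K)) := by
        refine le_of_tendsto_of_tendsto (hl x (cthickening η K))
          ((hl x' (cthickening η' (θ '' K))).const_mul (K₁ * Real.exp t)) ?_
        filter_upwards [Nat.hyperfilter_le_atTop hev] with n hn
        rw [hΛ]
        simp only
        rw [← mul_div_assoc]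
        exact div_le_div_of_nonneg_right hn (hZ0 n).le
      calc ν x K ≤ ν x (thickening η K) := measure_mono (self_subset_thickening hη K)
        _ ≤ ENNReal.ofReal (l x (cthickening η K)) :=
          h2 x _ _ isOpen_thickening (isClosed_cthickening.isCompact)
            (thickening_subset_cthickening η K)
        _ ≤ ENNReal.ofReal (K₁ * Real.exp t * l x' (cthickening η' (θ '' K))) :=
          ENNReal.ofReal_le_ofReal h3
        _ = ENNReal.ofReal (K₁ * Real.exp t) * ENNReal.ofReal (l x' (cthickening η' (θ '' K))) :=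
          ENNReal.ofReal_mul (by positivity)
        _ ≤ _ := mul_le_mul_right (h1 x' _ isClosed_cthickening.isCompact) _
    have hlim : Tendsto (fun η' => ENNReal.ofReal (K₁ * Real.exp t) *
        ν x' (cthickening η' (θ '' K))) (𝓝[>] 0) (𝓝 (ENNReal.ofReal (K₁ * Real.exp t) *
          ν x' (θ '' K))) :=
      ENNReal.Tendsto.const_mul
        ((tendsto_measure_cthickening_of_isCompact hθK).mono_left nhdsWithin_le_nhds)
        (Or.inr ENNReal.ofReal_ne_top)
    refine ge_of_tendsto hlim ?_
    filter_upwards [self_mem_nhdsWithin] with η' hη'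
    exact key η' hη'

end Pool.Agent.N520.T
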