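import Pool.Agent.N520.T.One

set_option autoImplicit false
set_option linter.unusedSectionVars false

open Filter Topology Set Metric MeasureTheory
open scoped Manifold ContDiff

namespace Pool.Agent.N520.T

open Pool.Agent.H789R2.AN Pool.Agent.Y330.G Pool.Agent.H721R2 Pool.Agent.Y321.PJ

section two

variable {X : Type*} [MetricSpace X]

/-- Continuous potentials with the Bowen property. -/
def Pot (f : X ≃ₜ X) (φ : X → ℝ) : Prop := Continuous φ ∧ ∃ e > 0, ∃ V, Bow f φ e V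

/-- Existence of quasi-invariant transverse measures of full support of the stable foliation. -/
def Has [MeasurableSpace X] (f : X ≃ₜ X) (φ : X → ℝ) : Prop :=
  ∃ (ε C : ℝ) (ν : X → Measure X), 0 < ε ∧ 0 < C ∧ TM f φ ε C ν

theorem Pot.symm {f : X ≃ₜ X} {φ : X → ℝ} (h : Pot f φ) : Pot f.symm φ := by
  obtain ⟨h1, e, he, V, hB⟩ := h
  exact ⟨h1, e, he, V, hB.symm⟩

theorem pot_zero (f : X ≃ₜ X) : Pot f (fun _ => 0) := by
  refine ⟨continuous_const, 1, one_pos, 0, fun n x y _ => ?_⟩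
  simp [birkhoffSum]

variable {Y : Type*} [MetricSpace Y] [CompactSpace X] [CompactSpace Y]

theorem bsum_conj {h : X ≃ₜ Y} {f : X ≃ₜ X} {f' : Y ≃ₜ Y} (hf : ∀ x, h (f x) = f' (h x))
    (φ : Y → ℝ) (n : ℕ) (x : X) :
    birkhoffSum f (fun x => φ (h x)) n x = birkhoffSum f' φ n (h x) := by
  unfold birkhoffSum
  refine Finset.sum_congr rfl fun i _ => ?_
  show φ (h (f^[i] x)) = _
  rw [conj_iter hf]

theorem pot_conj {h : X ≃ₜ Y} {f : X ≃ₜ X} {f' : Y ≃ₜ Y} (hf : ∀ x, h (f x) = f' (h x))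
    {φ : Y → ℝ} (hφ : Pot f' φ) : Pot f (fun x => φ (h x)) := by
  obtain ⟨h1, e, he, V, hB⟩ := hφ
  obtain ⟨e', he', h2⟩ := one_uc h he
  refine ⟨h1.comp h.continuous, e', he', V, fun n x y hxy => ?_⟩
  rw [bsum_conj hf, bsum_conj hf]
  refine hB n _ _ fun k hk => ?_
  have := h2 _ _ (hxy k hk)
  rwa [conj_iter hf, conj_iter hf] at this

/-- Transverse measures for all potentials exclude proper attractors. -/
theorem top_one [ConnectedSpace Y] [MeasurableSpace X] [BorelSpace X] [MeasurableSpace Y]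
    [BorelSpace Y] {h : X ≃ₜ Y} {f : X ≃ₜ X} {f' : Y ≃ₜ Y} (hf : ∀ x, h (f x) = f' (h x))
    {N : ℕ} (hN : 1 ≤ N) {g : Y ≃ₜ Y} {c : ℝ} (hLP : LP g c) (hg : g = iterHomeo f' N)
    (hfixA : ∀ A, MinAtt g A → ∃ p ∈ A, g p = p)
    (hfixR : ∀ R, MinAtt g.symm R → ∃ p ∈ R, g.symm p = p)
    (hall : ∀ φ : X → ℝ, Pot f φ → Has f φ) : ∀ S, IsAtt g S → S = univ := by
  by_contra hnt
  obtain ⟨φ, hφc, ⟨e, he, V, hB⟩, hno⟩ := one_sided hLP hN hg hfixA hfixR hnt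
  have hpot : Pot f (fun x => φ (h x)) := pot_conj hf ⟨hφc, e, he, V, hB⟩
  obtain ⟨ε, C, ν, hε, hC, hT⟩ := hall _ hpot
  obtain ⟨r, hr, C', hC', hT'⟩ := transfer hf hN hpot.1 hε hC hT
  have e1 : (fun y => birkhoffSum f (fun x => φ (h x)) N (h.symm y)) = birkhoffSum f' φ N := by
    funext y
    rw [bsum_conj hf, h.apply_symm_apply]
  rw [e1, ← hg] at hT'
  exact hno _ r C' hr hC' hT'

/-- Existence of transverse measures for all potentials without proper attractors. -/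
theorem top_exists [ConnectedSpace Y] [MeasurableSpace X] [BorelSpace X] [MeasurableSpace Y]
    [BorelSpace Y] {h : X ≃ₜ Y} {f : X ≃ₜ X} {f' : Y ≃ₜ Y} (hf : ∀ x, h (f x) = f' (h x))
    {N : ℕ} (hN : 1 ≤ N) {g : Y ≃ₜ Y} {c : ℝ} (hLP : LP g c) (hg : g = iterHomeo f' N)
    (hmin : ∀ S, IsAtt g.symm S → S = univ) {φ : X → ℝ} (hφ : Pot f φ) : Has f φ := by
  obtain ⟨hφc, e, he, V, hB⟩ := hφ
  obtain ⟨B, hBd⟩ : ∃ B, ∀ x, |φ x| ≤ B := by
    obtain ⟨B, hB⟩ := (isCompact_univ (X := X)).exists_bound_of_continuousOn hφc.continuousOn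
    exact ⟨B, fun x => hB x trivial⟩
  obtain ⟨e', he', hB'⟩ := bow_transfer hf hN he hB
  rw [← hg] at hB'
  obtain ⟨ν, r, C, hr, hC, hT⟩ := exists_TM hLP hmin
    (φ := fun y => birkhoffSum f φ N (h.symm y))
    ((continuous_bsum hφc N).comp h.symm.continuous) (B := N * B)
    (fun y => bsum_bound f hBd N _) he' hB'
  rw [hg] at hT
  obtain ⟨ε, hε, hT'⟩ := transfer_back hf hN hr hT
  exact ⟨ε, C, _, hε, hC, hT'⟩

end two

universe u

variable {E : Type*} [NormedAddCommGroup E] [NormedSpace ℝ E] [FiniteDimensional ℝ E]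

/-- **Transitivity and transverse measures.** -/
theorem man_tfae {M : Type u} [MetricSpace M] [CompactSpace M] [ConnectedSpace M]
    [MeasurableSpace M] [BorelSpace M] [ChartedSpace E M] [IsManifold 𝓘(ℝ, E) ∞ M]
    (f : Diffeomorph 𝓘(ℝ, E) 𝓘(ℝ, E) M M 1)
    (Es Eu : ∀ x : M, Submodule ℝ (TangentSpace 𝓘(ℝ, E) x)) (hA : IsAnosov f Es Eu) :
    List.TFAE [TopTransitive f,
      ∀ φ, Pot f.toHomeomorph φ → Has f.toHomeomorph φ ∧ Has f.toHomeomorph.symm φ,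
      ∃ φ ψ, Pot f.toHomeomorph φ ∧ Pot f.toHomeomorph ψ ∧
        (∀ (x : M) (T : ℕ), 1 ≤ T → f^[T] x = x → birkhoffSum f φ T x = birkhoffSum f ψ T x) ∧
        Has f.toHomeomorph φ ∧ Has f.toHomeomorph.symm ψ,
      ∀ φ, Pot f.toHomeomorph φ → Has f.toHomeomorph φ,
      ∀ φ, Pot f.toHomeomorph φ → Has f.toHomeomorph.symm φ] := by
  obtain ⟨Y, iY, cY, m, h, f', hf, hsys⟩ := exists_model2 f Es Eu hA
  have hY : ConnectedSpace Y := h.surjective.connectedSpace h.continuous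
  let _ : MeasurableSpace Y := borel Y
  have _ : BorelSpace Y := ⟨rfl⟩
  set F : M ≃ₜ M := f.toHomeomorph with hF
  have hf' : ∀ x, h (F x) = f' (h x) := hf
  obtain ⟨n₁, S₁, hn₁, hS₁⟩ := hsys 1 le_rfl
  rw [one_mul] at hS₁
  obtain ⟨c₁, hc₁⟩ := exists_LP S₁
  obtain ⟨T, hT1, hTA, hTR⟩ := common S₁ hc₁
  obtain ⟨n₂, S₂, hn₂, hS₂⟩ := hsys (n₁ * T) (Nat.mul_pos hn₁ hT1)
  obtain ⟨c₂, hc₂⟩ := exists_LP S₂
  set N := n₁ * T * n₂ with hN
  have hN1 : 1 ≤ N := Nat.mul_pos (Nat.mul_pos hn₁ hT1) hn₂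
  have hk : 1 ≤ T * n₂ := Nat.mul_pos hT1 hn₂
  have hg : S₂.g = iterHomeo S₁.g (T * n₂) := by
    rw [hS₁, hS₂, iter_iter_homeo, hN, mul_assoc]
  have hperA : ∀ A, MinAtt S₁.g A → ∃ p ∈ A, S₁.g^[T * n₂] p = p := fun A hA => by
    obtain ⟨p, hp, hpT⟩ := hTA A hA
    exact ⟨p, hp, fixed_of_dvd hpT (Dvd.intro _ rfl)⟩
  have hperR : ∀ R, MinAtt S₁.g.symm R → ∃ p ∈ R, S₁.g.symm^[T * n₂] p = p := fun R hR => by
    obtain ⟨p, hp, hpT⟩ := hTR R hR
    exact ⟨p, hp, fixed_of_dvd hpT (Dvd.intro _ rfl)⟩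
  have hfixA : ∀ A, MinAtt S₂.g A → ∃ p ∈ A, S₂.g p = p := by
    intro A hA
    have := fix_att hk hperA (A := A) (by rw [← hg]; exact hA.1)
    rw [← hg] at this
    exact this
  have hfixR : ∀ R, MinAtt S₂.g.symm R → ∃ p ∈ R, S₂.g.symm p = p := by
    intro R hR
    have := fix_att (g := S₁.g.symm) hk hperR (A := R) (by rw [← ith_symm, ← hg]; exact hR.1)
    rw [← ith_symm, ← hg] at this
    exact this
  have hgs : S₂.g.symm = iterHomeo f'.symm N := by rw [hS₂, ith_symm]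
  have htr : TopTransitive f ↔ ∀ S, IsAtt S₂.g S → S = univ := by
    have h1 : TopTransitive (f' : Y → Y) ↔ ∀ S, IsAtt S₂.g S → S = univ := by
      have h2 := hc₂
      rw [hS₂] at h2
      have h3 := trans_iff hN1 h2
      rwa [← hS₂] at h3
    rw [← h1]
    constructor
    · intro ht U V hU hUn hV hVn
      obtain ⟨n, _, ⟨x, hx, rfl⟩, hy⟩ := ht (h ⁻¹' U) (h ⁻¹' V) (hU.preimage h.continuous)
        (hUn.preimage h.surjective) (hV.preimage h.continuous) (hVn.preimage h.surjective)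
      exact ⟨n, h (f^[n] x), ⟨h x, hx, (conj_iter hf' n x).symm⟩, hy⟩
    · intro ht U V hU hUn hV hVn
      obtain ⟨n, _, ⟨x, hx, rfl⟩, hy⟩ := ht (h.symm ⁻¹' U) (h.symm ⁻¹' V)
        (hU.preimage h.symm.continuous) (hUn.preimage h.symm.surjective)
        (hV.preimage h.symm.continuous) (hVn.preimage h.symm.surjective)
      refine ⟨n, h.symm (f'^[n] x), ⟨h.symm x, hx, ?_⟩, hy⟩
      apply h.injective
      rw [h.apply_symm_apply]
      have := conj_iter hf' n (h.symm x)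
      rw [h.apply_symm_apply] at this
      exact this
  tfae_have 1 → 2 := by
    intro ht φ hφ
    have hatt := htr.mp ht
    have hrep := no_rep hc₂ hatt
    exact ⟨top_exists hf' hN1 hc₂ hS₂ hrep hφ,
      top_exists (f := F.symm) (f' := f'.symm) (conj_symm hf') hN1 hc₂.symm hgs hatt hφ.symm⟩
  tfae_have 2 → 4 := fun h2 φ hφ => (h2 φ hφ).1
  tfae_have 2 → 5 := fun h2 φ hφ => (h2 φ hφ).2
  tfae_have 2 → 3 := by
    intro h2
    have h3 := h2 _ (pot_zero F)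
    exact ⟨_, _, pot_zero F, pot_zero F, fun _ _ _ _ => rfl, h3.1, h3.2⟩
  tfae_have 3 → 1 := by
    rintro ⟨φ, ψ, ⟨hφ, e, he, V, hBφ⟩, ⟨hψ, e', he', V', hBψ⟩, heq,
      ⟨ε, C, ν, hε, hC, hT⟩, ⟨ε', C', ν', hε', hC', hT'⟩⟩
    exact man_trans f Es Eu hA hφ hψ he he' hBφ hBψ heq hε hε' hC hC' hT hT'
  tfae_have 4 → 1 := fun h4 => htr.mpr (top_one hf' hN1 hc₂ hS₂ hfixA hfixR h4)
  tfae_have 5 → 1 := by
    intro h5
    have h6 : ∀ S, IsAtt S₂.g.symm S → S = univ :=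
      top_one (f := F.symm) (f' := f'.symm) (conj_symm hf') hN1 hc₂.symm hgs hfixR hfixA
        fun φ hφ => h5 φ hφ.symm
    exact htr.mpr (no_rep (g := S₂.g.symm) hc₂.symm h6)
  tfae_finish

end Pool.Agent.N520.T
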