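import Pool.Agent.N520.T.Lam

set_option autoImplicit false
set_option linter.unusedSectionVars false

open Filter Topology Set Metric MeasureTheory

namespace Pool.Agent.N520.T

open Pool.Agent.H789R2.AN Pool.Agent.Y330.G

variable {X : Type*} [MetricSpace X]

/-- Without proper repellers the partition sums of all local unstable sets are comparable. -/
theorem growth [CompactSpace X] [Nonempty X] {g : X ≃ₜ X} {c : ℝ} (h : LP g c)
    (hmin : ∀ S, IsAtt g.symm S → S = univ) {φ : X → ℝ} {B e V : ℝ} (hφ : ∀ x, |φ x| ≤ B)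
    (he : 0 < e) (hB : Bow g φ e V) {s : ℝ} (hs : 0 < s) (hse : s ≤ e) (hsc : 2 * s ≤ c) {r' : ℝ}
    (hr'c : r' ≤ c / 2) {ρ : ℝ} (hρ : 0 < ρ) : ∃ C > 0, ∀ (n : ℕ) (x y : X),
      Lam g φ s n (Wu g r' x) ≤ C * Lam g φ s n (Wu g ρ y) := by
  have hc := h.c_pos
  obtain ⟨ρ₁, hρ₁0, hρ₁ρ, hρ₁c⟩ : ∃ ρ₁ > 0, ρ₁ ≤ ρ ∧ 2 * ρ₁ ≤ c :=
    ⟨min ρ (c / 2), lt_min hρ (half_pos hc), min_le_left _ _, by
      have := min_le_right ρ (c / 2)
      linarith⟩
  obtain ⟨τ, hτ0, hτs, hτe, hτc⟩ : ∃ τ > 0, 4 * τ ≤ s ∧ τ ≤ e ∧ 4 * τ ≤ c :=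
    ⟨min (min s c / 4) e, lt_min (by positivity) he, by
      have := min_le_left (min s c / 4) e
      have := min_le_left s c
      linarith, min_le_right _ _, by
      have := min_le_left (min s c / 4) e
      have := min_le_right s c
      linarith⟩
  obtain ⟨δ, hδ, hh⟩ := hol h hτ0
  obtain ⟨N, hN⟩ := conn_all h hmin (ε := c) (η := δ / 2) hc le_rfl (half_pos hδ)
  obtain ⟨J₀, hJ₀⟩ := pw (c := c) (half_pos hρ₁0)
  obtain ⟨K, hK, htr⟩ := transport h hφ hB hs hse (s' := s / 2) (by linarith) hsc (N + J₀)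
  have hV0 : 0 ≤ V := (abs_nonneg _).trans (hB 0 (Classical.arbitrary X) (Classical.arbitrary X)
    (by simp))
  have hB0 : 0 ≤ B := (abs_nonneg _).trans (hφ (Classical.arbitrary X))
  refine ⟨K * Real.exp (V + 2 * (N + J₀) * B), by positivity, fun n x y => ?_⟩
  obtain ⟨J, hJ, z, hz1, hz2⟩ := hN (g^[J₀] y) x
  have hxz : dist x (g^[J] z) < δ := by
    have := hz2 0
    simp only [Function.iterate_zero, id] at this
    linarith
  have hch : ∀ p, ∃ p', SR g.symm r' x p → SR g τ p p' ∧ SR g.symm (r' + τ) (g^[J] z) p' := by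
    intro p
    by_cases hp : SR g.symm r' x p
    · obtain ⟨p', h3⟩ := hh r' (by linarith) x (g^[J] z) p hxz hp
      exact ⟨p', fun _ => h3⟩
    · exact ⟨p, fun h => absurd h hp⟩
  choose π hπ using hch
  refine (htr n (Wu g r' x) (Wu g ρ₁ y) (fun p => g.symm^[J + J₀] (π p)) (V + 2 * (N + J₀) * B)
    ?_ ?_ ?_ ?_).trans ?_
  · intro a ha b hb
    exact (sr_tr (SR.symm' ha) hb).mono (by linarith)
  · intro p hp i
    have h3 := h.cU _ _ hz1 (i + J₀)
    have h4 := h.cU _ _ ((hπ p hp).2.mono (show r' + τ ≤ c by linarith)) (i + (J + J₀))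
    rw [bk' g (show J₀ ≤ i + J₀ by omega), Nat.add_sub_cancel] at h3
    have e1 : i + (J + J₀) - J = i + J₀ := by omega
    rw [bk' g (show J ≤ i + (J + J₀) by omega), e1,
      Function.iterate_add_apply g.symm i (J + J₀) (π p)] at h4
    have h5 := (pw_anti hc (show J₀ ≤ i + J₀ by omega)).trans hJ₀
    have h6 := (pw_anti hc (show J₀ ≤ i + (J + J₀) by omega)).trans hJ₀
    have := dist_triangle (g.symm^[i] y) (g.symm^[i + J₀] z) (g.symm^[i] (g.symm^[J + J₀] (π p)))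
    linarith
  · rintro p hp p' hp' ⟨k, hk, h3⟩
    refine ⟨k + (J + J₀), by omega, ?_⟩
    rw [fw' g (by omega), fw' g (by omega), Nat.add_sub_cancel]
    have h4 := (hπ p hp).1 k
    have h5 := (hπ p' hp').1 k
    have := dist_triangle4_right (g^[k] p) (g^[k] p') (g^[k] (π p)) (g^[k] (π p'))
    linarith
  · intro p hp
    set q := g.symm^[J + J₀] (π p) with hq
    have h3 : birkhoffSum g φ (J + J₀) q + birkhoffSum g φ n (g^[J + J₀] q) =
        birkhoffSum g φ n q + birkhoffSum g φ (J + J₀) (g^[n] q) := by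
      rw [← birkhoffSum_add, ← birkhoffSum_add, Nat.add_comm]
    rw [hq, iterR, ← hq] at h3
    have h4 := (abs_le.mp (hB n p (π p) fun k _ => ((hπ p hp).1 k).trans hτe)).2
    have h5 := (abs_le.mp (bsum_bound g hφ (J + J₀) q)).1
    have h6 := (abs_le.mp (bsum_bound g hφ (J + J₀) (g^[n] q))).2
    have h7 : ((J + J₀ : ℕ) : ℝ) * B ≤ (N + J₀) * B := by
      apply mul_le_mul_of_nonneg_right _ hB0
      exact_mod_cast (by omega : J + J₀ ≤ N + J₀)
    linarith
  · have h8 := lam_mono hφ hs (n := n) (g := g) (L := Wu g ρ₁ y) (L' := Wu g ρ y)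
      (fun a ha => SR.mono ha hρ₁ρ)
    have h9 : 0 ≤ K * Real.exp (V + 2 * (N + J₀) * B) := by positivity
    exact mul_le_mul_of_nonneg_left h8 h9

/-- Points whose images under a holonomy are compared. -/
theorem hol_close [CompactSpace X] {g : X ≃ₜ X} {c : ℝ} (h : LP g c) {ρ : ℝ} (hρ : 0 < ρ)
    (hρc : 3 * ρ ≤ c) {τ : ℝ} (hτ : 0 < τ) : ∃ σ > 0, ∀ a a' b b' : X, dist a b < σ →
      SR g ρ a a' → SR g ρ b b' → SR g.symm c a' b' → dist a' b' ≤ τ := by
  obtain ⟨j, hj⟩ := pw (c := c) hτ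
  obtain ⟨σ, hσ, hu⟩ := uc g g.continuous j hρ
  refine ⟨σ, hσ, fun a a' b b' hab ha hb hab' => ?_⟩
  have h1 : SR g.symm c (g^[j] a') (g^[j] b') := by
    refine sr_of g (fun i hi => ?_) hab'
    have h2 := hu i hi a b hab
    have h3 := ha i
    have h4 := hb i
    have := dist_triangle4_left (g^[i] a) (g^[i] b) (g^[i] a') (g^[i] b')
    linarith
  have h2 := h.cU _ _ h1 j
  rw [iterL, iterL] at h2
  exact h2.trans hj

end Pool.Agent.N520.T
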