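import Pool.Agent.Y330.G.A9

set_option autoImplicit false
set_option linter.unusedSectionVars false

open Filter Topology Set Metric

namespace Pool.Agent.N520.T

open Pool.Agent.H789R2.AN Pool.Agent.Y330.G

variable {X : Type*} [MetricSpace X]

/-- The local unstable set of size `ε`. -/
def Wu (g : X ≃ₜ X) (ε : ℝ) (x : X) : Set X := {y | SR g.symm ε x y}

theorem isClosed_sr (g : X ≃ₜ X) (ε : ℝ) (x : X) : IsClosed {y | SR g ε x y} := by
  have : {y | SR g ε x y} = ⋂ k : ℕ, {y | dist (g^[k] x) (g^[k] y) ≤ ε} := by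
    ext y
    simp [SR]
  rw [this]
  exact isClosed_iInter fun k => isClosed_le (continuous_const.dist (g.continuous.iterate k))
    continuous_const

theorem isCompact_wu [CompactSpace X] (g : X ≃ₜ X) (ε : ℝ) (x : X) : IsCompact (Wu g ε x) :=
  (isClosed_sr g.symm ε x).isCompact

/-- Points of a local unstable set that are close to the base point are in a small one. -/
theorem small [CompactSpace X] {g : X ≃ₜ X} {c : ℝ} (h : LP g c) {δ : ℝ} (hδ : 0 < δ) :
    ∃ r > 0, ∀ x y, SR g.symm c x y → dist x y < r → SR g.symm δ x y := by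
  obtain ⟨j, hj⟩ := pw (c := c) hδ
  obtain ⟨r, hr, h1⟩ := uc g.symm g.symm.continuous j hδ
  refine ⟨r, hr, fun x y hxy hd k => ?_⟩
  rcases le_total k j with hk | hk
  · exact (h1 k hk x y hd).le
  · exact (h.cU x y hxy k).trans ((pw_anti h.c_pos hk).trans hj)

/-- Local holonomies. -/
theorem loc_hol [CompactSpace X] {g : X ≃ₜ X} {c : ℝ} (h : LP g c) {ρ : ℝ} (hρ : 0 < ρ)
    (hρc : 2 * ρ ≤ c) : ∃ δ > 0, ∀ ε, 2 * (ε + ρ) ≤ c → ∀ x x', dist x x' < δ → ∃ θ : X → X,
      (∀ y, SR g.symm ε x y → SR g ρ y (θ y) ∧ SR g.symm (ε + ρ) x' (θ y)) ∧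
      ContinuousOn θ (Wu g ε x) ∧ InjOn θ (Wu g ε x) := by
  obtain ⟨δ, hδ, h1⟩ := hol h hρ
  refine ⟨δ, hδ, fun ε hε x x' hxx => ?_⟩
  have hch : ∀ y, ∃ w, SR g.symm ε x y → SR g ρ y w ∧ SR g.symm (ε + ρ) x' w := by
    intro y
    by_cases hy : SR g.symm ε x y
    · obtain ⟨w, hw⟩ := h1 ε (by linarith) x x' y hxx hy
      exact ⟨w, fun _ => hw⟩
    · exact ⟨y, fun h => absurd h hy⟩
  choose θ hθ using hch
  have huniq : ∀ y z z', SR g ρ y z → SR g.symm (ε + ρ) x' z → SR g ρ y z' →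
      SR g.symm (ε + ρ) x' z' → z = z' := by
    intro y z z' h2 h3 h4 h5
    exact expans h ((sr_tr h2.symm' h4).mono (by linarith)) ((sr_tr h3.symm' h5).mono (by linarith))
  refine ⟨θ, hθ, ?_, ?_⟩
  · intro y hy
    have hy' : SR g.symm ε x y := hy
    refine isCompact_univ.tendsto_nhds_of_unique_mapClusterPt (Eventually.of_forall fun _ => mem_univ _)
      fun z _ hz => ?_
    obtain ⟨U, hU, hUz⟩ := mapClusterPt_iff_ultrafilter.mp hz
    have hUW : ∀ᶠ y' in (U : Filter X), y' ∈ Wu g ε x := hU self_mem_nhdsWithin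
    have hUy : Tendsto id (U : Filter X) (𝓝 y) := hU.trans nhdsWithin_le_nhds
    have e1 : SR g ρ y z := by
      intro k
      have t1 : Tendsto (fun y' => dist (g^[k] y') (g^[k] (θ y'))) (U : Filter X)
          (𝓝 (dist (g^[k] y) (g^[k] z))) :=
        (((g.continuous.iterate k).tendsto y).comp hUy).dist
          (((g.continuous.iterate k).tendsto z).comp hUz)
      exact le_of_tendsto t1 (hUW.mono fun y' hy' => (hθ y' hy').1 k)
    have e2 : SR g.symm (ε + ρ) x' z := by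
      intro k
      have t1 : Tendsto (fun y' => dist (g.symm^[k] x') (g.symm^[k] (θ y'))) (U : Filter X)
          (𝓝 (dist (g.symm^[k] x') (g.symm^[k] z))) :=
        tendsto_const_nhds.dist (((g.symm.continuous.iterate k).tendsto z).comp hUz)
      exact le_of_tendsto t1 (hUW.mono fun y' hy' => (hθ y' hy').2 k)
    exact huniq y z (θ y) e1 e2 (hθ y hy').1 (hθ y hy').2
  · intro y hy y' hy' he
    have a1 := hθ y hy
    have a2 := hθ y' hy'
    rw [← he] at a2
    have hε : 0 ≤ ε := dist_nonneg.trans (hy 0)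
    exact expans h ((sr_tr a1.1 a2.1.symm').mono (by linarith))
      ((sr_tr (SR.symm' hy) hy').mono (by linarith))

/-! ### Birkhoff sums -/

/-- The Bowen property of a potential. -/
def Bow (g : X ≃ₜ X) (φ : X → ℝ) (e V : ℝ) : Prop := ∀ (n : ℕ) (x y : X),
  (∀ k < n, dist (g^[k] x) (g^[k] y) ≤ e) → |birkhoffSum g φ n x - birkhoffSum g φ n y| ≤ V

theorem bsum_symm (g : X ≃ₜ X) (φ : X → ℝ) (n : ℕ) (x : X) :
    birkhoffSum g φ n (g.symm^[n] x) = birkhoffSum g.symm φ n (g.symm x) := by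
  unfold birkhoffSum
  rw [← Finset.sum_range_reflect]
  refine Finset.sum_congr rfl fun i hi => ?_
  rw [Finset.mem_range] at hi
  rw [fw g (by omega), ← Function.iterate_succ_apply]
  congr 3
  omega

theorem Bow.symm {g : X ≃ₜ X} {φ : X → ℝ} {e V : ℝ} (h : Bow g φ e V) : Bow g.symm φ e V := by
  intro n x y hxy
  have h1 := bsum_symm g φ n (g x)
  have h2 := bsum_symm g φ n (g y)
  rw [g.symm_apply_apply] at h1 h2
  rw [← h1, ← h2]
  apply h
  intro k hk
  rw [fw g hk.le, fw g hk.le]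
  obtain ⟨m, hm⟩ : ∃ m, n - k = m + 1 := ⟨n - k - 1, by omega⟩
  rw [hm, Function.iterate_succ_apply, Function.iterate_succ_apply, g.symm_apply_apply,
    g.symm_apply_apply]
  exact hxy m (by omega)

theorem bsum_bound (g : X → X) {φ : X → ℝ} {B : ℝ} (hB : ∀ x, |φ x| ≤ B) (n : ℕ) (x : X) :
    |birkhoffSum g φ n x| ≤ n * B := by
  unfold birkhoffSum
  refine (Finset.abs_sum_le_sum_abs _ _).trans ?_
  refine (Finset.sum_le_sum fun i _ => hB _).trans ?_
  rw [Finset.sum_const, Finset.card_range, nsmul_eq_mul]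

theorem bsum_fixed (g : X → X) (φ : X → ℝ) (n : ℕ) {p : X} (hp : g p = p) :
    birkhoffSum g φ n p = n * φ p := by
  unfold birkhoffSum
  have : ∀ k, g^[k] p = p := fun k => Function.iterate_fixed hp k
  simp only [this, Finset.sum_const, Finset.card_range, nsmul_eq_mul]

theorem bsum_back (g : X ≃ₜ X) {φ : X → ℝ} {B : ℝ} (hB : ∀ x, |φ x| ≤ B) (n : ℕ) (b : X) :
    birkhoffSum g.symm φ n b - 2 * B ≤ birkhoffSum g φ n (g.symm^[n] b) := by
  rw [bsum_symm]
  have h1 : birkhoffSum g.symm φ (n + 1) b = φ b + birkhoffSum g.symm φ n (g.symm b) := by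
    rw [birkhoffSum_succ']
  have h2 : birkhoffSum g.symm φ (n + 1) b = birkhoffSum g.symm φ n b + φ (g.symm^[n] b) := by
    rw [birkhoffSum_succ]
  have h3 := (abs_le.mp (hB b)).2
  have h4 := (abs_le.mp (hB (g.symm^[n] b))).1
  linarith

end Pool.Agent.N520.T
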