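import Pool.Agent.N520.T.Man

set_option autoImplicit false
set_option linter.unusedSectionVars false

open Filter Topology Set Metric MeasureTheory

namespace Pool.Agent.N520.T

open Pool.Agent.H789R2.AN Pool.Agent.Y330.G

variable {X : Type*} [MetricSpace X]

/-- The partition sum of a finite set. -/
noncomputable def ps (g : X ≃ₜ X) (φ : X → ℝ) (n : ℕ) (F : Finset X) : ℝ :=
  ∑ y ∈ F, Real.exp (birkhoffSum g φ n y)

/-- The supremum of the partition sums over the separated subsets of `L`. -/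
noncomputable def Lam (g : X ≃ₜ X) (φ : X → ℝ) (s : ℝ) (n : ℕ) (L : Set X) : ℝ :=
  sSup {a | ∃ F : Finset X, (F : Set X) ⊆ L ∧ Sep g s n F ∧ ps g φ n F = a}

theorem ps_nonneg (g : X ≃ₜ X) (φ : X → ℝ) (n : ℕ) (F : Finset X) : 0 ≤ ps g φ n F :=
  Finset.sum_nonneg fun _ _ => (Real.exp_pos _).le

theorem lam_bdd [CompactSpace X] {g : X ≃ₜ X} {φ : X → ℝ} {B s : ℝ} (hφ : ∀ x, |φ x| ≤ B)
    (hs : 0 < s) (n : ℕ) (L : Set X) :
    BddAbove {a | ∃ F : Finset X, (F : Set X) ⊆ L ∧ Sep g s n F ∧ ps g φ n F = a} := by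
  obtain ⟨K, hK⟩ := sep_bdd g hs n
  refine ⟨K * Real.exp (n * B), ?_⟩
  rintro _ ⟨F, -, hF, rfl⟩
  calc ps g φ n F ≤ ∑ y ∈ F, Real.exp (n * B) :=
        Finset.sum_le_sum fun y _ => Real.exp_le_exp.mpr
          ((le_abs_self _).trans (bsum_bound g hφ n y))
    _ = F.card * Real.exp (n * B) := by rw [Finset.sum_const, nsmul_eq_mul]
    _ ≤ K * Real.exp (n * B) := by
        have : (F.card : ℝ) ≤ K := by exact_mod_cast hK F hF
        gcongr

theorem le_lam [CompactSpace X] {g : X ≃ₜ X} {φ : X → ℝ} {B s : ℝ} (hφ : ∀ x, |φ x| ≤ B)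
    (hs : 0 < s) {n : ℕ} {L : Set X} {F : Finset X} (hF : (F : Set X) ⊆ L) (hsep : Sep g s n F) :
    ps g φ n F ≤ Lam g φ s n L :=
  le_csSup (lam_bdd hφ hs n L) ⟨F, hF, hsep, rfl⟩

theorem lam_le {g : X ≃ₜ X} {φ : X → ℝ} {s : ℝ} {n : ℕ} {L : Set X} {a : ℝ}
    (h : ∀ F : Finset X, (F : Set X) ⊆ L → Sep g s n F → ps g φ n F ≤ a) :
    Lam g φ s n L ≤ a := by
  refine csSup_le ⟨0, ∅, by simp, fun y hy => by simp at hy, by simp [ps]⟩ ?_
  rintro _ ⟨F, hF, hsep, rfl⟩
  exact h F hF hsep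

theorem lam_nonneg [CompactSpace X] {g : X ≃ₜ X} {φ : X → ℝ} {B s : ℝ} (hφ : ∀ x, |φ x| ≤ B)
    (hs : 0 < s) (n : ℕ) (L : Set X) : 0 ≤ Lam g φ s n L := by
  have := le_lam (g := g) hφ hs (n := n) (L := L) (F := ∅) (by simp) (fun y hy => by simp at hy)
  simpa [ps] using this

theorem lam_mono [CompactSpace X] {g : X ≃ₜ X} {φ : X → ℝ} {B s : ℝ} (hφ : ∀ x, |φ x| ≤ B)
    (hs : 0 < s) {n : ℕ} {L L' : Set X} (h : L ⊆ L') : Lam g φ s n L ≤ Lam g φ s n L' :=
  lam_le fun _ hF hsep => le_lam hφ hs (hF.trans h) hsep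

theorem lam_pos [CompactSpace X] {g : X ≃ₜ X} {φ : X → ℝ} {B s : ℝ} (hφ : ∀ x, |φ x| ≤ B)
    (hs : 0 < s) {n : ℕ} {L : Set X} {x : X} (hx : x ∈ L) : 0 < Lam g φ s n L := by
  have h1 := le_lam (g := g) hφ hs (n := n) (L := L) (F := {x}) (by simpa using hx)
    (fun y hy z hz hne => by
      rw [Finset.mem_singleton] at hy hz
      exact absurd (hy.trans hz.symm) hne)
  refine lt_of_lt_of_le ?_ h1
  simp only [ps, Finset.sum_singleton]
  exact Real.exp_pos _

theorem lam_union_le [CompactSpace X] {g : X ≃ₜ X} {φ : X → ℝ} {B s : ℝ} (hφ : ∀ x, |φ x| ≤ B)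
    (hs : 0 < s) (n : ℕ) (L L' : Set X) :
    Lam g φ s n (L ∪ L') ≤ Lam g φ s n L + Lam g φ s n L' := by
  classical
  refine lam_le fun F hF hsep => ?_
  have h1 := le_lam (g := g) hφ hs (n := n) (L := L) (F := F.filter (· ∈ L))
    (fun y hy => (Finset.mem_filter.mp hy).2) (hsep.subset (Finset.filter_subset _ _))
  have h2 := le_lam (g := g) hφ hs (n := n) (L := L') (F := F.filter (· ∉ L))
    (fun y hy => by
      have := Finset.mem_filter.mp hy
      exact (hF this.1).resolve_left this.2) (hsep.subset (Finset.filter_subset _ _))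
  have h3 : ps g φ n F = ps g φ n (F.filter (· ∈ L)) + ps g φ n (F.filter (· ∉ L)) :=
    (Finset.sum_filter_add_sum_filter_not F _ _).symm
  linarith

theorem lam_union_ge [CompactSpace X] {g : X ≃ₜ X} {φ : X → ℝ} {B s : ℝ} (hφ : ∀ x, |φ x| ≤ B)
    (hs : 0 < s) {n : ℕ} {L L' : Set X}
    (hLL : ∀ y ∈ L, ∀ y' ∈ L', ∃ k ≤ n, s < dist (g^[k] y) (g^[k] y')) :
    Lam g φ s n L + Lam g φ s n L' ≤ Lam g φ s n (L ∪ L') := by
  classical
  have h1 : Lam g φ s n L ≤ Lam g φ s n (L ∪ L') - Lam g φ s n L' := by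
    refine lam_le fun F hF hsep => ?_
    have h2 : Lam g φ s n L' ≤ Lam g φ s n (L ∪ L') - ps g φ n F := by
      refine lam_le fun F' hF' hsep' => ?_
      have hdisj : Disjoint F F' := by
        rw [Finset.disjoint_left]
        intro y hy hy'
        obtain ⟨k, -, hk⟩ := hLL y (hF hy) y (hF' hy')
        rw [dist_self] at hk
        linarith
      have h3 := le_lam (g := g) hφ hs (n := n) (L := L ∪ L') (F := F ∪ F') (by
        rw [Finset.coe_union]
        exact union_subset_union hF hF') (by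
        intro a ha b hb hab
        rcases Finset.mem_union.mp ha with ha | ha <;> rcases Finset.mem_union.mp hb with hb | hb
        · exact hsep a ha b hb hab
        · exact hLL a (hF ha) b (hF' hb)
        · obtain ⟨k, hk, h4⟩ := hLL b (hF hb) a (hF' ha)
          exact ⟨k, hk, by rwa [dist_comm]⟩
        · exact hsep' a ha b hb hab)
      have h4 : ps g φ n (F ∪ F') = ps g φ n F + ps g φ n F' := Finset.sum_union hdisj
      linarith
    linarith
  linarith

/-- The number of separated points in a Bowen ball of an unstable set. -/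
theorem class_bdd [CompactSpace X] {g : X ≃ₜ X} {c : ℝ} (h : LP g c) {s s' : ℝ} (hs' : 0 < s')
    (hsc : 2 * s ≤ c) (N : ℕ) : ∃ K : ℕ, ∀ (n : ℕ) (z : X) (G : Finset X),
      (∀ y ∈ G, ∀ y' ∈ G, SR g.symm c y y') → (∀ y ∈ G, ∀ k ≤ n, dist (g^[k] y) (g^[k] z) ≤ s) →
      Sep g s' (n + N) G → G.card ≤ K := by
  classical
  obtain ⟨m, hm⟩ := pw (c := c) hs'
  obtain ⟨η₁, hη₁, hu1⟩ := uc g g.continuous N hs'
  obtain ⟨η₂, hη₂, hu2⟩ := uc g.symm g.symm.continuous m hs'
  obtain ⟨K, -, hK⟩ := net (X := X) (lt_min hη₁ hη₂)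
  refine ⟨K, fun n z G hG hz hsep => ?_⟩
  rw [← Finset.card_image_of_injective _ (iter_inj g n)]
  apply hK
  intro a ha b hb hab
  obtain ⟨y, hy, rfl⟩ := Finset.mem_image.mp ha
  obtain ⟨y', hy', rfl⟩ := Finset.mem_image.mp hb
  have hne : y ≠ y' := fun e => hab (by rw [e])
  by_contra hcon
  push Not at hcon
  have hc1 := hcon.trans_le (min_le_left _ _)
  have hc2 := hcon.trans_le (min_le_right _ _)
  have hsr : SR g.symm c (g^[n] y) (g^[n] y') := by
    refine sr_of g (fun i hi => ?_) (hG y hy y' hy')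
    have h1 := hz y hy i hi
    have h2 := hz y' hy' i hi
    have := dist_triangle_right (g^[i] y) (g^[i] y') (g^[i] z)
    linarith
  obtain ⟨k, hk, h3⟩ := hsep y hy y' hy' hne
  rcases le_total k n with hkn | hkn
  · have e : n - (n - k) = k := by omega
    rcases le_total (n - k) m with h4 | h4
    · have := hu2 (n - k) h4 _ _ hc2
      rw [bk g (by omega), bk g (by omega), e] at this
      linarith
    · have := h.cU _ _ hsr (n - k)
      rw [bk g (by omega), bk g (by omega), e] at this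
      have := this.trans ((pw_anti h.c_pos h4).trans hm)
      linarith
  · have := hu1 (k - n) (by omega) _ _ hc1
    rw [← Function.iterate_add_apply, ← Function.iterate_add_apply] at this
    have e : k - n + n = k := by omega
    rw [e] at this
    linarith

/-- Transport of partition sums. -/
theorem transport [CompactSpace X] {g : X ≃ₜ X} {c : ℝ} (h : LP g c) {φ : X → ℝ} {B e V : ℝ}
    (hφ : ∀ x, |φ x| ≤ B) (hB : Bow g φ e V) {s s' : ℝ} (hs : 0 < s) (hse : s ≤ e)
    (hs' : 0 < s') (hsc : 2 * s ≤ c) (N : ℕ) : ∃ K > 0, ∀ (n : ℕ) (L L' : Set X) (Ψ : X → X)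
      (D : ℝ), (∀ y ∈ L', ∀ y' ∈ L', SR g.symm c y y') → (∀ y ∈ L, Ψ y ∈ L') →
      (∀ y ∈ L, ∀ y' ∈ L, (∃ k ≤ n, s < dist (g^[k] y) (g^[k] y')) →
        ∃ k ≤ n + N, s' < dist (g^[k] (Ψ y)) (g^[k] (Ψ y'))) →
      (∀ y ∈ L, birkhoffSum g φ n y ≤ birkhoffSum g φ n (Ψ y) + D) →
      Lam g φ s n L ≤ K * Real.exp D * Lam g φ s n L' := by
  classical
  obtain ⟨K, hK⟩ := class_bdd h hs' hsc N
  refine ⟨(K + 1) * Real.exp V, by positivity, fun n L L' Ψ D hL' hΨ hsep hD => ?_⟩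
  refine lam_le fun F hF hFs => ?_
  have hFsep : ∀ y ∈ F, ∀ y' ∈ F, y ≠ y' → ∃ k ≤ n + N, s' < dist (g^[k] (Ψ y)) (g^[k] (Ψ y')) :=
    fun y hy y' hy' hne => hsep y (hF hy) y' (hF hy') (hFs y hy y' hy' hne)
  have hinj : Set.InjOn Ψ F := by
    intro y hy y' hy' he
    by_contra hne
    obtain ⟨k, -, hk⟩ := hFsep y hy y' hy' hne
    rw [he, dist_self] at hk
    linarith
  set F₂ := F.image Ψ with hF₂
  have hF₂L : ∀ z ∈ F₂, z ∈ L' := by
    intro z hz
    obtain ⟨y, hy, rfl⟩ := Finset.mem_image.mp hz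
    exact hΨ y (hF hy)
  have hF₂s : Sep g s' (n + N) F₂ := by
    intro a ha b hb hab
    obtain ⟨y, hy, rfl⟩ := Finset.mem_image.mp ha
    obtain ⟨y', hy', rfl⟩ := Finset.mem_image.mp hb
    exact hFsep y hy y' hy' fun e => hab (by rw [e])
  have h1 : ps g φ n F ≤ Real.exp D * ps g φ n F₂ := by
    unfold ps
    rw [hF₂, Finset.sum_image hinj, Finset.mul_sum]
    refine Finset.sum_le_sum fun y hy => ?_
    rw [← Real.exp_add]
    apply Real.exp_le_exp.mpr
    have := hD y (hF hy)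
    linarith
  obtain ⟨F₁, hF₁, hs₁, hmax⟩ := exists_max_sep (g := g) hs.le n F₂
  have hch : ∀ y, ∃ z, y ∈ F₂ → z ∈ F₁ ∧ ∀ k ≤ n, dist (g^[k] y) (g^[k] z) ≤ s := by
    intro y
    by_cases hy : y ∈ F₂
    · obtain ⟨z, h1, h2⟩ := hmax y hy
      exact ⟨z, fun _ => ⟨h1, h2⟩⟩
    · exact ⟨y, fun h => absurd h hy⟩
  choose π hπ using hch
  have h2 : ps g φ n F₂ ≤ (K + 1) * Real.exp V * ps g φ n F₁ := by
    unfold ps
    rw [← Finset.sum_fiberwise_of_maps_to (g := π) (t := F₁) (fun y hy => (hπ y hy).1),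
      Finset.mul_sum]
    refine Finset.sum_le_sum fun z hz => ?_
    have h3 : ∀ y ∈ F₂.filter (fun y => π y = z), Real.exp (birkhoffSum g φ n y) ≤
        Real.exp V * Real.exp (birkhoffSum g φ n z) := by
      intro y hy
      rw [Finset.mem_filter] at hy
      rw [← Real.exp_add]
      apply Real.exp_le_exp.mpr
      have h4 := (abs_le.mp (hB n y z fun k hk => by
        have := (hπ y hy.1).2 k hk.le
        rw [hy.2] at this
        exact this.trans hse)).2
      linarith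
    have h4 : ((F₂.filter (fun y => π y = z)).card : ℝ) ≤ K + 1 := by
      have h5 : (F₂.filter (fun y => π y = z)).card ≤ K := by
        refine hK n z _ (fun y hy y' hy' => hL' y (hF₂L y (Finset.mem_filter.mp hy).1) y'
          (hF₂L y' (Finset.mem_filter.mp hy').1)) (fun y hy k hk => ?_)
          (hF₂s.subset (Finset.filter_subset _ _))
        rw [Finset.mem_filter] at hy
        have := (hπ y hy.1).2 k hk
        rwa [hy.2] at this
      have : ((F₂.filter (fun y => π y = z)).card : ℝ) ≤ K := by exact_mod_cast h5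
      linarith
    calc ∑ y ∈ F₂.filter (fun y => π y = z), Real.exp (birkhoffSum g φ n y)
        ≤ ∑ y ∈ F₂.filter (fun y => π y = z), Real.exp V * Real.exp (birkhoffSum g φ n z) :=
          Finset.sum_le_sum h3
      _ = (F₂.filter (fun y => π y = z)).card *
          (Real.exp V * Real.exp (birkhoffSum g φ n z)) := by
          rw [Finset.sum_const, nsmul_eq_mul]
      _ ≤ (K + 1) * (Real.exp V * Real.exp (birkhoffSum g φ n z)) := by gcongr
      _ = _ := by ring
  have h3 : ps g φ n F₁ ≤ Lam g φ s n L' := le_lam hφ hs (fun z hz => hF₂L z (hF₁ hz)) hs₁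
  calc ps g φ n F ≤ Real.exp D * ps g φ n F₂ := h1
    _ ≤ Real.exp D * ((K + 1) * Real.exp V * ps g φ n F₁) := by gcongr
    _ ≤ Real.exp D * ((K + 1) * Real.exp V * Lam g φ s n L') := by gcongr
    _ = _ := by ring

end Pool.Agent.N520.T
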