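import Pool.Agent.N520.T.Hol

set_option autoImplicit false
set_option linter.unusedSectionVars false

open Filter Topology Set Metric

namespace Pool.Agent.N520.T

open Pool.Agent.H789R2.AN Pool.Agent.Y330.G

variable {X : Type*} [MetricSpace X]

theorem fixed_symm {g : X ≃ₜ X} {p : X} (hp : g p = p) : g.symm p = p := by
  rw [Homeomorph.symm_apply_eq]
  exact hp.symm

theorem fixed_iter {f : X → X} {p : X} (hp : f p = p) (k : ℕ) : f^[k] p = p :=
  Function.iterate_fixed hp k

/-- The unstable leaf of a fixed point is spread over itself by the local unstable set. -/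
theorem spread [CompactSpace X] {g : X ≃ₜ X} {c : ℝ} (h : LP g c) {p : X} (hp : g p = p)
    {δ η : ℝ} (hδ : 0 < δ) (hη : 0 < η) : ∃ N₀ : ℕ, ∀ N ≥ N₀, ∀ b, WS g.symm p b →
      ∃ z, SR g.symm δ p z ∧ SR g η (g^[N] b) (g^[N] z) := by
  have hps := fixed_symm hp
  obtain ⟨δh, hδh, hlp⟩ := h.lp (min η c) (lt_min hη h.c_pos)
  have htb : TotallyBounded {b | WS g.symm p b} :=
    (isCompact_univ.totallyBounded).subset (subset_univ _)
  obtain ⟨t, ht, htf, hcov⟩ := totallyBounded_iff_subset.mp htb _ (dist_mem_uniformity hδh)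
  have hch : ∀ b, ∃ m : ℕ, b ∈ t → ∀ n ≥ m, dist (g.symm^[n] p) (g.symm^[n] b) < δ / 2 := by
    intro b
    by_cases hb : b ∈ t
    · obtain ⟨m, hm⟩ := WS.eventually_lt (ht hb) (half_pos hδ)
      exact ⟨m, fun _ => hm⟩
    · exact ⟨0, fun h => absurd h hb⟩
  choose m hm using hch
  obtain ⟨M, hM⟩ := (htf.image m).bddAbove
  obtain ⟨j, hj⟩ := pw (c := c) (half_pos hδ)
  refine ⟨max M j, fun N hN b hb => ?_⟩
  have hb' : WS g.symm p (g^[N] b) := by
    rw [← WS.iter N, iterL, fixed_iter hps]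
    exact hb
  obtain ⟨bi, hbi, hd⟩ := mem_iUnion₂.mp (hcov hb')
  obtain ⟨z, hz1, hz2⟩ := hlp (g^[N] b) bi hd
  refine ⟨g.symm^[N] z, fun k => ?_, ?_⟩
  · rw [← Function.iterate_add_apply]
    have h1 := hm bi hbi (k + N) (by
      have := hM ⟨bi, hbi, rfl⟩
      have := le_max_left M j
      omega)
    have h2 := h.cU bi z (hz2.mono (min_le_right _ _)) (k + N)
    have h3 : c * (1 / 2) ^ (k + N) ≤ δ / 2 := (pw_anti h.c_pos (by
      have := le_max_right M j
      omega)).trans hj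
    rw [fixed_iter hps] at h1 ⊢
    have := dist_triangle p (g.symm^[k + N] bi) (g.symm^[k + N] z)
    linarith
  · rw [iterR]
    exact hz1.mono (min_le_left _ _)

/-- The local unstable set of a fixed point of a minimal repeller reaches all points of the
repeller at one time. -/
theorem reach [CompactSpace X] {g : X ≃ₜ X} {c : ℝ} (h : LP g c) {R : Set X}
    (hR : MinAtt g.symm R) {q : X} (hq : g q = q) (hqR : q ∈ R) {ε η : ℝ} (hε : 0 < ε)
    (hη : 0 < η) : ∃ N : ℕ, ∀ v ∈ R, ∃ z, SR g.symm ε q z ∧ SR g η v (g^[N] z) := by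
  obtain ⟨N, hN⟩ := conn_unif h hR hqR hε hη
  refine ⟨N, fun v hv => ?_⟩
  obtain ⟨J, hJ, z, hz1, hz2⟩ := hN v hv
  refine ⟨g.symm^[N - J] z, fun k => ?_, ?_⟩
  · have h1 := hz1 (k + (N - J))
    rw [Function.iterate_add_apply g.symm k (N - J) z] at h1
    rw [fixed_iter (fixed_symm hq)] at h1 ⊢
    exact h1
  · rw [fw' g (by omega)]
    have e : N - (N - J) = J := by omega
    rw [e]
    exact hz2

end Pool.Agent.N520.T
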