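import Pool.Agent.N520.T.TopPart

set_option autoImplicit false
set_option linter.unusedSectionVars false

open Filter Topology Set Metric MeasureTheory
open scoped Manifold ContDiff

namespace Pool.Agent.N520.T

open Pool.Agent.H789R2.AN Pool.Agent.Y330.G Pool.Agent.H721R2 Pool.Agent.Y321.PJ

section two

variable {X Y : Type*} [MetricSpace X] [CompactSpace X] [MetricSpace Y] [CompactSpace Y]

theorem back_iter {h : X ≃ₜ Y} {f : X ≃ₜ X} {f' : Y ≃ₜ Y} (hf : ∀ x, h (f x) = f' (h x)) (N n : ℕ)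
    (y : Y) : h.symm ((iterHomeo f' N)^[n] y) = f^[N * n] (h.symm y) := by
  apply h.injective
  rw [h.apply_symm_apply, conj_iter hf, h.apply_symm_apply, ith_iter]

/-- Closeness at all times from closeness at the multiples of `N`. -/
theorem all_times {h : X ≃ₜ Y} {f : X ≃ₜ X} {f' : Y ≃ₜ Y} (hf : ∀ x, h (f x) = f' (h x)) {N : ℕ}
    (hN : 1 ≤ N) {ε : ℝ} (hε : 0 < ε) : ∃ r > 0, ∀ (a b : Y) (n : ℕ),
      dist ((iterHomeo f' N)^[n / N] a) ((iterHomeo f' N)^[n / N] b) ≤ r →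
      dist (f^[n] (h.symm a)) (f^[n] (h.symm b)) ≤ ε := by
  obtain ⟨r, hr, h1⟩ := two_uc (φ := h) (f := f) N hε
  refine ⟨r, hr, fun a b n hn => ?_⟩
  have h2 := h1 (n % N) (Nat.mod_lt _ (by omega)).le _ _ hn
  rw [back_iter hf, back_iter hf, ← Function.iterate_add_apply, ← Function.iterate_add_apply,
    Nat.mod_add_div] at h2
  exact h2

theorem bsum_pow {h : X ≃ₜ Y} {f : X ≃ₜ X} {f' : Y ≃ₜ Y} (hf : ∀ x, h (f x) = f' (h x)) (N : ℕ)
    (φ : X → ℝ) (n : ℕ) (y : Y) :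
    birkhoffSum (iterHomeo f' N) (fun y => birkhoffSum f φ N (h.symm y)) n y =
      birkhoffSum f φ (N * n) (h.symm y) := by
  induction n with
  | zero => simp
  | succ n ih =>
    rw [birkhoffSum_succ, ih, Nat.mul_succ, birkhoffSum_add, back_iter hf]

/-- Transfer of transverse measures to a power of a conjugate map. -/
theorem transfer [MeasurableSpace X] [BorelSpace X] [MeasurableSpace Y] [BorelSpace Y]
    {h : X ≃ₜ Y} {f : X ≃ₜ X} {f' : Y ≃ₜ Y} (hf : ∀ x, h (f x) = f' (h x)) {N : ℕ}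
    (hN : 1 ≤ N) {φ : X → ℝ} (hφ : Continuous φ) {ε C : ℝ} {ν : X → Measure X} (hε : 0 < ε)
    (hC : 0 < C) (hT : TM f φ ε C ν) : ∃ r > 0, ∃ C' > 0,
      TM (iterHomeo f' N) (fun y => birkhoffSum f φ N (h.symm y)) r C'
        (fun y => (ν (h.symm y)).map h) := by
  obtain ⟨r, hr, h1⟩ := all_times (conj_symm hf) hN hε
  have hmap : ∀ (y : Y) (S : Set Y), (ν (h.symm y)).map h S = ν (h.symm y) (h ⁻¹' S) :=
    fun y S => h.toMeasurableEquiv.map_apply S
  have hsub : ∀ y, h ⁻¹' Wu (iterHomeo f' N) r y ⊆ Wu f ε (h.symm y) := by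
    intro y x hx n
    have h2 := h1 y (h x) n (by
      rw [← ith_symm]
      exact hx (n / N))
    rwa [h.symm_apply_apply] at h2
  have hsup : ∀ y, ∀ ρ > 0, ∃ ρ' > 0, Wu f ρ' (h.symm y) ⊆ h ⁻¹' Wu (iterHomeo f' N) ρ y := by
    intro y ρ hρ
    obtain ⟨ρ', hρ', h2⟩ := one_uc h hρ
    refine ⟨ρ', hρ', fun x hx n => ?_⟩
    have h3 := h2 _ _ (hx (N * n))
    rw [conj_iter (conj_symm hf), conj_iter (conj_symm hf), h.apply_symm_apply] at h3
    rw [ith_symm_iter, ith_symm_iter]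
    exact h3
  refine ⟨r, hr, C * Real.exp 1, by positivity, ?_, ?_, ?_⟩
  · intro y
    rw [hmap]
    exact ((measure_mono (hsub y)).trans_lt (lt_top_iff_ne_top.mpr (hT.fin _))).ne
  · intro y ρ hρ h0
    rw [hmap] at h0
    obtain ⟨ρ', hρ', h2⟩ := hsup y ρ hρ
    exact hT.pos _ ρ' hρ' (measure_mono_null h2 h0)
  · intro y y' K θ t hK hKs hθs hθc hθi hasym hsum
    rw [hmap, hmap]
    set θ' : X → X := fun x => h.symm (θ (h x)) with hθ'
    have himg : h ⁻¹' (θ '' K) = θ' '' (h ⁻¹' K) := by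
      ext x
      constructor
      · rintro ⟨k, hk, hkx⟩
        refine ⟨h.symm k, ?_, ?_⟩
        · rw [mem_preimage, h.apply_symm_apply]
          exact hk
        · simp only [hθ', h.apply_symm_apply, hkx, h.symm_apply_apply]
      · rintro ⟨x', hx', rfl⟩
        exact ⟨h x', hx', by simp only [hθ', h.apply_symm_apply]⟩
    rw [himg]
    have e0 : C * Real.exp 1 * Real.exp t = C * Real.exp (t + 1) := by
      rw [Real.exp_add]
      ring
    rw [e0]
    refine hT.hol _ _ _ θ' (t + 1) ?_ ?_ ?_ ?_ ?_ ?_ ?_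
    · exact (h.isCompact_preimage).mpr hK
    · exact (preimage_mono hKs).trans (hsub y)
    · rw [← himg]
      exact (preimage_mono hθs).trans (hsub y')
    · exact h.symm.continuous.comp_continuousOn
        (hθc.comp h.continuous.continuousOn (mapsTo_preimage _ _))
    · intro a ha b hb hab
      exact h.injective (hθi ha hb (h.symm.injective hab))
    · intro δ hδ
      obtain ⟨r₂, hr₂, h2⟩ := all_times hf hN hδ
      obtain ⟨n₀, hn₀⟩ := eventually_atTop.mp (hasym r₂ hr₂)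
      filter_upwards [eventually_ge_atTop (N * n₀)] with n hn x hx
      have h3 := h2 (h x) (θ (h x)) n (hn₀ (n / N)
        ((Nat.le_div_iff_mul_le (by omega)).mpr (by rw [mul_comm]; exact hn)) (h x) hx)
      rwa [h.symm_apply_apply] at h3
    · have hu : UniformContinuous φ := CompactSpace.uniformContinuous_of_continuous hφ
      have hN0 : (0 : ℝ) < N := by exact_mod_cast hN
      obtain ⟨δ, hδ, h4⟩ := Metric.uniformContinuous_iff.mp hu (1 / N) (by positivity)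
      obtain ⟨r₂, hr₂, h2⟩ := all_times hf hN (half_pos hδ)
      obtain ⟨n₀, hn₀⟩ := eventually_atTop.mp ((hasym r₂ hr₂).and hsum)
      filter_upwards [eventually_ge_atTop (N * n₀)] with n hn x hx
      have hnn : n₀ ≤ n / N := (Nat.le_div_iff_mul_le (by omega)).mpr (by rw [mul_comm]; exact hn)
      have e1 : n = N * (n / N) + n % N := (Nat.div_add_mod n N).symm
      have h5 := (hn₀ (n / N) hnn).2 (h x) hx
      rw [bsum_pow hf, bsum_pow hf, h.symm_apply_apply] at h5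
      have h6 : birkhoffSum f φ (n % N) (f^[N * (n / N)] x) -
          birkhoffSum f φ (n % N) (f^[N * (n / N)] (θ' x)) ≤ 1 := by
        unfold birkhoffSum
        rw [← Finset.sum_sub_distrib]
        calc ∑ i ∈ Finset.range (n % N), (φ (f^[i] (f^[N * (n / N)] x)) -
              φ (f^[i] (f^[N * (n / N)] (θ' x)))) ≤ ∑ i ∈ Finset.range (n % N), 1 / (N : ℝ) := by
              refine Finset.sum_le_sum fun i hi => ?_
              rw [Finset.mem_range] at hi
              have hiN : i < N := hi.trans (Nat.mod_lt _ (by omega))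
              rw [← Function.iterate_add_apply, ← Function.iterate_add_apply]
              have h7 : (i + N * (n / N)) / N = n / N := by
                rw [Nat.add_mul_div_left _ _ (by omega), Nat.div_eq_of_lt hiN, zero_add]
              have h8 := h2 (h x) (θ (h x)) (i + N * (n / N)) (by
                rw [h7]
                exact (hn₀ (n / N) hnn).1 (h x) hx)
              rw [h.symm_apply_apply] at h8
              have h9 := h4 (lt_of_le_of_lt h8 (by linarith : δ / 2 < δ))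
              rw [Real.dist_eq] at h9
              exact (le_abs_self _).trans h9.le
          _ = (n % N : ℕ) * (1 / (N : ℝ)) := by
              rw [Finset.sum_const, Finset.card_range, nsmul_eq_mul]
          _ ≤ N * (1 / (N : ℝ)) := by
              have : ((n % N : ℕ) : ℝ) ≤ N := by exact_mod_cast (Nat.mod_lt _ (by omega)).le
              gcongr
          _ = 1 := by field_simp
      rw [e1, birkhoffSum_add, birkhoffSum_add]
      linarith

theorem bow_transfer {h : X ≃ₜ Y} {f : X ≃ₜ X} {f' : Y ≃ₜ Y} (hf : ∀ x, h (f x) = f' (h x))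
    {N : ℕ} (hN : 1 ≤ N) {φ : X → ℝ} {e V : ℝ} (he : 0 < e) (hB : Bow f φ e V) :
    ∃ e' > 0, Bow (iterHomeo f' N) (fun y => birkhoffSum f φ N (h.symm y)) e' V := by
  obtain ⟨r, hr, h1⟩ := all_times hf hN he
  refine ⟨r, hr, fun n y y' hyy => ?_⟩
  rw [bsum_pow hf, bsum_pow hf]
  refine hB _ _ _ fun k hk => h1 y y' k (hyy _ ?_)
  exact Nat.div_lt_of_lt_mul hk

end two

section sys

variable {E₀ : Type*} [NormedAddCommGroup E₀] [NormedSpace ℝ E₀] [FiniteDimensional ℝ E₀]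
  {M : Type*} [MetricSpace M] [CompactSpace M] [ChartedSpace E₀ M] [IsManifold 𝓘(ℝ, E₀) 1 M]
  {F : Type*} [NormedAddCommGroup F] [NormedSpace ℝ F]

theorem exists_sys_dvd {e : M → F} (hiso : ∀ x y, dist x y = ‖e x - e y‖)
    (he : ContMDiff 𝓘(ℝ, E₀) 𝓘(ℝ, F) 1 e) (hinj : ∀ x, Function.Injective (dm E₀ e x))
    (f : Diffeomorph 𝓘(ℝ, E₀) 𝓘(ℝ, E₀) M M 1)
    (Es Eu : ∀ x : M, Submodule ℝ (TangentSpace 𝓘(ℝ, E₀) x)) (h : IsAnosov f Es Eu) (L : ℕ)
    (hL : 1 ≤ L) : ∃ (n : ℕ) (S : HypSys M F), 1 ≤ n ∧ S.g = iterHomeo f.toHomeomorph (L * n) := by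
  obtain ⟨C, a, b, Ls, Lu, hE⟩ := eanosov_of_isAnosov e he hinj f Es Eu h
  obtain ⟨K, hK, hang⟩ := hE.angle he hinj
  have t1 : Tendsto (fun n : ℕ => K * (C * a ^ n)) atTop (𝓝 0) := by
    have := ((tendsto_pow_atTop_nhds_zero_of_lt_one hE.a_pos.le hE.a_lt).const_mul C).const_mul K
    simpa using this
  have t2 : Tendsto (fun n : ℕ => K * (C * b ^ n)) atTop (𝓝 0) := by
    have := ((tendsto_pow_atTop_nhds_zero_of_lt_one hE.b_pos.le hE.b_lt).const_mul C).const_mul K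
    simpa using this
  obtain ⟨n₀, hn₀⟩ := eventually_atTop.mp (((tendsto_order.mp t1).2 (1 / 16) (by norm_num)).and
    ((tendsto_order.mp t2).2 (1 / 16) (by norm_num)))
  obtain ⟨h1, h2⟩ := hn₀ (L * (n₀ + 1)) (by nlinarith)
  obtain ⟨S, hS, -⟩ := exists_hypSys' hiso he hinj hE K hK hang (L * (n₀ + 1)) h1.le h2.le
  exact ⟨n₀ + 1, S, by omega, hS⟩

end sys

universe u

variable {E : Type*} [NormedAddCommGroup E] [NormedSpace ℝ E] [FiniteDimensional ℝ E]

theorem exists_model2 {M : Type u} [TopologicalSpace M] [T2Space M] [CompactSpace M]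
    [ChartedSpace E M] [IsManifold 𝓘(ℝ, E) ∞ M] (f : Diffeomorph 𝓘(ℝ, E) 𝓘(ℝ, E) M M 1)
    (Es Eu : ∀ x : M, Submodule ℝ (TangentSpace 𝓘(ℝ, E) x)) (hA : IsAnosov f Es Eu) :
    ∃ (Y : Type u) (_ : MetricSpace Y) (_ : CompactSpace Y) (m : ℕ) (h : M ≃ₜ Y) (f' : Y ≃ₜ Y),
      (∀ x, h (f x) = f' (h x)) ∧ ∀ L, 1 ≤ L → ∃ (n : ℕ) (S : HypSys Y (EuclideanSpace ℝ (Fin m))),
        1 ≤ n ∧ S.g = iterHomeo f' (L * n) := by
  obtain ⟨m, e, he, hemb, hinj⟩ := exists_embedding_euclidean_of_compact (I := 𝓘(ℝ, E)) (M := M)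
  let iY : MetricSpace M := hemb.isEmbedding.comapMetricSpace e
  have hiso : ∀ x y : M, dist x y = ‖e x - e y‖ := fun x y => dist_eq_norm (e x) (e y)
  have he1 : ContMDiff 𝓘(ℝ, E) (𝓡 m) 1 e := he.of_le (by simp)
  exact ⟨M, iY, inferInstance, m, Homeomorph.refl M, f.toHomeomorph, fun _ => rfl,
    fun L hL => exists_sys_dvd hiso he1 hinj f Es Eu hA L hL⟩

theorem iter_iter_homeo {Y : Type*} [MetricSpace Y] (f : Y ≃ₜ Y) (a b : ℕ) :
    iterHomeo (iterHomeo f a) b = iterHomeo f (a * b) := by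
  ext y
  show (iterHomeo f a)^[b] y = f^[a * b] y
  exact ith_iter f a b y

/-- One power fixes a point of each minimal attractor and of each minimal repeller. -/
theorem common {Y F : Type*} [MetricSpace Y] [CompactSpace Y] [Nonempty Y] [NormedAddCommGroup F]
    [NormedSpace ℝ F] (S : HypSys Y F) {c : ℝ} (h : LP S.g c) : ∃ T, 1 ≤ T ∧
      (∀ A, MinAtt S.g A → ∃ p ∈ A, S.g^[T] p = p) ∧
      ∀ R, MinAtt S.g.symm R → ∃ p ∈ R, S.g.symm^[T] p = p := by
  have hchA : ∀ A : Set Y, ∃ (p : Y) (n : ℕ), 1 ≤ n ∧ (MinAtt S.g A → p ∈ A ∧ S.g^[n] p = p) := by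
    intro A
    by_cases hA : MinAtt S.g A
    · obtain ⟨K, hK⟩ := closing S h hA
      obtain ⟨a, ha⟩ := hA.1.nonempty
      obtain ⟨m, -, p, hp, hm, hpm, -⟩ := hK a ha 0
      exact ⟨p, 0 + m, hm, fun _ => ⟨hp, hpm⟩⟩
    · exact ⟨Classical.arbitrary Y, 1, le_rfl, fun h => absurd h hA⟩
  have hchR : ∀ R : Set Y, ∃ (p : Y) (n : ℕ), 1 ≤ n ∧ (MinAtt S.g.symm R → p ∈ R ∧
      S.g.symm^[n] p = p) := by
    intro R
    by_cases hR : MinAtt S.g.symm R
    · obtain ⟨K, hK⟩ := closing S.symm (c := c) h.symm (A := R) hR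
      obtain ⟨a, ha⟩ := hR.1.nonempty
      obtain ⟨m, -, p, hp, hm, hpm, -⟩ := hK a ha 0
      exact ⟨p, 0 + m, hm, fun _ => ⟨hp, hpm⟩⟩
    · exact ⟨Classical.arbitrary Y, 1, le_rfl, fun h => absurd h hR⟩
  choose p n hn hp using hchA
  choose q m hm hq using hchR
  have hFA := finite_minAtt h
  have hFR := finite_minAtt h.symm
  refine ⟨(∏ A ∈ hFA.toFinset, n A) * ∏ R ∈ hFR.toFinset, m R,
    Nat.mul_pos (Finset.prod_pos fun A _ => hn A) (Finset.prod_pos fun R _ => hm R),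
    fun A hA => ⟨p A, (hp A hA).1, ?_⟩, fun R hR => ⟨q R, (hq R hR).1, ?_⟩⟩
  · exact fixed_of_dvd (hp A hA).2
      (Dvd.dvd.mul_right (Finset.dvd_prod_of_mem n (hFA.mem_toFinset.mpr hA)) _)
  · exact fixed_of_dvd (hq R hR).2
      (Dvd.dvd.mul_left (Finset.dvd_prod_of_mem m (hFR.mem_toFinset.mpr hR)) _)

/-- The theorem on manifolds. -/
theorem man_trans {M : Type u} [MetricSpace M] [CompactSpace M] [ConnectedSpace M]
    [MeasurableSpace M] [BorelSpace M] [ChartedSpace E M] [IsManifold 𝓘(ℝ, E) ∞ M]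
    (f : Diffeomorph 𝓘(ℝ, E) 𝓘(ℝ, E) M M 1)
    (Es Eu : ∀ x : M, Submodule ℝ (TangentSpace 𝓘(ℝ, E) x)) (hA : IsAnosov f Es Eu)
    {φ ψ : M → ℝ} (hφ : Continuous φ) (hψ : Continuous ψ) {e V e' V' : ℝ} (he : 0 < e)
    (he' : 0 < e') (hBφ : Bow f.toHomeomorph φ e V) (hBψ : Bow f.toHomeomorph ψ e' V')
    (heq : ∀ (x : M) (T : ℕ), 1 ≤ T → f^[T] x = x → birkhoffSum f φ T x = birkhoffSum f ψ T x)
    {ε ε' C C' : ℝ} {ν ν' : M → Measure M} (hε : 0 < ε) (hε' : 0 < ε') (hC : 0 < C) (hC' : 0 < C')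
    (hT : TM f.toHomeomorph φ ε C ν) (hT' : TM f.toHomeomorph.symm ψ ε' C' ν') :
    TopTransitive f := by
  obtain ⟨Y, iY, cY, m, h, f', hf, hsys⟩ := exists_model2 f Es Eu hA
  have hY : ConnectedSpace Y := h.surjective.connectedSpace h.continuous
  let _ : MeasurableSpace Y := borel Y
  have _ : BorelSpace Y := ⟨rfl⟩
  set F : M ≃ₜ M := f.toHomeomorph with hF
  have hf' : ∀ x, h (F x) = f' (h x) := hf
  obtain ⟨n₁, S₁, hn₁, hS₁⟩ := hsys 1 le_rfl
  rw [one_mul] at hS₁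
  obtain ⟨c₁, hc₁⟩ := exists_LP S₁
  obtain ⟨T, hT1, hTA, hTR⟩ := common S₁ hc₁
  obtain ⟨n₂, S₂, hn₂, hS₂⟩ := hsys (n₁ * T) (Nat.mul_pos hn₁ hT1)
  obtain ⟨c₂, hc₂⟩ := exists_LP S₂
  set N := n₁ * T * n₂ with hN
  have hN1 : 1 ≤ N := Nat.mul_pos (Nat.mul_pos hn₁ hT1) hn₂
  have hg : S₂.g = iterHomeo S₁.g (T * n₂) := by
    rw [hS₁, hS₂, iter_iter_homeo, hN, mul_assoc]
  obtain ⟨B, hB⟩ : ∃ B, ∀ x, |φ x| ≤ B := by
    obtain ⟨B, hB⟩ := (isCompact_univ (X := M)).exists_bound_of_continuousOn hφ.continuousOn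
    exact ⟨B, fun x => hB x trivial⟩
  obtain ⟨B', hB'⟩ : ∃ B, ∀ x, |ψ x| ≤ B := by
    obtain ⟨B, hB⟩ := (isCompact_univ (X := M)).exists_bound_of_continuousOn hψ.continuousOn
    exact ⟨B, fun x => hB x trivial⟩
  obtain ⟨r, hr, D, hD, hTM⟩ := transfer hf' hN1 hφ hε hC hT
  obtain ⟨r', hr', D', hD', hTM'⟩ := transfer (f := F.symm) (f' := f'.symm) (conj_symm hf') hN1 hψ
    hε' hC' hT'
  obtain ⟨e₁, he₁, hb₁⟩ := bow_transfer hf' hN1 he hBφ
  obtain ⟨e₂, he₂, hb₂⟩ := bow_transfer (f := F.symm) (f' := f'.symm) (conj_symm hf') hN1 he'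
    hBψ.symm
  rw [← hS₂] at hTM hb₁
  rw [← ith_symm, ← hS₂] at hTM' hb₂
  have hb₂' : Bow S₂.g (fun y => birkhoffSum F.symm ψ N (h.symm y)) e₂ V' := hb₂.symm
  have hatt : ∀ A, IsAtt S₂.g A → A = univ := by
    refine abs_trans S₂ hc₂ (k := T * n₂) (Nat.mul_pos hT1 hn₂) hg ?_ ?_ hr hr'
      (lt_min he₁ he₂) hTM hD hTM' hD' (V := V) (V' := V') ?_ ?_ (B := N * B) (B' := N * B')
      ?_ ?_ ?_
    · intro A hA
      obtain ⟨p, hp, hpT⟩ := hTA A hA
      exact ⟨p, hp, fixed_of_dvd hpT (Dvd.intro _ rfl)⟩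
    · intro R hR
      obtain ⟨p, hp, hpT⟩ := hTR R hR
      exact ⟨p, hp, fixed_of_dvd hpT (Dvd.intro _ rfl)⟩
    · intro n x y hxy
      exact hb₁ n x y fun k hk => (hxy k hk).trans (min_le_left _ _)
    · intro n x y hxy
      exact hb₂' n x y fun k hk => (hxy k hk).trans (min_le_right _ _)
    · intro y
      exact bsum_bound F hB N _
    · intro y
      exact bsum_bound F.symm hB' N _
    · intro p T' hT' hp
      have hpF : F^[N * T'] (h.symm p) = h.symm p := by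
        rw [← back_iter hf' N T' p, ← hS₂, hp]
      have h1 : birkhoffSum S₂.g (fun y => birkhoffSum F φ N (h.symm y)) T' p =
          birkhoffSum F φ (N * T') (h.symm p) := by
        rw [hS₂]
        exact bsum_pow hf' N φ T' p
      have h2 : birkhoffSum S₂.g (fun y => birkhoffSum F.symm ψ N (h.symm y)) T' p =
          birkhoffSum F ψ (N * T') (h.symm p) := by
        rw [← bsum_per _ hp, ← bsum_per ψ hpF, hS₂, ith_symm]
        exact bsum_pow (f := F.symm) (f' := f'.symm) (conj_symm hf') N ψ T' p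
      rw [h1, h2]
      exact heq _ _ (Nat.mul_pos hN1 hT') hpF
  rw [hS₂] at hatt hc₂
  have htr : TopTransitive (f' : Y → Y) := (trans_iff hN1 hc₂).mpr hatt
  intro U W hU hUn hW hWn
  obtain ⟨n, _, ⟨x, hx, rfl⟩, hy⟩ := htr (h.symm ⁻¹' U) (h.symm ⁻¹' W)
    (hU.preimage h.symm.continuous) (hUn.preimage h.symm.surjective)
    (hW.preimage h.symm.continuous) (hWn.preimage h.symm.surjective)
  refine ⟨n, h.symm (f'^[n] x), ⟨h.symm x, hx, ?_⟩, hy⟩
  apply h.injective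
  rw [h.apply_symm_apply]
  have := conj_iter hf' n (h.symm x)
  rw [h.apply_symm_apply] at this
  exact this

end Pool.Agent.N520.T
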