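import Pool.Agent.N520.T.Leaf

set_option autoImplicit false
set_option linter.unusedSectionVars false

open Filter Topology Set Metric MeasureTheory

namespace Pool.Agent.N520.T

open Pool.Agent.H789R2.AN Pool.Agent.Y330.G

variable {X : Type*} [MetricSpace X]

/-- Quasi-invariant transverse measures of the stable foliation. -/
structure TM [MeasurableSpace X] (g : X ≃ₜ X) (φ : X → ℝ) (r C : ℝ) (ν : X → Measure X) :
    Prop where
  fin : ∀ x, ν x (Wu g r x) ≠ ⊤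
  pos : ∀ x, ∀ ρ > 0, ν x (Wu g ρ x) ≠ 0
  hol : ∀ (x x' : X) (K : Set X) (θ : X → X) (t : ℝ), IsCompact K → K ⊆ Wu g r x →
    θ '' K ⊆ Wu g r x' → ContinuousOn θ K → InjOn θ K →
    (∀ ε > 0, ∀ᶠ n in atTop, ∀ y ∈ K, dist (g^[n] y) (g^[n] (θ y)) ≤ ε) →
    (∀ᶠ n in atTop, ∀ y ∈ K, birkhoffSum g φ n y - birkhoffSum g φ n (θ y) ≤ t) →
    ν x K ≤ ENNReal.ofReal (C * Real.exp t) * ν x' (θ '' K)

theorem isClosed_near (g : X ≃ₜ X) (n : ℕ) (s : ℝ) (b : X) :
    IsClosed {y | ∀ k ≤ n, dist (g^[k] y) (g^[k] b) ≤ s} := by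
  have : {y | ∀ k ≤ n, dist (g^[k] y) (g^[k] b) ≤ s} =
      ⋂ k : ℕ, ⋂ (_ : k ≤ n), {y | dist (g^[k] y) (g^[k] b) ≤ s} := by
    ext y
    simp
  rw [this]
  exact isClosed_iInter fun k => isClosed_iInter fun _ =>
    isClosed_le ((g.continuous.iterate k).dist continuous_const) continuous_const

theorem iter_inj (g : X ≃ₜ X) (n : ℕ) : Function.Injective (g^[n]) := g.injective.iterate n

/-- Pull back of a local holonomy. -/
theorem TM.pull [MeasurableSpace X] {g : X ≃ₜ X} {φ : X → ℝ} {r C c e V : ℝ}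
    {ν : X → Measure X} (hT : TM g φ r C ν) (hB : Bow g φ e V) (h : LP g c) {ρ : ℝ} (hρe : ρ ≤ e)
    (hρc : ρ ≤ c) {x x' : X} {L : Set X} (hL : IsCompact L) {θ : X → X} (hc : ContinuousOn θ L)
    (hi : InjOn θ L) (hs : ∀ u ∈ L, SR g ρ u (θ u)) (m : ℕ)
    (h1 : ∀ u ∈ L, SR g.symm r x (g.symm^[m] u)) (h2 : ∀ u ∈ L, SR g.symm r x' (g.symm^[m] (θ u)))
    {t : ℝ} (ht : ∀ u ∈ L, birkhoffSum g φ m (g.symm^[m] u) -
      birkhoffSum g φ m (g.symm^[m] (θ u)) ≤ t) :
    ν x (g.symm^[m] '' L) ≤ ENNReal.ofReal (C * Real.exp (t + V)) *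
      ν x' (g.symm^[m] '' (θ '' L)) := by
  set Θ : X → X := fun y => g.symm^[m] (θ (g^[m] y)) with hΘ
  have hΘu : ∀ u, Θ (g.symm^[m] u) = g.symm^[m] (θ u) := fun u => by rw [hΘ]; simp only [iterR]
  have himg : Θ '' (g.symm^[m] '' L) = g.symm^[m] '' (θ '' L) := by
    rw [image_image, image_image]
    exact image_congr fun u _ => hΘu u
  rw [← himg]
  refine hT.hol x x' _ Θ _ (hL.image (g.symm.continuous.iterate m)) ?_ ?_ ?_ ?_ ?_ ?_
  · rintro _ ⟨u, hu, rfl⟩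
    exact h1 u hu
  · rw [himg]
    rintro _ ⟨_, ⟨u, hu, rfl⟩, rfl⟩
    exact h2 u hu
  · refine (g.symm.continuous.iterate m).comp_continuousOn ?_
    refine hc.comp (g.continuous.iterate m).continuousOn ?_
    rintro _ ⟨u, hu, rfl⟩
    rwa [iterR]
  · rintro _ ⟨u, hu, rfl⟩ _ ⟨u', hu', rfl⟩ he
    rw [hΘu, hΘu] at he
    rw [hi hu hu' (iter_inj g.symm m he)]
  · intro ε hε
    obtain ⟨j, hj⟩ := pw (c := c) hε
    filter_upwards [eventually_ge_atTop (m + j)] with n hn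
    rintro _ ⟨u, hu, rfl⟩
    rw [hΘu, fw' g (by omega), fw' g (by omega)]
    exact (h.cS _ _ ((hs u hu).mono hρc) (n - m)).trans ((pw_anti h.c_pos (by omega)).trans hj)
  · filter_upwards [eventually_ge_atTop m] with n hn
    rintro _ ⟨u, hu, rfl⟩
    obtain ⟨k, rfl⟩ := Nat.exists_eq_add_of_le hn
    rw [hΘu, birkhoffSum_add, birkhoffSum_add, iterR, iterR]
    have h3 := ht u hu
    have h4 := (abs_le.mp (hB k u (θ u) fun i _ => (hs u hu i).trans hρe)).2
    linarith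

/-- Maximal separated subsets of local unstable sets. -/
theorem exists_cov [CompactSpace X] (g : X ≃ₜ X) (ε : ℝ) {δ : ℝ} (hδ : 0 < δ) (n : ℕ) (x : X) :
    ∃ F : Finset X, (∀ y ∈ F, SR g.symm ε x y) ∧ Sep g δ n F ∧
      ∀ y, SR g.symm ε x y → ∃ z ∈ F, ∀ k ≤ n, dist (g^[k] y) (g^[k] z) ≤ δ := by
  classical
  obtain ⟨F, hF, hFc⟩ := P_att g ε hδ n x
  refine ⟨F, hF.1, hF.2, fun y hy => ?_⟩
  by_contra hcon
  push Not at hcon
  have hyF : y ∉ F := by
    intro h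
    obtain ⟨k, -, hk⟩ := hcon y h
    rw [dist_self] at hk
    linarith
  have hval : Val g ε δ n x (insert y F) := by
    constructor
    · intro z hz
      rcases Finset.mem_insert.mp hz with rfl | hz
      · exact hy
      · exact hF.1 z hz
    · intro a ha b hb hab
      rw [Finset.mem_insert] at ha hb
      rcases ha with rfl | ha <;> rcases hb with rfl | hb
      · exact absurd rfl hab
      · exact hcon b hb
      · obtain ⟨k, hk, h1⟩ := hcon a ha
        exact ⟨k, hk, by rwa [dist_comm]⟩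
      · exact hF.2 a ha b hb hab
  have := P_le hδ hval
  rw [Finset.card_insert_of_notMem hyF, hFc] at this
  omega

end Pool.Agent.N520.T
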