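import Pool.Agent.N520.T.Back

set_option autoImplicit false
set_option linter.unusedSectionVars false

open Filter Topology Set Metric MeasureTheory

namespace Pool.Agent.N520.T

open Pool.Agent.H789R2.AN Pool.Agent.Y330.G Pool.Agent.H721R2 Pool.Agent.Y321.PJ

variable {X : Type*} [MetricSpace X] [CompactSpace X]

/-- Orbits meet a compact set of wandering points only for a bounded time. -/
theorem visits {g f : X ≃ₜ X} {c : ℝ} (h : LP g c) {N : ℕ} (hN : 1 ≤ N) (hg : g = iterHomeo f N)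
    {A : Set X} (hA : IsAtt g A) (hAf : ∀ x, f x ∈ A ↔ x ∈ A) {W : Set X} (hW : IsCompact W)
    (hWA : Disjoint A W) (hWB : W ⊆ Bas g A) : ∃ M : ℕ, ∀ w ∈ W, ∀ j ≥ M, f^[j] w ∉ W := by
  have hc := h.c_pos
  obtain ⟨d, hd, hdist⟩ := pos_dist hA.closed.isCompact hW hWA
  obtain ⟨κ, hκ, hu⟩ := uc f f.continuous N hd
  obtain ⟨δ, hδ, hnear⟩ := h.near
  obtain ⟨i₀, hi₀⟩ := pw (c := c) (half_pos hκ)
  have hgi : ∀ k x, g^[k] x = f^[N * k] x := fun k x => by rw [hg, ith_iter]
  refine hW.induction_on (p := fun S => ∃ M : ℕ, ∀ w ∈ S, ∀ j ≥ M, f^[j] w ∉ W) ?_ ?_ ?_ ?_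
  · exact ⟨0, fun w hw => absurd hw (notMem_empty w)⟩
  · rintro S T hST ⟨M, hM⟩
    exact ⟨M, fun w hw => hM w (hST hw)⟩
  · rintro S T ⟨M, hM⟩ ⟨M', hM'⟩
    refine ⟨max M M', fun w hw j hj => ?_⟩
    rcases hw with hw | hw
    · exact hM w hw j ((le_max_left _ _).trans hj)
    · exact hM' w hw j ((le_max_right _ _).trans hj)
  · intro w hw
    obtain ⟨z, hz, hwz⟩ := hWB hw
    obtain ⟨m, hm⟩ := hwz.eventually_lt hδ
    have h1 : {w' | dist (g^[m] w') (g^[m] z) < δ} ∈ 𝓝 w := by
      have hcont : Continuous fun w' => dist (g^[m] w') (g^[m] z) :=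
        (g.continuous.iterate m).dist continuous_const
      exact (isOpen_lt hcont continuous_const).mem_nhds (hm m le_rfl)
    refine ⟨_, mem_nhdsWithin_of_mem_nhds h1, N * (m + i₀), fun w' hw' j hj hjW => ?_⟩
    obtain ⟨z', hz', h2⟩ := hnear A hA _ ((inv_iter hA.inv m z).mpr hz) _ hw'
    have hjN : m + i₀ ≤ j / N := (Nat.le_div_iff_mul_le (by omega)).mpr (by rw [mul_comm]; exact hj)
    have h3 := h.cS _ _ h2 (j / N - m)
    have e1 : j / N - m + m = j / N := by omega
    rw [← Function.iterate_add_apply, e1] at h3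
    have h4 := (pw_anti hc (show i₀ ≤ j / N - m by omega)).trans hi₀
    have h5 := hu (j % N) (Nat.mod_lt _ (by omega)).le _ _ (show dist (g^[j / N] w')
      (g^[j / N - m] z') < κ by linarith)
    rw [hgi, ← Function.iterate_add_apply, Nat.mod_add_div, dist_comm] at h5
    have h6 : f^[j % N] (g^[j / N - m] z') ∈ A :=
      (inv_iter hAf _ _).mpr ((inv_iter hA.inv _ _).mpr hz')
    have h7 := hdist _ h6 _ hjW
    linarith

/-- A potential which separates an attractor from the dual repeller. -/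
theorem bump [Nonempty X] {g f : X ≃ₜ X} {c : ℝ} (h : LP g c) {N : ℕ} (hN : 1 ≤ N)
    (hg : g = iterHomeo f N) {A : Set X} (hA : IsAtt g A) (hAf : ∀ x, f x ∈ A ↔ x ∈ A)
    (hne : A ≠ univ) : ∃ χ : X → ℝ, Continuous χ ∧ (∃ e > 0, ∃ M : ℕ, ∀ (n : ℕ) (x y : X),
      (∀ k < n, dist (f^[k] x) (f^[k] y) ≤ e) →
        ∑ k ∈ Finset.range n, |χ (f^[k] x) - χ (f^[k] y)| ≤ M) ∧
      (∀ x ∈ A, χ x = 0) ∧ (∀ x, x ∉ Bas g A → χ x = 1) := by
  classical
  set R : Set X := (Bas g A)ᶜ with hR
  have hRc : IsClosed R := (isOpen_bas h hA).isClosed_compl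
  obtain ⟨z, hz⟩ := (ne_univ_iff_exists_notMem A).mp hne
  obtain ⟨w, hw, -⟩ := exists_repeller h hA hz
  have hRne : R.Nonempty := ⟨w, hw⟩
  have hdisj : Disjoint A R := by
    rw [hR]; exact (disjoint_compl_right_iff_subset).mpr (subset_bas g A)
  obtain ⟨d, hd, hdist⟩ := pos_dist hA.closed.isCompact hRc.isCompact hdisj
  set b : X → ℝ := fun x => infDist x R with hb
  have hbc : Continuous b := continuous_infDist_pt R
  set χ : X → ℝ := fun x => max 0 (min 1 (2 - 4 * b x / d)) with hχ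
  have hχc : Continuous χ := by
    apply continuous_const.max (continuous_const.min _)
    exact continuous_const.sub ((continuous_const.mul hbc).div_const d)
  have hχ1 : ∀ x, b x ≤ d / 4 → χ x = 1 := by
    intro x hx
    have h1 : 4 * b x / d ≤ 1 := by rw [div_le_one hd]; linarith
    rw [hχ]
    simp only
    rw [min_eq_left (by linarith), max_eq_right (by norm_num)]
  have hχ0 : ∀ x, d / 2 ≤ b x → χ x = 0 := by
    intro x hx
    have h1 : 2 ≤ 4 * b x / d := by rw [le_div_iff₀ hd]; linarith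
    rw [hχ]
    simp only
    rw [max_eq_left]
    exact (min_le_right _ _).trans (by linarith)
  have hχb : ∀ x y, |χ x - χ y| ≤ 1 := by
    intro x y
    have h1 : ∀ x, 0 ≤ χ x ∧ χ x ≤ 1 := fun x =>
      ⟨le_max_left _ _, max_le (by norm_num) (min_le_left _ _)⟩
    have h2 := h1 x
    have h3 := h1 y
    rw [abs_le]
    constructor <;> linarith
  have hbA : ∀ x ∈ A, d ≤ b x := by
    intro x hx
    exact (le_infDist hRne).mpr fun y hy => (hdist x hx y hy).le
  set W : Set X := {x | d / 5 ≤ b x} ∩ {x | b x ≤ 3 * d / 5} with hW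
  have hWc : IsCompact W :=
    ((isClosed_le continuous_const hbc).inter (isClosed_le hbc continuous_const)).isCompact
  have hWA : Disjoint A W := by
    rw [Set.disjoint_left]
    intro x hx hxW
    have h1 := hbA x hx
    have h2 : b x ≤ 3 * d / 5 := hxW.2
    linarith
  have hWB : W ⊆ Bas g A := by
    intro x hx
    by_contra hcon
    have h1 : x ∈ R := hcon
    have h2 : b x = 0 := infDist_zero_of_mem h1
    have h3 : d / 5 ≤ b x := hx.1
    linarith
  obtain ⟨M, hM⟩ := visits h hN hg hA hAf hWc hWA hWB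
  refine ⟨χ, hχc, ⟨d / 20, by positivity, M + 1, fun n x y hxy => ?_⟩, ?_, ?_⟩
  · have hterm : ∀ k ∈ Finset.range n, |χ (f^[k] x) - χ (f^[k] y)| ≤
        if f^[k] x ∈ W then (1 : ℝ) else 0 := by
      intro k hk
      rw [Finset.mem_range] at hk
      split_ifs with hkW
      · exact hχb _ _
      · have h1 := hxy k hk
        have h2 : |b (f^[k] x) - b (f^[k] y)| ≤ d / 20 := by
          have t1 := infDist_le_infDist_add_dist (s := R) (x := f^[k] x) (y := f^[k] y)
          have t2 := infDist_le_infDist_add_dist (s := R) (x := f^[k] y) (y := f^[k] x)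
          rw [dist_comm (f^[k] y)] at t2
          rw [abs_le]
          simp only [hb]
          constructor <;> linarith
        rw [abs_le] at h2
        rcases lt_or_ge (b (f^[k] x)) (d / 5) with h3 | h3
        · rw [hχ1 _ (by linarith), hχ1 _ (by linarith)]
          simp
        · have h4 : 3 * d / 5 < b (f^[k] x) := by
            by_contra h5
            push Not at h5
            exact hkW ⟨h3, h5⟩
          rw [hχ0 _ (by linarith), hχ0 _ (by linarith)]
          simp
    refine (Finset.sum_le_sum hterm).trans ?_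
    rw [Finset.sum_ite, Finset.sum_const_zero, add_zero, Finset.sum_const, nsmul_eq_mul, mul_one]
    set V := (Finset.range n).filter fun k => f^[k] x ∈ W with hV
    have hcard : V.card ≤ M + 1 := by
      rcases V.eq_empty_or_nonempty with hVe | hVn
      · rw [hVe]; simp
      · obtain ⟨k₀, hk₀, hmin⟩ := V.exists_min_image id hVn
        have hsub : V ⊆ Finset.Ico k₀ (k₀ + M) := by
          intro k hk
          have h1 : k₀ ≤ k := hmin k hk
          rw [Finset.mem_Ico]
          refine ⟨h1, ?_⟩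
          by_contra hcon
          push Not at hcon
          have h2 := hM _ (Finset.mem_filter.mp hk₀).2 (k - k₀) (by omega)
          rw [← Function.iterate_add_apply, Nat.sub_add_cancel h1] at h2
          exact h2 (Finset.mem_filter.mp hk).2
        have := Finset.card_le_card hsub
        rw [Nat.card_Ico] at this
        omega
    exact_mod_cast hcard
  · intro x hx
    have := hbA x hx
    exact hχ0 x (by linarith)
  · intro x hx
    have h1 : b x = 0 := infDist_zero_of_mem (show x ∈ R from hx)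
    exact hχ1 x (by linarith)

/-- Exponential upper bound of the number of separated points. -/
theorem sep_exp [Nonempty X] {g : X ≃ₜ X} {c : ℝ} (h : LP g c) : ∃ H : ℝ, ∀ s > 0, ∃ K > 0,
    ∀ (n : ℕ) (x : X) (F : Finset X), (∀ y ∈ F, SR g.symm (c / 4) x y) → Sep g s n F →
      (F.card : ℝ) ≤ K * Real.exp (n * H) := by
  have hc := h.c_pos
  obtain ⟨K₀, hK₀, hsub⟩ := A_submult h (ε := c / 4) (δ := c / 2) (by linarith) (by linarith)
    (by linarith) (by linarith)
  set a : ℕ → ℕ := A g (c / 4) (c / 2) with ha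
  have ha1 : ∀ n, 1 ≤ a n := fun n =>
    (one_le_P g (by linarith) (by linarith) n (Classical.arbitrary X)).trans
      (P_le_A (by linarith) n (Classical.arbitrary X))
  have hgr : ∀ n, a n ≤ a 0 * (K₀ * a 1) ^ n := by
    intro n
    induction n with
    | zero => simp
    | succ n ih =>
      calc a (n + 1) ≤ K₀ * (a n * a 1) := hsub n 1
        _ ≤ K₀ * ((a 0 * (K₀ * a 1) ^ n) * a 1) := by gcongr
        _ = _ := by ring
  have hpos : (0 : ℝ) < K₀ * a 1 := by
    have h1 : (0 : ℝ) < K₀ := by exact_mod_cast hK₀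
    have h2 : (0 : ℝ) < a 1 := by exact_mod_cast ha1 1
    positivity
  refine ⟨Real.log (K₀ * a 1), fun s hs => ?_⟩
  obtain ⟨K₁, hK₁, h1⟩ := P_chg h (ε := c / 4) (δ := s) (δ' := c / 2) (by linarith) hs
    (by linarith) (by linarith)
  have hK₁' : (0 : ℝ) < K₁ := by exact_mod_cast hK₁
  have ha0 : (0 : ℝ) < a 0 := by exact_mod_cast ha1 0
  refine ⟨K₁ * a 0, by positivity, fun n x F hF hsep => ?_⟩
  have h2 : F.card ≤ K₁ * (a 0 * (K₀ * a 1) ^ n) := by
    calc F.card ≤ P g (c / 4) s n x := P_le hs ⟨hF, hsep⟩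
      _ ≤ K₁ * P g (c / 4) (c / 2) n x := h1 n x
      _ ≤ K₁ * a n := Nat.mul_le_mul_left _ (P_le_A (by linarith) n x)
      _ ≤ _ := Nat.mul_le_mul_left _ (hgr n)
  have h3 : (F.card : ℝ) ≤ K₁ * (a 0 * (K₀ * a 1) ^ n) := by exact_mod_cast h2
  rw [Real.exp_nat_mul, Real.exp_log hpos]
  linarith

/-- If there is a proper attractor, then for a suitable potential the stable foliation has no
quasi-invariant transverse measures of full support. -/
theorem one_sided [ConnectedSpace X] [MeasurableSpace X] [BorelSpace X] {g f : X ≃ₜ X} {c : ℝ}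
    (h : LP g c) {N : ℕ} (hN : 1 ≤ N) (hg : g = iterHomeo f N)
    (hfixA : ∀ A, MinAtt g A → ∃ p ∈ A, g p = p)
    (hfixR : ∀ R, MinAtt g.symm R → ∃ p ∈ R, g.symm p = p)
    (hnt : ¬ ∀ S, IsAtt g S → S = univ) : ∃ φ : X → ℝ, Continuous φ ∧
      (∃ e > 0, ∃ V, Bow f φ e V) ∧ ∀ (ν : X → Measure X) (r C : ℝ), 0 < r → 0 < C →
        ¬ TM g (birkhoffSum f φ N) r C ν := by
  classical
  have hc := h.c_pos
  have hcomm : ∀ x, f (g x) = g (f x) := by
    intro x
    rw [hg]
    show f (f^[N] x) = f^[N] (f x)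
    rw [← Function.iterate_succ_apply' f N x, Function.iterate_succ_apply]
  obtain ⟨hA, hAf⟩ := tot_att h hcomm
  have hne : Tot g ≠ univ := fun e => hnt (unique_att h e)
  obtain ⟨χ, hχc, ⟨e, he, M, hχB⟩, hχA, hχR⟩ := bump h hN hg hA hAf hne
  obtain ⟨H, hH⟩ := sep_exp h
  set t : ℝ := |H| + 1 with ht
  have ht0 : 0 < t := by positivity
  set R : Set X := (Bas g (Tot g))ᶜ with hR
  have hRf : ∀ x, f x ∈ R ↔ x ∈ R := fun x => by
    rw [hR, mem_compl_iff, mem_compl_iff, bas_map hcomm hAf]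
  have hRatt : IsAtt g.symm R := by
    obtain ⟨z, hz⟩ := (ne_univ_iff_exists_notMem _).mp hne
    obtain ⟨w, hw, -⟩ := exists_repeller h hA hz
    refine ⟨(isOpen_bas h hA).isClosed_compl, ⟨w, hw⟩, ?_, ?_⟩
    · intro x
      rw [hR, mem_compl_iff, mem_compl_iff, not_iff_not]
      have := bas_map (g := g) (φ := g) (fun _ => rfl) hA.inv (g.symm x)
      rw [g.apply_symm_apply] at this
      exact this.symm
    · intro x hx y hxy hy
      obtain ⟨s, hs, h1⟩ := hy
      exact hx ⟨s, hs, WS.trans (g := g) hxy h1⟩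
  obtain ⟨R₁, hR₁s, hR₁⟩ := exists_minAtt hRatt
  obtain ⟨A₁, hA₁, hconn⟩ := exists_bas h (isOpen_bas h.symm hR₁.1)
    (by
      obtain ⟨a, ha⟩ := hR₁.1.nonempty
      exact ⟨a, subset_bas g.symm R₁ ha⟩)
  have hA₁s : A₁ ⊆ Tot g := fun x hx => ⟨A₁, hA₁, hx⟩
  obtain ⟨p, hpA, hp⟩ := hfixA A₁ hA₁
  obtain ⟨q, hqR, hq⟩ := hfixR R₁ hR₁
  have hq' : g q = q := fixed_symm (g := g.symm) hq
  obtain ⟨j, k', x₀, -, hx1, hx2⟩ := exists_heteroclinic h hA₁ hR₁ isOpen_univ
    (by
      obtain ⟨y, hy1, hy2⟩ := hconn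
      exact ⟨y, ⟨trivial, hy2⟩, hy1⟩) hpA hqR
  rw [fixed_iter (fixed_symm hp)] at hx1
  rw [fixed_iter hq'] at hx2
  have hA₁ne : A₁ ≠ univ := by
    intro e
    apply hne
    rw [eq_univ_iff_forall]
    intro x
    exact hA₁s (by rw [e]; trivial)
  have hx3 : x₀ ∉ R₁ := fun hx => disj h hA₁ hR₁ hA₁ne hpA (hR₁.1.sat x₀ hx p hx1.symm')
  -- the potential
  set φ : X → ℝ := fun x => t * χ x with hφ
  have hφc : Continuous φ := continuous_const.mul hχc
  have hBow : Bow f φ e (t * M) := by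
    intro n x y hxy
    have h1 := hχB n x y hxy
    unfold birkhoffSum
    rw [← Finset.sum_sub_distrib]
    refine (Finset.abs_sum_le_sum_abs _ _).trans ?_
    calc ∑ i ∈ Finset.range n, |φ (f^[i] x) - φ (f^[i] y)|
        = ∑ i ∈ Finset.range n, t * |χ (f^[i] x) - χ (f^[i] y)| := by
          refine Finset.sum_congr rfl fun i _ => ?_
          rw [hφ]
          simp only
          rw [← mul_sub, abs_mul, abs_of_pos ht0]
      _ = t * ∑ i ∈ Finset.range n, |χ (f^[i] x) - χ (f^[i] y)| := by rw [Finset.mul_sum]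
      _ ≤ t * M := by gcongr
  refine ⟨φ, hφc, ⟨e, he, _, hBow⟩, fun ν r C hr hC hT => ?_⟩
  -- the sums along the power
  obtain ⟨B, hBd⟩ : ∃ B, ∀ x, |φ x| ≤ B := by
    obtain ⟨B, hB⟩ := (isCompact_univ (X := X)).exists_bound_of_continuousOn hφc.continuousOn
    exact ⟨B, fun x => hB x trivial⟩
  obtain ⟨e', he', hBow'⟩ := bow_transfer (h := Homeomorph.refl X) (f := f) (f' := f)
    (fun _ => rfl) hN he hBow
  have e1 : (fun y => birkhoffSum f φ N ((Homeomorph.refl X).symm y)) = birkhoffSum f φ N := rfl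
  rw [e1, ← hg] at hBow'
  set Φ : X → ℝ := birkhoffSum f φ N with hΦ
  have hΦA : ∀ x ∈ Tot g, Φ x = 0 := by
    intro x hx
    rw [hΦ]
    unfold birkhoffSum
    refine Finset.sum_eq_zero fun i _ => ?_
    rw [hφ]
    simp only
    rw [hχA _ ((inv_iter hAf i x).mpr hx), mul_zero]
  have hΦR : ∀ x ∈ R, Φ x = N * t := by
    intro x hx
    rw [hΦ]
    unfold birkhoffSum
    rw [Finset.sum_congr rfl (g := fun _ => t) (fun i _ => by
      rw [hφ]
      simp only
      rw [hχR _ ((inv_iter hRf i x).mpr hx), mul_one]), Finset.sum_const, Finset.card_range,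
      nsmul_eq_mul]
  obtain ⟨u, hu0, huc, hue, hur⟩ : ∃ u > 0, 256 * u ≤ c ∧ 16 * u ≤ e' ∧ 16 * u ≤ r := by
    refine ⟨min (min c e') r / 256, by positivity, ?_, ?_, ?_⟩
    · have := (min_le_left (min c e') r).trans (min_le_left _ _)
      linarith
    · have := (min_le_left (min c e') r).trans (min_le_right _ _)
      linarith
    · have := min_le_right (min c e') r
      linarith
  have hΦB : ∀ x, |Φ x| ≤ N * B := fun x => bsum_bound f hBd N x
  obtain ⟨α, j₁, K, hD⟩ := lemD h hT hC hBow' hΦB hp hq' hR₁ hqR hx1 hx2 hx3 hu0 huc hue hur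
  obtain ⟨κ, hκ, hU⟩ := corU h hT hC hBow' hΦB hp (s := 16 * u) (by linarith) (by linarith) hue hur
    hu0 (by linarith) (by linarith) α
  obtain ⟨K', hK', hcard⟩ := hH (16 * u) (by linarith)
  -- the terms are bounded below
  have hterm : ∀ n : ℕ, κ / K' ≤ XX g Φ ν u p (n + α) *
      Real.exp (birkhoffSum g.symm Φ n q) := by
    intro n
    obtain ⟨F, hF1, hF2, hF3⟩ := hU n
    have h1 : ∑ b ∈ F, Real.exp (birkhoffSum g Φ n b) = F.card := by
      rw [Finset.sum_congr rfl (g := fun _ => (1 : ℝ)) (fun b hb => ?_), Finset.sum_const,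
        nsmul_eq_mul, mul_one]
      have hb1 : b ∈ A₁ := hA₁.1.sat p hpA b
        (WS.of_SR (h.cU _ _ (SR.mono (hF1 b hb) (by linarith))))
      have h2 : birkhoffSum g Φ n b = 0 := by
        unfold birkhoffSum
        exact Finset.sum_eq_zero fun i _ => hΦA _ (hA₁s ((inv_iter hA₁.1.inv i b).mpr hb1))
      rw [h2, Real.exp_zero]
    have h3 : birkhoffSum g.symm Φ n q = n * (N * t) := by
      rw [bsum_fixed _ _ _ hq, hΦR q (hR₁s hqR)]
    have h4 := hcard n p F (fun y hy => SR.mono (hF1 y hy) (by linarith)) hF2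
    rw [h1] at hF3
    have hX0 : 0 ≤ XX g Φ ν u p (n + α) := (XX_pos hT hp hu0 (by linarith) _).le
    have h5 : κ ≤ XX g Φ ν u p (n + α) * (K' * Real.exp (n * H)) :=
      hF3.trans (mul_le_mul_of_nonneg_left h4 hX0)
    have h6 : Real.exp (n * H) ≤ Real.exp (birkhoffSum g.symm Φ n q) := by
      apply Real.exp_le_exp.mpr
      rw [h3]
      have h7 : (1 : ℝ) ≤ N := by exact_mod_cast hN
      have h8 : H ≤ N * t := by
        have := le_abs_self H
        nlinarith
      have h9 : (0 : ℝ) ≤ n := Nat.cast_nonneg n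
      exact mul_le_mul_of_nonneg_left h8 h9
    rw [div_le_iff₀ hK']
    calc κ ≤ XX g Φ ν u p (n + α) * (K' * Real.exp (n * H)) := h5
      _ ≤ XX g Φ ν u p (n + α) * (K' * Real.exp (birkhoffSum g.symm Φ n q)) := by gcongr
      _ = _ := by ring
  have hκK : 0 < κ / K' := by positivity
  obtain ⟨m, hm⟩ := exists_nat_gt (K / (κ / K'))
  have h1 := hD j₁ le_rfl m (fun _ => {q}) (fun i => ⟨fun b hb => by
    rw [Finset.mem_singleton] at hb
    rw [hb]
    exact sr_refl _ (by linarith) q, fun y hy z hz hne' => by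
    rw [Finset.mem_singleton] at hy hz
    exact absurd (hy.trans hz.symm) hne'⟩)
  have h2 : (m : ℝ) * (κ / K') ≤ ∑ i ∈ Finset.range m, XX g Φ ν u p (j₁ * (i + 1) + α) *
      ∑ b ∈ ({q} : Finset X), Real.exp (birkhoffSum g.symm Φ (j₁ * (i + 1)) b) := by
    calc (m : ℝ) * (κ / K') = ∑ i ∈ Finset.range m, κ / K' := by
          rw [Finset.sum_const, Finset.card_range, nsmul_eq_mul]
      _ ≤ _ := by
          refine Finset.sum_le_sum fun i _ => ?_
          rw [Finset.sum_singleton]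
          exact hterm _
  rw [div_lt_iff₀ hκK] at hm
  linarith

end Pool.Agent.N520.T
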