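import Pool.Agent.N520.T.Disj

set_option autoImplicit false
set_option linter.unusedSectionVars false

open Filter Topology Set Metric MeasureTheory

namespace Pool.Agent.N520.T

open Pool.Agent.H789R2.AN Pool.Agent.Y330.G

variable {X : Type*} [MetricSpace X]

/-- The pieces at different times are disjoint. -/
theorem lemD [CompactSpace X] [MeasurableSpace X] [BorelSpace X] {g : X ≃ₜ X} {φ : X → ℝ}
    {r C c e V B : ℝ} {ν : X → Measure X} (h : LP g c) (hT : TM g φ r C ν) (hC : 0 < C)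
    (hB : Bow g φ e V) (hφ : ∀ x, |φ x| ≤ B) {p q : X} (hp : g p = p) (hq : g q = q) {R : Set X}
    (hR : MinAtt g.symm R) (hqR : q ∈ R) {x₀ : X} (hx1 : WS g p x₀) (hx2 : WS g.symm q x₀)
    (hx3 : x₀ ∉ R) {u : ℝ} (hu0 : 0 < u) (huc : 256 * u ≤ c) (hue : 16 * u ≤ e)
    (hur : 16 * u ≤ r) : ∃ (α j₁ : ℕ) (K : ℝ), ∀ j₀ ≥ j₁, ∀ (m : ℕ) (F : ℕ → Finset X),
      (∀ i, (∀ b ∈ F i, SR g (8 * u) q b) ∧ Sep g.symm (16 * u) (j₀ * (i + 1)) (F i)) →
      ∑ i ∈ Finset.range m, XX g φ ν u p (j₀ * (i + 1) + α) *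
        ∑ b ∈ F i, Real.exp (birkhoffSum g.symm φ (j₀ * (i + 1)) b) ≤ K := by
  classical
  have hc0 := h.c_pos
  obtain ⟨α, T, w, ρ₀, C₂, N, hρ₀, hC₂, hwR, hpc⟩ :=
    piece h hT hC hB hφ hp hq hR hqR hx1 hx2 hx3 hu0 huc hue hur
  obtain ⟨j', hj'⟩ := pw (c := c) (show 0 < ρ₀ / 8 by linarith)
  have hgR : ∀ k y, y ∈ R → g^[k] y ∈ R := fun k y hy =>
    (inv_iter (fun x => by rw [← hR.1.inv (g x), g.symm_apply_apply]) k y).mpr hy
  refine ⟨α, max 1 j', C₂ * (ν q (Wu g r q)).toReal, fun j₀ hj₀ m F hF => ?_⟩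
  have hj1 : 1 ≤ j₀ := (le_max_left _ _).trans hj₀
  have hj2 : j' ≤ j₀ := (le_max_right _ _).trans hj₀
  have hch : ∀ (n : ℕ) (b : X), ∃ (D : Set X) (z : X), SR g (8 * u) q b → IsCompact D ∧
      D ⊆ Wu g r q ∧
        XX g φ ν u p (n + α) * Real.exp (birkhoffSum g.symm φ n b) ≤ C₂ * (ν q D).toReal ∧
        z ∈ R ∧ (∀ k ≤ n, dist (g.symm^[k] b) (g^[N + (n - k)] z) ≤ u) ∧
          (∀ v ∈ D, ∀ k ≤ n + (N + T), dist (g^[k] v) (g^[k] z) ≤ 4 * u ∧
            dist (g^[k] v) (g^[k] z) ≤ 2 * (c * (1 / 2) ^ (n + (N + T) - k))) ∧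
          ∀ v ∈ D, dist w (g^[n + (N + T)] v) ≤ ρ₀ / 4 := by
    intro n b
    by_cases hb : SR g (8 * u) q b
    · obtain ⟨D, h1, h2, h3, z, h4, h5, h6, h7⟩ := hpc n b hb
      exact ⟨D, z, fun _ => ⟨h1, h2, h3, h4, h5, h6, h7⟩⟩
    · exact ⟨∅, b, fun h => absurd h hb⟩
  choose D z hDz using hch
  set nn : ℕ → ℕ := fun i => j₀ * (i + 1) with hnn
  set S : Finset (Σ _ : ℕ, X) := (Finset.range m).sigma F with hS
  have hSmem : ∀ a ∈ S, SR g (8 * u) q a.2 := by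
    intro a ha
    rw [hS, Finset.mem_sigma] at ha
    exact (hF a.1).1 a.2 ha.2
  have hcross : ∀ a ∈ S, ∀ a' ∈ S, a.1 < a'.1 → ∀ v, v ∈ D (nn a.1) a.2 → v ∈ D (nn a'.1) a'.2 →
      False := by
    intro a ha a' ha' hlt v hv hv'
    have h1 := hDz (nn a.1) a.2 (hSmem a ha)
    have h2 := hDz (nn a'.1) a'.2 (hSmem a' ha')
    have hle : nn a.1 + j₀ ≤ nn a'.1 := by
      simp only [hnn]
      nlinarith
    have h3 := h1.2.2.2.2.2.2 v hv
    have h4 := (h2.2.2.2.2.2.1 v hv' (nn a.1 + (N + T)) (by omega)).2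
    have h5 := (pw_anti hc0 (show j' ≤ nn a'.1 + (N + T) - (nn a.1 + (N + T)) by omega)).trans hj'
    have h6 := hwR _ (hgR (nn a.1 + (N + T)) _ h2.2.2.2.1)
    have := dist_triangle w (g^[nn a.1 + (N + T)] v) (g^[nn a.1 + (N + T)] (z (nn a'.1) a'.2))
    linarith
  have hdisj : (S : Set (Σ _ : ℕ, X)).PairwiseDisjoint fun a => D (nn a.1) a.2 := by
    intro a ha a' ha' hne
    rw [Finset.mem_coe] at ha ha'
    rw [Function.onFun, Set.disjoint_left]
    intro v hv hv'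
    rcases lt_trichotomy a.1 a'.1 with hlt | heq | hlt
    · exact hcross a ha a' ha' hlt v hv hv'
    · obtain ⟨i, b⟩ := a
      obtain ⟨i', b'⟩ := a'
      simp only at heq
      subst heq
      have hbb : b ≠ b' := fun e => hne (by rw [e])
      rw [hS, Finset.mem_sigma] at ha ha'
      have h1 := hDz (nn i) b ((hF i).1 b ha.2)
      have h2 := hDz (nn i) b' ((hF i).1 b' ha'.2)
      obtain ⟨k, hk, h3⟩ := (hF i).2 b ha.2 b' ha'.2 hbb
      have hk' : k ≤ nn i := hk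
      have h4 := h1.2.2.2.2.1 k hk
      have h5 := h2.2.2.2.2.1 k hk
      have h6 := (h1.2.2.2.2.2.1 v hv (N + (nn i - k)) (by omega)).1
      have h7 := (h2.2.2.2.2.2.1 v hv' (N + (nn i - k)) (by omega)).1
      have h8 := dist_triangle4_right (g.symm^[k] b) (g.symm^[k] b') (g^[N + (nn i - k)] (z (nn i) b))
        (g^[N + (nn i - k)] (z (nn i) b'))
      have h9 := dist_triangle_left (g^[N + (nn i - k)] (z (nn i) b))
        (g^[N + (nn i - k)] (z (nn i) b')) (g^[N + (nn i - k)] v)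
      linarith
    · exact hcross a' ha' a ha hlt v hv' hv
  have hfin : ∀ s, s ⊆ Wu g r q → ν q s ≠ ⊤ := fun s hs =>
    ((measure_mono hs).trans_lt (lt_top_iff_ne_top.mpr (hT.fin q))).ne
  have hm1 : ∑ a ∈ S, ν q (D (nn a.1) a.2) ≤ ν q (Wu g r q) := by
    rw [← measure_biUnion_finset hdisj fun a ha =>
      (hDz (nn a.1) a.2 (hSmem a ha)).1.measurableSet]
    exact measure_mono (iUnion₂_subset fun a ha => (hDz (nn a.1) a.2 (hSmem a ha)).2.1)
  have hm2 : ∑ a ∈ S, (ν q (D (nn a.1) a.2)).toReal ≤ (ν q (Wu g r q)).toReal := by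
    rw [← ENNReal.toReal_sum fun a ha => hfin _ (hDz (nn a.1) a.2 (hSmem a ha)).2.1]
    exact ENNReal.toReal_mono (hT.fin q) hm1
  calc ∑ i ∈ Finset.range m, XX g φ ν u p (nn i + α) *
        ∑ b ∈ F i, Real.exp (birkhoffSum g.symm φ (nn i) b)
      = ∑ a ∈ S, XX g φ ν u p (nn a.1 + α) * Real.exp (birkhoffSum g.symm φ (nn a.1) a.2) := by
        rw [hS, Finset.sum_sigma]
        exact Finset.sum_congr rfl fun i _ => Finset.mul_sum _ _ _
    _ ≤ ∑ a ∈ S, C₂ * (ν q (D (nn a.1) a.2)).toReal :=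
        Finset.sum_le_sum fun a ha => (hDz (nn a.1) a.2 (hSmem a ha)).2.2.1
    _ = C₂ * ∑ a ∈ S, (ν q (D (nn a.1) a.2)).toReal := by rw [Finset.mul_sum]
    _ ≤ _ := by gcongr

theorem XX_pos [CompactSpace X] [MeasurableSpace X] [BorelSpace X] {g : X ≃ₜ X} {φ : X → ℝ}
    {r C : ℝ} {ν : X → Measure X} (hT : TM g φ r C ν) {p : X} (hp : g p = p) {u : ℝ}
    (hu0 : 0 < u) (hur : u ≤ r) (n : ℕ) : 0 < XX g φ ν u p n := by
  have hps := fixed_symm hp
  unfold XX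
  apply mul_pos (Real.exp_pos _)
  apply ENNReal.toReal_pos
  · obtain ⟨δ, hδ, hu⟩ := uc g g.continuous n hu0
    have h1 : Wu g (min (δ / 2) u) p ⊆ g.symm^[n] '' Wu g u p := by
      intro y hy
      have hy' : SR g.symm (min (δ / 2) u) p y := hy
      refine ⟨g^[n] y, wu_map hp (min_le_right _ _) ?_ hy', iterL g n y⟩
      intro k hk x y hxy
      exact (hu k hk x y (by
        have := min_le_left (δ / 2) u
        linarith)).le
    intro h0
    exact hT.pos p (min (δ / 2) u) (lt_min (half_pos hδ) hu0) (measure_mono_null h1 h0)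
  · exact ((measure_mono ((wu_back hp n).trans fun y hy => SR.mono hy hur)).trans_lt
      (lt_top_iff_ne_top.mpr (hT.fin p))).ne

/-- The main contradiction. -/
theorem contra [CompactSpace X] [MeasurableSpace X] [BorelSpace X] {g : X ≃ₜ X} {φ ψ : X → ℝ}
    {r r' C C' c e V V' B B' V₁ V₂ : ℝ} {ν ν' : X → Measure X} (h : LP g c) (hr : 0 < r)
    (hr' : 0 < r') (he : 0 < e) (hT : TM g φ r C ν) (hC : 0 < C) (hT' : TM g.symm ψ r' C' ν')
    (hC' : 0 < C') (hB : Bow g φ e V) (hB' : Bow g ψ e V') (hφ : ∀ x, |φ x| ≤ B)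
    (hψ : ∀ x, |ψ x| ≤ B') {p q : X} (hp : g p = p) (hq : g q = q)
    {R A : Set X} (hR : MinAtt g.symm R) (hqR : q ∈ R) (hA : MinAtt g A) (hpA : p ∈ A) {x₀ : X}
    (hx1 : WS g p x₀) (hx2 : WS g.symm q x₀) (hx3 : x₀ ∉ R) (hx4 : x₀ ∉ A)
    (hV₁ : ∀ b ∈ R, ∀ n, birkhoffSum g.symm ψ n b ≤ birkhoffSum g.symm φ n b + V₁)
    (hV₂ : ∀ b ∈ A, ∀ n, birkhoffSum g φ n b ≤ birkhoffSum g ψ n b + V₂) : False := by
  have hc0 := h.c_pos
  obtain ⟨u, hu0, huc, hue, hur, hur'⟩ : ∃ u > 0, 256 * u ≤ c ∧ 16 * u ≤ e ∧ 16 * u ≤ r ∧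
      16 * u ≤ r' := by
    refine ⟨min (min c e) (min r r') / 256, by positivity, ?_, ?_, ?_, ?_⟩
    · have := (min_le_left (min c e) (min r r')).trans (min_le_left _ _)
      linarith
    · have := (min_le_left (min c e) (min r r')).trans (min_le_right _ _)
      linarith
    · have := (min_le_right (min c e) (min r r')).trans (min_le_left _ _)
      linarith
    · have := (min_le_right (min c e) (min r r')).trans (min_le_right _ _)
      linarith
  have hps := fixed_symm hp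
  have hqs := fixed_symm hq
  obtain ⟨α, j₁, K, hD⟩ := lemD h hT hC hB hφ hp hq hR hqR hx1 hx2 hx3 hu0 huc hue hur
  obtain ⟨β, j₁', K', hD'⟩ := lemD (g := g.symm) h.symm hT' hC' hB'.symm hψ hqs hps (R := A) hA hpA
    (x₀ := x₀) hx2 hx1 hx4 hu0 huc hue hur'
  obtain ⟨κ, hκ, hU⟩ := corU h hT hC hB hφ hp (s := 16 * u) (by linarith) (by linarith) hue hur
    hu0 (by linarith) (by linarith) α
  obtain ⟨κ', hκ', hU'⟩ := corU (g := g.symm) h.symm hT' hC' hB'.symm hψ hqs (s := 16 * u)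
    (by linarith) (by linarith) hue hur' hu0 (by linarith) (by linarith) β
  set j₀ := max j₁ j₁' with hj₀
  set x : ℕ → ℝ := fun i => XX g φ ν u p (j₀ * (i + 1) + α) with hx
  set y : ℕ → ℝ := fun i => XX g.symm ψ ν' u q (j₀ * (i + 1) + β) with hy
  have hxp : ∀ i, 0 < x i := fun i => XX_pos hT hp hu0 (by linarith) _
  have hyp : ∀ i, 0 < y i := fun i => XX_pos hT' hqs hu0 (by linarith) _
  choose F hF1 hF2 hF3 using fun i : ℕ => hU (j₀ * (i + 1))
  choose F' hF1' hF2' hF3' using fun i : ℕ => hU' (j₀ * (i + 1))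
  have e8 : (16 * u) / 2 = 8 * u := by ring
  rw [e8] at hF1 hF1'
  have hI : ∀ m, ∑ i ∈ Finset.range m, x i * (κ' / (Real.exp V₁ * y i)) ≤ K := by
    intro m
    refine le_trans ?_ (hD j₀ (le_max_left _ _) m F' fun i => ⟨fun b hb => hF1' i b hb, hF2' i⟩)
    refine Finset.sum_le_sum fun i _ => ?_
    refine mul_le_mul_of_nonneg_left ?_ (hxp i).le
    rw [div_le_iff₀ (mul_pos (Real.exp_pos _) (hyp i))]
    have h1 := hF3' i
    have h2 : ∑ b ∈ F' i, Real.exp (birkhoffSum g.symm ψ (j₀ * (i + 1)) b) ≤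
        Real.exp V₁ * ∑ b ∈ F' i, Real.exp (birkhoffSum g.symm φ (j₀ * (i + 1)) b) := by
      rw [Finset.mul_sum]
      refine Finset.sum_le_sum fun b hb => ?_
      rw [← Real.exp_add]
      apply Real.exp_le_exp.mpr
      have hbR : b ∈ R := hR.1.sat q hqR b
        (WS.of_SR (h.cS _ _ (SR.mono (hF1' i b hb) (by linarith))))
      have := hV₁ b hbR (j₀ * (i + 1))
      linarith
    have h3 := mul_le_mul_of_nonneg_left h2 (hyp i).le
    calc κ' ≤ y i * ∑ b ∈ F' i, Real.exp (birkhoffSum g.symm ψ (j₀ * (i + 1)) b) := h1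
      _ ≤ y i * (Real.exp V₁ * ∑ b ∈ F' i, Real.exp (birkhoffSum g.symm φ (j₀ * (i + 1)) b)) := h3
      _ = _ := by ring
  have hII : ∀ m, ∑ i ∈ Finset.range m, y i * (κ / (Real.exp V₂ * x i)) ≤ K' := by
    intro m
    refine le_trans ?_ (hD' j₀ (le_max_right _ _) m F fun i => ⟨fun b hb => hF1 i b hb, hF2 i⟩)
    refine Finset.sum_le_sum fun i _ => ?_
    refine mul_le_mul_of_nonneg_left ?_ (hyp i).le
    rw [div_le_iff₀ (mul_pos (Real.exp_pos _) (hxp i))]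
    have h1 := hF3 i
    have e1 : g.symm.symm = g := rfl
    rw [e1]
    have h2 : ∑ b ∈ F i, Real.exp (birkhoffSum g φ (j₀ * (i + 1)) b) ≤
        Real.exp V₂ * ∑ b ∈ F i, Real.exp (birkhoffSum g ψ (j₀ * (i + 1)) b) := by
      rw [Finset.mul_sum]
      refine Finset.sum_le_sum fun b hb => ?_
      rw [← Real.exp_add]
      apply Real.exp_le_exp.mpr
      have hbA : b ∈ A := hA.1.sat p hpA b
        (WS.of_SR (h.cU _ _ (SR.mono (hF1 i b hb) (by linarith))))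
      have := hV₂ b hbA (j₀ * (i + 1))
      linarith
    have h3 := mul_le_mul_of_nonneg_left h2 (hxp i).le
    calc κ ≤ x i * ∑ b ∈ F i, Real.exp (birkhoffSum g φ (j₀ * (i + 1)) b) := h1
      _ ≤ x i * (Real.exp V₂ * ∑ b ∈ F i, Real.exp (birkhoffSum g ψ (j₀ * (i + 1)) b)) := h3
      _ = _ := by ring
  have key : ∀ m : ℕ, (m : ℝ) * 2 ≤ K / (κ' / Real.exp V₁) + K' / (κ / Real.exp V₂) := by
    intro m
    have h1 : ∑ i ∈ Finset.range m, x i / y i ≤ K / (κ' / Real.exp V₁) := by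
      rw [le_div_iff₀ (by positivity), Finset.sum_mul]
      refine le_trans (le_of_eq (Finset.sum_congr rfl fun i _ => ?_)) (hI m)
      have := (hyp i).ne'
      field_simp
    have h2 : ∑ i ∈ Finset.range m, y i / x i ≤ K' / (κ / Real.exp V₂) := by
      rw [le_div_iff₀ (by positivity), Finset.sum_mul]
      refine le_trans (le_of_eq (Finset.sum_congr rfl fun i _ => ?_)) (hII m)
      have := (hxp i).ne'
      field_simp
    have h3 : ∑ i ∈ Finset.range m, (2 : ℝ) ≤ ∑ i ∈ Finset.range m, (x i / y i + y i / x i) := by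
      refine Finset.sum_le_sum fun i _ => ?_
      rw [div_add_div _ _ (hyp i).ne' (hxp i).ne', le_div_iff₀ (mul_pos (hyp i) (hxp i))]
      nlinarith [sq_nonneg (x i - y i)]
    rw [Finset.sum_const, Finset.card_range, nsmul_eq_mul, Finset.sum_add_distrib] at h3
    linarith
  obtain ⟨m, hm⟩ := exists_nat_gt (K / (κ' / Real.exp V₁) + K' / (κ / Real.exp V₂))
  have h1 := key m
  have h2 : (0 : ℝ) ≤ m := Nat.cast_nonneg m
  linarith

end Pool.Agent.N520.T
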