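import Pool.Agent.N520.T.Sum
import Pool.Agent.Y321.PJ.Abs

set_option autoImplicit false
set_option linter.unusedSectionVars false

open Filter Topology Set Metric MeasureTheory

namespace Pool.Agent.N520.T

open Pool.Agent.H789R2.AN Pool.Agent.Y330.G Pool.Agent.H721R2 Pool.Agent.Y321.PJ

variable {X : Type*} [MetricSpace X]

/-- A minimal repeller that meets a minimal attractor is contained in it. -/
theorem rep_sub [CompactSpace X] {g : X ≃ₜ X} {c : ℝ} (h : LP g c) {A R : Set X}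
    (hA : IsAtt g A) (hR : MinAtt g.symm R) {a : X} (haA : a ∈ A) (haR : a ∈ R) : R ⊆ A := by
  intro v hv
  rw [← hA.closed.closure_eq, Metric.mem_closure_iff]
  intro η hη
  obtain ⟨J, z, hz1, hz2⟩ := conn h hR haR h.c_pos (half_pos hη) hv
  refine ⟨g^[J] z, (inv_iter hA.inv J z).mpr (hA.sat a haA z (WS.of_SR (h.cU _ _ hz1))), ?_⟩
  have := hz2 0
  simp only [Function.iterate_zero, id] at this
  linarith

/-- Proper minimal attractors and minimal repellers are disjoint. -/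
theorem disj [CompactSpace X] [ConnectedSpace X] {g : X ≃ₜ X} {c : ℝ} (h : LP g c) {A R : Set X}
    (hA : MinAtt g A) (hR : MinAtt g.symm R) (hne : A ≠ univ) {a : X} (haA : a ∈ A) :
    a ∉ R := by
  intro haR
  have h1 : R ⊆ A := rep_sub h hA.1 hR haA haR
  have h2 : A ⊆ R := rep_sub (g := g.symm) h.symm hR.1 hA haR haA
  have h3 : R = A := Subset.antisymm h1 h2
  obtain ⟨w, hw1, hw2⟩ := exit h hR (by rw [h3]; exact hne) h.c_pos haR
  exact hw2 (h2 (hA.1.sat a haA w (WS.of_SR (h.cU _ _ hw1))))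

theorem ws_pow {g : X ≃ₜ X} {k : ℕ} (hk : 1 ≤ k) {x y : X} (h : WS g x y) :
    WS (iterHomeo g k) x y := by
  unfold WS at *
  have h1 : Tendsto (fun n : ℕ => k * n) atTop atTop :=
    tendsto_id.const_mul_atTop' (by omega)
  have h2 := h.comp h1
  refine h2.congr fun n => ?_
  simp only [Function.comp]
  rw [ith_iter, ith_iter]

/-- Attractors of a power contain fixed points of the power, if the minimal attractors do. -/
theorem fix_att [CompactSpace X] {g : X ≃ₜ X} {k : ℕ} (hk : 1 ≤ k)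
    (hper : ∀ A, MinAtt g A → ∃ p ∈ A, g^[k] p = p) {A : Set X}
    (hA : IsAtt (iterHomeo g k) A) : ∃ p ∈ A, iterHomeo g k p = p := by
  set B : Set X := {x | ∃ i < k, g^[i] x ∈ A} with hB
  have hBe : B = ⋃ i ∈ Finset.range k, (g^[i]) ⁻¹' A := by
    ext x
    simp [hB]
  have hmod : ∀ x i, g^[i] x ∈ A → x ∈ B := by
    intro x i hi
    refine ⟨i % k, Nat.mod_lt _ (by omega), ?_⟩
    have e : g^[i] x = (iterHomeo g k)^[i / k] (g^[i % k] x) := by
      rw [ith_iter, ← Function.iterate_add_apply, Nat.div_add_mod]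
    rw [e] at hi
    exact (inv_iter hA.inv _ _).mp hi
  have hBatt : IsAtt g B := by
    refine ⟨?_, ?_, ?_, ?_⟩
    · rw [hBe]
      exact isClosed_biUnion_finset fun i _ => hA.closed.preimage (g.continuous.iterate i)
    · obtain ⟨a, ha⟩ := hA.nonempty
      exact ⟨a, hmod a 0 ha⟩
    · intro x
      constructor
      · rintro ⟨i, -, hi⟩
        exact hmod x (i + 1) hi
      · rintro ⟨i, -, hi⟩
        have h1 : g^[k - 1 + i] (g x) ∈ A := by
          have h2 : (iterHomeo g k) (g^[i] x) ∈ A := (hA.inv _).mpr hi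
          have h3 : (iterHomeo g k) (g^[i] x) = g^[k - 1 + i] (g x) := by
            show g^[k] (g^[i] x) = _
            rw [← Function.iterate_succ_apply, ← Function.iterate_add_apply]
            congr 1
            omega
          rwa [h3] at h2
        exact hmod _ _ h1
    · rintro x ⟨i, hi, hxi⟩ y hxy
      refine ⟨i, hi, hA.sat _ hxi _ ?_⟩
      rw [ith_symm]
      exact ws_pow hk (hxy.mapIter (φ := g) (comm_symm_right fun _ => rfl) i)
  obtain ⟨A₁, hA₁, hmin⟩ := exists_minAtt hBatt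
  obtain ⟨p, hp, hpk⟩ := hper A₁ hmin
  obtain ⟨i, -, hi⟩ := hA₁ hp
  refine ⟨g^[i] p, hi, ?_⟩
  show g^[k] (g^[i] p) = g^[i] p
  rw [← Function.iterate_add_apply, Nat.add_comm, Function.iterate_add_apply, hpk]

theorem bsum_per {g : X ≃ₜ X} (φ : X → ℝ) {T : ℕ} {p : X} (hp : g^[T] p = p) :
    birkhoffSum g.symm φ T p = birkhoffSum g φ T p := by
  have h1 := bsum_symm g φ T (g p)
  rw [g.symm_apply_apply] at h1
  have h2 : g.symm^[T] (g p) = g p := by
    have : g^[T] (g p) = g p := by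
      rw [← Function.iterate_succ_apply, Function.iterate_succ_apply', hp]
    calc g.symm^[T] (g p) = g.symm^[T] (g^[T] (g p)) := by rw [this]
      _ = g p := iterL g T _
  rw [h2] at h1
  rw [← h1]
  have h3 := birkhoffSum_apply_sub_birkhoffSum g φ T p
  rw [hp, sub_self] at h3
  linarith

/-- Comparison of Birkhoff sums on a minimal attractor from the periodic points. -/
theorem per_bound {E : Type*} [NormedAddCommGroup E] [NormedSpace ℝ E] [CompactSpace X]
    (S : HypSys X E) {c : ℝ} (h : LP S.g c) {A : Set X} (hA : MinAtt S.g A) {φ ψ : X → ℝ}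
    {e V V' B B' : ℝ} (he : 0 < e) (hBφ : Bow S.g φ e V) (hBψ : Bow S.g ψ e V')
    (hφ : ∀ x, |φ x| ≤ B) (hψ : ∀ x, |ψ x| ≤ B')
    (hper : ∀ p ∈ A, ∀ T : ℕ, 1 ≤ T → S.g^[T] p = p →
      birkhoffSum S.g φ T p ≤ birkhoffSum S.g ψ T p) :
    ∃ V₂, ∀ b ∈ A, ∀ n, birkhoffSum S.g φ n b ≤ birkhoffSum S.g ψ n b + V₂ := by
  obtain ⟨K, hcl⟩ := closing S h hA
  have hc := h.c_pos
  obtain ⟨j, hj⟩ := pw (c := c) (half_pos he)
  have key : ∀ (χ : X → ℝ) (V B : ℝ), Bow S.g χ e V → (∀ x, |χ x| ≤ B) → ∀ (x p : X) (n : ℕ),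
      (∀ i ≤ n, dist (S.g^[i] x) (S.g^[i] p) ≤ c * (1 / 2) ^ i + c * (1 / 2) ^ (n - i)) →
      |birkhoffSum S.g χ n x - birkhoffSum S.g χ n p| ≤ V + 4 * j * B := by
    intro χ V B hV hB x p n hd
    have hB0 : 0 ≤ B := (abs_nonneg _).trans (hB x)
    have hV0 : 0 ≤ V := (abs_nonneg _).trans (hV 0 x x (by simp))
    rcases Nat.lt_or_ge n (2 * j) with hn | hn
    · have h1 := bsum_bound S.g hB n x
      have h2 := bsum_bound S.g hB n p
      have h3 : (n : ℝ) ≤ 2 * j := by exact_mod_cast hn.le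
      have h4 : (n : ℝ) * B ≤ 2 * j * B := mul_le_mul_of_nonneg_right h3 hB0
      have h5 := abs_sub (birkhoffSum S.g χ n x) (birkhoffSum S.g χ n p)
      linarith
    · obtain ⟨m, rfl⟩ : ∃ m, n = j + (m + j) := ⟨n - 2 * j, by omega⟩
      have h1 := bsum_bound S.g hB j x
      have h2 := bsum_bound S.g hB j p
      have h3 := bsum_bound S.g hB j (S.g^[m] (S.g^[j] x))
      have h4 := bsum_bound S.g hB j (S.g^[m] (S.g^[j] p))
      have h5 := hV m (S.g^[j] x) (S.g^[j] p) (by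
        intro k hk
        rw [← Function.iterate_add_apply, ← Function.iterate_add_apply]
        have h6 := hd (k + j) (by omega)
        have h7 := (pw_anti hc (show j ≤ k + j by omega)).trans hj
        have h8 := (pw_anti hc (show j ≤ j + (m + j) - (k + j) by omega)).trans hj
        linarith)
      rw [birkhoffSum_add, birkhoffSum_add, birkhoffSum_add, birkhoffSum_add]
      rw [abs_le] at h1 h2 h3 h4 h5 ⊢
      constructor <;> linarith
  refine ⟨V + V' + (4 * j + K) * (B + B'), fun x hx n => ?_⟩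
  obtain ⟨m, hm, p, hpA, hnm, hp, hd⟩ := hcl x hx n
  have h1 := (abs_le.mp (key φ V B hBφ hφ x p n hd)).2
  have h2 := (abs_le.mp (key ψ V' B' hBψ hψ x p n hd)).1
  have h3 := hper p hpA (n + m) hnm hp
  rw [birkhoffSum_add, birkhoffSum_add] at h3
  have h4 := (abs_le.mp (bsum_bound S.g hφ m (S.g^[n] p))).1
  have h5 := (abs_le.mp (bsum_bound S.g hψ m (S.g^[n] p))).2
  have hB0 : 0 ≤ B := (abs_nonneg _).trans (hφ x)
  have hB0' : 0 ≤ B' := (abs_nonneg _).trans (hψ x)
  have h6 : (m : ℝ) ≤ K := by exact_mod_cast hm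
  have h7 : (m : ℝ) * B ≤ K * B := mul_le_mul_of_nonneg_right h6 hB0
  have h8 : (m : ℝ) * B' ≤ K * B' := mul_le_mul_of_nonneg_right h6 hB0'
  linarith

/-- The abstract theorem: there are no proper attractors. -/
theorem abs_trans {E : Type*} [NormedAddCommGroup E] [NormedSpace ℝ E] [CompactSpace X]
    [ConnectedSpace X] [MeasurableSpace X] [BorelSpace X] (S : HypSys X E) {c : ℝ}
    (h : LP S.g c) {g₁ : X ≃ₜ X} {k : ℕ} (hk : 1 ≤ k) (hg : S.g = iterHomeo g₁ k)
    (hper : ∀ A, MinAtt g₁ A → ∃ p ∈ A, g₁^[k] p = p)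
    (hper' : ∀ R, MinAtt g₁.symm R → ∃ p ∈ R, g₁.symm^[k] p = p) {φ ψ : X → ℝ}
    {r r' C C' e V V' B B' : ℝ} {ν ν' : X → Measure X} (hr : 0 < r) (hr' : 0 < r') (he : 0 < e)
    (hT : TM S.g φ r C ν) (hC : 0 < C) (hT' : TM S.g.symm ψ r' C' ν') (hC' : 0 < C')
    (hB : Bow S.g φ e V) (hB' : Bow S.g ψ e V') (hφ : ∀ x, |φ x| ≤ B) (hψ : ∀ x, |ψ x| ≤ B')
    (heq : ∀ (p : X) (T : ℕ), 1 ≤ T → S.g^[T] p = p →
      birkhoffSum S.g φ T p = birkhoffSum S.g ψ T p) :
    ∀ A, IsAtt S.g A → A = univ := by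
  intro A₀ hA₀
  by_contra hne
  obtain ⟨A, R, hA, hR, hAR⟩ := exists_connection h isOpen_univ univ_nonempty
  have hAne : A ≠ univ := by
    intro e
    apply hne
    have := hA.2 A₀ hA₀ (by rw [e]; exact subset_univ _)
    rw [e] at this
    exact univ_subset_iff.mp this
  obtain ⟨p, hpA, hp⟩ : ∃ p ∈ A, S.g p = p := by
    have := fix_att hk hper (A := A) (by rw [← hg]; exact hA.1)
    rw [← hg] at this
    exact this
  obtain ⟨q, hqR, hq⟩ : ∃ q ∈ R, S.g.symm q = q := by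
    have := fix_att (g := g₁.symm) hk hper' (A := R) (by rw [← ith_symm, ← hg]; exact hR.1)
    rw [← ith_symm, ← hg] at this
    exact this
  have hq' : S.g q = q := fixed_symm (g := S.g.symm) hq
  obtain ⟨j, k', x₀, -, hx1, hx2⟩ := exists_heteroclinic h hA hR isOpen_univ hAR hpA hqR
  rw [fixed_iter (fixed_symm hp)] at hx1
  rw [fixed_iter hq'] at hx2
  have hx3 : x₀ ∉ R := fun hx => disj h hA hR hAne hpA (hR.1.sat x₀ hx p hx1.symm')
  have hx4 : x₀ ∉ A := fun hx => disj h hA hR hAne (hA.1.sat x₀ hx q hx2.symm') hqR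
  obtain ⟨V₂, hV₂⟩ := per_bound S h hA he hB hB' hφ hψ fun p _ T hT hp => (heq p T hT hp).le
  obtain ⟨V₁, hV₁⟩ := per_bound S.symm (c := c) h.symm (A := R) hR he (φ := ψ) (ψ := φ) hB'.symm
    hB.symm hψ hφ (by
      intro p _ T hT hp
      have hp' : S.g^[T] p = p := by
        have h1 : S.g.symm^[T] p = p := hp
        have h2 := iterR S.g T p
        rwa [h1] at h2
      show birkhoffSum S.g.symm ψ T p ≤ birkhoffSum S.g.symm φ T p
      rw [bsum_per ψ hp', bsum_per φ hp']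
      exact (heq p T hT hp').ge)
  exact contra h hr hr' he hT hC hT' hC' hB hB' hφ hψ hp hq' hR hqR hA hpA hx1 hx2 hx3 hx4
    hV₁ hV₂

end Pool.Agent.N520.T
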